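import Pool.Agent.H583.AL.D
import Pool.Graph.R_pool_sql_team_seeded_707910d6.T2H21.RS.AllH

/-!
Products of linear forms at pairs of moderate height, uniformly in the forms.
-/

set_option autoImplicit false

namespace Pool.Agent.H583.GD

open Finset Pool.Agent.T2H20.ABC Pool.Agent.T2H20.AH Pool.Agent.H785R2.ABC Pool.Agent.H583.SF
  Pool.Agent.H583.WT Pool.Agent.H583.AL

/-- the pairs of moderate height, uniformly in the forms -/
theorem modU (k : ℕ) (hk : 3 ≤ k) (M : ℕ) (hM : 1 ≤ M) (ε : ℝ) (hε : 0 < ε) :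
    ∃ C : ℝ, 0 < C ∧ ∀ X Z : ℕ, 1 ≤ X → 1 ≤ Z → Z ≤ X →
    ∀ (L : Fin k → ℤ × ℤ), (∀ i j, i ≠ j → det L i j ≠ 0) →
    ∀ (K : Finset ℕ), (∀ i j, i ≠ j → (det L i j).natAbs.primeFactors ⊆ K) → ∀ Q : Finset (ℤ × ℤ),
    (∀ p ∈ Q, IsCoprime p.1 p.2 ∧ ∏ i, val L i p ≠ 0 ∧ (∀ i, (val L i p).natAbs ≤ X ^ M) ∧
      zn K (∏ i, val L i p) ≤ Z) →
    (Q.card : ℝ) ≤ C * (2 ^ K.card) ^ 2 * (X : ℝ) ^ ε * (Z : ℝ) ^ (2 / (k : ℝ)) := by
  classical
  have hM0 : (0 : ℝ) < M := by exact_mod_cast hM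
  obtain ⟨D, hD, hint⟩ := ints_le (ε / (4 * M)) (by positivity)
  obtain ⟨C₁, hC₁, hlog⟩ := log_bound (ε / 4) (by positivity)
  have hk0 : (0 : ℝ) < k := by have : 0 < k := by omega
                               exact_mod_cast this
  refine ⟨(k : ℝ) ^ 2 * C₁ ^ 2 * (D ^ 2 * 4), by positivity, ?_⟩
  intro X Z hX hZ hZX L hL K hK Q hQ
  obtain ⟨G, hG⟩ : ∃ G : ℝ, G = 2 ^ K.card := ⟨_, rfl⟩
  rw [← hG]
  have hG1 : 1 ≤ G := by rw [hG]; exact one_le_pow₀ (by norm_num)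
  have hG0 : 0 ≤ G := by linarith
  have hZ1 : (1 : ℝ) ≤ Z := by exact_mod_cast hZ
  have hX1 : (1 : ℝ) ≤ X := by exact_mod_cast hX
  have hX0 : (0 : ℝ) < X := by linarith
  have vne : ∀ p ∈ Q, ∀ i, val L i p ≠ 0 := fun p hp i =>
    (Finset.prod_ne_zero_iff.1 (hQ p hp).2.1) i (Finset.mem_univ _)
  -- the size of the values
  obtain ⟨Y, hY⟩ : ∃ Y, Y = X ^ M := ⟨_, rfl⟩
  have hY1 : 1 ≤ Y := by
    rw [hY]
    exact Nat.one_le_pow _ _ hX
  have hval : ∀ p ∈ Q, ∀ i, (val L i p).natAbs ≤ Y := by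
    intro p hp i
    rw [hY]
    exact (hQ p hp).2.2.1 i
  -- the boxes
  set N := Nat.log 2 X + 2 with hN
  set box : Fin k × Fin k × ℕ × ℕ → Finset (ℤ × ℤ) := fun t =>
    Q.filter (fun p => t.1 ≠ t.2.1 ∧ zn K (val L t.1 p) ≤ 2 ^ t.2.2.1 ∧
      zn K (val L t.2.1 p) ≤ 2 ^ t.2.2.2 ∧
      (2 ^ (t.2.2.1 + t.2.2.2)) ^ k ≤ 4 ^ k * Z ^ 2) with hbox
  have hcover : Q ⊆ ((Finset.univ : Finset (Fin k)) ×ˢ (Finset.univ : Finset (Fin k)) ×ˢ
      (Finset.range N) ×ˢ (Finset.range N)).biUnion box := by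
    intro p hpQ
    obtain ⟨p1, p2, p3, p5⟩ := hQ p hpQ
    have hprod2 : ∏ i, zn K (val L i p) ≤ Z := by
      rw [prod_zn hK hL p1 (vne p hpQ)]
      exact p5
    obtain ⟨i, j, hij, hrr⟩ := exists_pair (by omega) (fun i => zn K (val L i p))
      (fun i => zn_pos _ _) Z hprod2
    obtain ⟨s, s1, s2, s3⟩ := dyadic (zn_pos K (val L i p))
    obtain ⟨t, t1, t2, t3⟩ := dyadic (zn_pos K (val L j p))
    have hle : ∀ i, zn K (val L i p) ≤ X := fun i =>
      (Finset.single_le_prod' (f := fun i => zn K (val L i p)) (fun i _ => zn_pos _ _)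
        (Finset.mem_univ i)).trans (hprod2.trans hZX)
    have hlogle : ∀ i, Nat.log 2 (zn K (val L i p)) + 1 < N := by
      intro i
      have := Nat.log_mono_right (b := 2) (hle i)
      omega
    rw [Finset.mem_biUnion]
    refine ⟨(i, j, s, t), ?_, ?_⟩
    · simp only [Finset.mem_product, Finset.mem_univ, Finset.mem_range, true_and]
      rw [s3, t3]
      exact ⟨hlogle i, hlogle j⟩
    · rw [hbox]
      refine Finset.mem_filter.2 ⟨hpQ, hij, s1, t1, ?_⟩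
      show (2 ^ (s + t)) ^ k ≤ 4 ^ k * Z ^ 2
      calc (2 ^ (s + t)) ^ k = (2 ^ s * 2 ^ t) ^ k := by rw [pow_add]
        _ ≤ ((2 * zn K (val L i p)) * (2 * zn K (val L j p))) ^ k :=
            Nat.pow_le_pow_left (Nat.mul_le_mul s2 t2) _
        _ = 4 ^ k * (zn K (val L i p) * zn K (val L j p)) ^ k := by rw [← mul_pow]; ring
        _ ≤ 4 ^ k * Z ^ 2 := Nat.mul_le_mul_left _ hrr
  obtain ⟨W, hW⟩ : ∃ W, W = (Z : ℝ) ^ (2 / (k : ℝ)) := ⟨_, rfl⟩
  rw [← hW]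
  have hW1 : 1 ≤ W := by rw [hW]; exact Real.one_le_rpow hZ1 (by positivity)
  have hYe : ((Y : ℝ) ^ (ε / (4 * M))) ^ 2 = (X : ℝ) ^ (ε / 2) := by
    have e1 : (Y : ℝ) = (X : ℝ) ^ (M : ℝ) := by
      rw [hY, Real.rpow_natCast]
      push_cast
      ring
    rw [e1, ← Real.rpow_mul hX0.le, ← Real.rpow_natCast, ← Real.rpow_mul hX0.le]
    congr 1
    push_cast
    field_simp
    norm_num
  have hB : ∀ t ∈ ((Finset.univ : Finset (Fin k)) ×ˢ (Finset.univ : Finset (Fin k)) ×ˢ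
      (Finset.range N) ×ˢ (Finset.range N)), ((box t).card : ℝ) ≤
      D ^ 2 * G ^ 2 * (X : ℝ) ^ (ε / 2) * (4 * W) := by
    rintro ⟨i, j, s, t⟩ -
    rcases (box (i, j, s, t)).eq_empty_or_nonempty with h | ⟨p0, hp0⟩
    · rw [h, Finset.card_empty, Nat.cast_zero]
      have : 0 ≤ W := by linarith
      positivity
    rw [hbox] at hp0
    obtain ⟨-, hij, -, -, hst⟩ := Finset.mem_filter.1 hp0
    have dij := hL i j hij
    have hmem : ∀ p ∈ box (i, j, s, t), p ∈ Q ∧ zn K (val L i p) ≤ 2 ^ s ∧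
        zn K (val L j p) ≤ 2 ^ t := by
      intro p hp
      rw [hbox] at hp
      obtain ⟨h1, -, h2, h3, -⟩ := Finset.mem_filter.1 hp
      exact ⟨h1, h2, h3⟩
    have c1 := hint Y (2 ^ s) hY1 Nat.one_le_two_pow K ((box (i, j, s, t)).image fun p => val L i p) (by
      intro v hv
      rw [mem_image] at hv
      obtain ⟨p, hp, rfl⟩ := hv
      obtain ⟨g1, g2, g3⟩ := hmem p hp
      exact ⟨vne p g1 i, hval p g1 i, g2⟩)
    have c2 := hint Y (2 ^ t) hY1 Nat.one_le_two_pow K ((box (i, j, s, t)).image fun p => val L j p) (by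
      intro v hv
      rw [mem_image] at hv
      obtain ⟨p, hp, rfl⟩ := hv
      obtain ⟨g1, g2, g3⟩ := hmem p hp
      exact ⟨vne p g1 j, hval p g1 j, g3⟩)
    rw [← hG] at c1 c2
    have c3 : (box (i, j, s, t)).card ≤ ((box (i, j, s, t)).image fun p => val L i p).card *
        ((box (i, j, s, t)).image fun p => val L j p).card := by
      rw [← card_product]
      apply card_le_card_of_injOn (fun p => (val L i p, val L j p))
      · intro p hp
        rw [mem_coe, mem_product]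
        exact ⟨mem_image_of_mem _ hp, mem_image_of_mem _ hp⟩
      · intro p _ q _ hpq
        simp only [Prod.mk.injEq] at hpq
        have e3 : p.1 = q.1 := mul_left_cancel₀ dij (by rw [cramer1, cramer1, hpq.1, hpq.2])
        have e4 : p.2 = q.2 := mul_left_cancel₀ dij (by rw [cramer2, cramer2, hpq.1, hpq.2])
        exact Prod.ext e3 e4
    have hx : (((2 ^ s : ℕ) : ℝ) * ((2 ^ t : ℕ) : ℝ)) ≤ 4 * W := by
      have h2 : ((((2 ^ s : ℕ) : ℝ) * ((2 ^ t : ℕ) : ℝ))) ^ k ≤ (4 * W) ^ k := by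
        rw [mul_pow 4, hW, ← Real.rpow_natCast ((Z : ℝ) ^ (2 / (k : ℝ))),
          ← Real.rpow_mul (by positivity), div_mul_cancel₀ _ hk0.ne']
        have h3 : (((2 ^ (s + t)) ^ k : ℕ) : ℝ) ≤ ((4 ^ k * Z ^ 2 : ℕ) : ℝ) := by
          exact_mod_cast hst
        push_cast at h3 ⊢
        rw [show (2 : ℝ) ^ s = 2 ^ s from rfl, ← pow_add]
        refine h3.trans (le_of_eq ?_)
        rw [show (Z : ℝ) ^ (2 : ℝ) = (Z : ℝ) ^ (2 : ℕ) from by
          rw [← Real.rpow_natCast]; norm_num]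
      exact le_of_pow_le_pow_left₀ (by omega) (by linarith) h2
    calc ((box (i, j, s, t)).card : ℝ) ≤
          ((((box (i, j, s, t)).image fun p => val L i p).card *
            ((box (i, j, s, t)).image fun p => val L j p).card : ℕ) : ℝ) := by exact_mod_cast c3
      _ = (((box (i, j, s, t)).image fun p => val L i p).card : ℝ) *
            (((box (i, j, s, t)).image fun p => val L j p).card : ℝ) := by push_cast; ring
      _ ≤ (D * G * (Y : ℝ) ^ (ε / (4 * M)) * ((2 ^ s : ℕ) : ℝ)) *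
            (D * G * (Y : ℝ) ^ (ε / (4 * M)) * ((2 ^ t : ℕ) : ℝ)) := by
          apply mul_le_mul c1 c2 (Nat.cast_nonneg _)
          positivity
      _ = D ^ 2 * G ^ 2 * ((Y : ℝ) ^ (ε / (4 * M))) ^ 2 * (((2 ^ s : ℕ) : ℝ) * ((2 ^ t : ℕ) : ℝ)) := by
          ring
      _ ≤ D ^ 2 * G ^ 2 * ((Y : ℝ) ^ (ε / (4 * M))) ^ 2 * (4 * W) :=
          mul_le_mul_of_nonneg_left hx (by positivity)
      _ = _ := by rw [hYe]
  have b2 : (Q.card : ℝ) ≤ (k : ℝ) ^ 2 * (N : ℝ) ^ 2 *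
      (D ^ 2 * G ^ 2 * (X : ℝ) ^ (ε / 2) * (4 * W)) := by
    calc (Q.card : ℝ) ≤ ((((Finset.univ : Finset (Fin k)) ×ˢ (Finset.univ : Finset (Fin k)) ×ˢ
          (Finset.range N) ×ˢ (Finset.range N)).biUnion box).card : ℝ) := by
          exact_mod_cast Finset.card_le_card hcover
      _ ≤ ∑ t ∈ ((Finset.univ : Finset (Fin k)) ×ˢ (Finset.univ : Finset (Fin k)) ×ˢ
          (Finset.range N) ×ˢ (Finset.range N)), ((box t).card : ℝ) := by
          exact_mod_cast Finset.card_biUnion_le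
      _ ≤ ∑ _t ∈ ((Finset.univ : Finset (Fin k)) ×ˢ (Finset.univ : Finset (Fin k)) ×ˢ
          (Finset.range N) ×ˢ (Finset.range N)),
          (D ^ 2 * G ^ 2 * (X : ℝ) ^ (ε / 2) * (4 * W)) :=
          Finset.sum_le_sum hB
      _ = _ := by
          rw [Finset.sum_const, nsmul_eq_mul, Finset.card_product, Finset.card_product,
            Finset.card_product, Finset.card_range, Finset.card_univ, Fintype.card_fin]
          push_cast
          ring
  have hNle : (N : ℝ) ≤ C₁ * (X : ℝ) ^ (ε / 4) := hlog X hX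
  have hNN : (N : ℝ) ^ 2 ≤ C₁ ^ 2 * (X : ℝ) ^ (ε / 2) := by
    calc (N : ℝ) ^ 2 ≤ (C₁ * (X : ℝ) ^ (ε / 4)) ^ 2 := pow_le_pow_left₀ (Nat.cast_nonneg _) hNle 2
      _ = C₁ ^ 2 * (X : ℝ) ^ (ε / 2) := by
        rw [mul_pow, ← Real.rpow_natCast ((X : ℝ) ^ (ε / 4)), ← Real.rpow_mul hX0.le]
        congr 2
        push_cast; ring
  have hW0 : 0 ≤ W := by linarith
  calc (Q.card : ℝ) ≤ (k : ℝ) ^ 2 * (N : ℝ) ^ 2 *
      (D ^ 2 * G ^ 2 * (X : ℝ) ^ (ε / 2) * (4 * W)) := b2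
    _ ≤ (k : ℝ) ^ 2 * (C₁ ^ 2 * (X : ℝ) ^ (ε / 2)) *
      (D ^ 2 * G ^ 2 * (X : ℝ) ^ (ε / 2) * (4 * W)) := by
        apply mul_le_mul_of_nonneg_right _ (by positivity)
        exact mul_le_mul_of_nonneg_left hNN (by positivity)
    _ = (k : ℝ) ^ 2 * C₁ ^ 2 * (D ^ 2 * 4) * G ^ 2 *
          ((X : ℝ) ^ (ε / 2) * (X : ℝ) ^ (ε / 2)) * W := by ring
    _ = _ := by
        rw [← Real.rpow_add hX0]
        congr 3
        ring

/-! ### the triple of a rational number -/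

/-- the product of the three members -/
def U (y : ℚ) : ℤ := y.num * y.den * (y.num + y.den)

/-- the height of the triple -/
def Cc (y : ℚ) : ℕ := max (max y.num.natAbs y.den) (y.num + y.den).natAbs

lemma den_ne (y : ℚ) : (y.den : ℤ) ≠ 0 := by exact_mod_cast y.den_pos.ne'

lemma num_add_ne {y : ℚ} (h : y ≠ -1) : y.num + y.den ≠ 0 := by
  intro h1
  apply h
  have h2 : (y.num : ℚ) = -y.den := by
    have : y.num = -(y.den : ℤ) := by omega
    rw [this]
    push_cast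
    ring
  rw [← Rat.num_div_den y, h2]
  have : (y.den : ℚ) ≠ 0 := by exact_mod_cast y.den_pos.ne'
  field_simp

lemma U_ne {y : ℚ} (h0 : y ≠ 0) (h : y ≠ -1) : U y ≠ 0 :=
  mul_ne_zero (mul_ne_zero (Rat.num_ne_zero.2 h0) (den_ne y)) (num_add_ne h)

lemma U_le (y : ℚ) : (U y).natAbs ≤ Cc y ^ 3 := by
  unfold U Cc
  rw [Int.natAbs_mul, Int.natAbs_mul, Int.natAbs_natCast]
  calc y.num.natAbs * y.den * (y.num + y.den).natAbs ≤
      max (max y.num.natAbs y.den) (y.num + y.den).natAbs *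
      max (max y.num.natAbs y.den) (y.num + y.den).natAbs *
      max (max y.num.natAbs y.den) (y.num + y.den).natAbs := by
        apply Nat.mul_le_mul (Nat.mul_le_mul _ _) (le_max_right _ _)
        · exact (le_max_left _ _).trans (le_max_left _ _)
        · exact (le_max_right _ _).trans (le_max_left _ _)
    _ = _ := by ring

lemma Cc_pos (y : ℚ) : 0 < Cc y :=
  lt_of_lt_of_le y.den_pos ((le_max_right _ _).trans (le_max_left _ _))

end Pool.Agent.H583.GD
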