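import Pool.Agent.H583.GD.A

/-!
The number of the rational numbers `y` for which the triple `(y, 1, y + 1)` has a small radical and a
large height.
-/

set_option autoImplicit false

namespace Pool.Agent.H583.GD

open Finset Pool.Agent.T2H20.ABC Pool.Agent.T2H20.AH Pool.Agent.H785R2.ABC Pool.Agent.H583.SF
  Pool.Agent.H583.WT Pool.Agent.H583.AL
open Pool.Agent.T2H21.RS (IsT rad3 count_all rad_cube)

/-- the decoded rational number -/
def deq (t : ℕ × ℕ) (w : Fin 3 × Bool × Bool) : ℚ :=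
  ((dec (if w.2.2 then t else t.swap, 1, w.1, w.2.1)).1 : ℚ) /
    (dec (if w.2.2 then t else t.swap, 1, w.1, w.2.1)).2

lemma rad3_swap (t : ℕ × ℕ) : rad3 t.swap = rad3 t := by
  unfold rad3
  rw [Prod.fst_swap, Prod.snd_swap, mul_comm t.2 t.1, add_comm t.2 t.1]

/-- the code of a rational number -/
lemma exists_code {y : ℚ} (h0 : y ≠ 0) (h1 : y ≠ -1) : ∃ (t : ℕ × ℕ) (w : Fin 3 × Bool × Bool),
    IsT t ∧ rad3 t = zr (U y) ∧ Cc y ≤ t.1 + t.2 ∧ y = deq t w := by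
  obtain ⟨q, c, s, hq1, hq2, hq3, hq4, -, -, hq5⟩ := code_exists (Rat.num_ne_zero.2 h0) (den_ne y)
    (num_add_ne h1) (Rat.isCoprime_num_den y)
  have h2 := hq5 1
  have e1 : (dec (q, 1, c, s)).1 = y.num := by rw [h2]; simp
  have e2 : (dec (q, 1, c, s)).2 = y.den := by rw [h2]; simp
  have hC : Cc y ≤ q.1 + q.2 := by
    unfold Cc
    have e3 := e1
    have e4 := e2
    unfold dec at e3 e4
    have hg : ((if s then (1 : ℤ) else -1) * ((1 : ℕ) : ℤ)) = 1 ∨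
        ((if s then (1 : ℤ) else -1) * ((1 : ℕ) : ℤ)) = -1 := by
      cases s <;> simp
    simp only at e3 e4
    obtain ⟨g, hg0⟩ : ∃ g : ℤ, g = (if s then (1 : ℤ) else -1) * ((1 : ℕ) : ℤ) := ⟨_, rfl⟩
    rw [← hg0] at e3 e4 hg
    obtain ⟨a, ha⟩ : ∃ a : ℤ, a = y.num := ⟨_, rfl⟩
    have hd : ((y.den : ℤ)).natAbs = y.den := Int.natAbs_natCast _
    rw [← hd]
    obtain ⟨b, hb⟩ : ∃ b : ℤ, b = (y.den : ℤ) := ⟨_, rfl⟩
    rw [← ha] at e3 ⊢
    rw [← hb] at e4 ⊢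
    split_ifs at e3 e4 with g1 g2
    · simp only at e3 e4
      rcases hg with hg | hg <;> subst hg <;> simp only [one_mul, neg_mul] at e3 e4 <;> omega
    · simp only at e3 e4
      rcases hg with hg | hg <;> subst hg <;> simp only [one_mul, neg_mul] at e3 e4 <;> omega
    · simp only at e3 e4
      rcases hg with hg | hg <;> subst hg <;> simp only [one_mul, neg_mul] at e3 e4 <;> omega
  have hr : rad3 q = zr (U y) := hq4
  have hy : y = (y.num : ℚ) / ((y.den : ℤ) : ℚ) := by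
    rw [Int.cast_natCast]
    exact (Rat.num_div_den y).symm
  rcases le_total q.1 q.2 with h | h
  · refine ⟨q, (c, s, true), ⟨hq1, h, hq3⟩, hr, hC, ?_⟩
    unfold deq
    simp only [if_true]
    rw [e1, e2]
    exact hy
  · refine ⟨q.swap, (c, s, false), ⟨hq2, h, hq3.symm⟩, by rw [rad3_swap]; exact hr, by
      rw [Prod.fst_swap, Prod.snd_swap, add_comm]; exact hC, ?_⟩
    unfold deq
    simp only [Bool.false_eq_true, if_false, Prod.swap_swap]
    rw [e1, e2]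
    exact hy

/-- from triples to rational numbers -/
lemma card_rat (R : ℕ) (M e C : ℝ) (θ : ℝ) (h : ∀ s : Finset (ℕ × ℕ),
      (∀ t ∈ s, IsT t ∧ rad3 t ≤ R ∧ (rad3 t : ℝ) ^ M ≤ ((t.1 + t.2 : ℕ) : ℝ)) →
      (s.card : ℝ) ≤ C * (R : ℝ) ^ θ) (Q : Finset ℚ)
    (hQ : ∀ y ∈ Q, y ≠ 0 ∧ y ≠ -1 ∧ zr (U y) ≤ R ∧
      ∀ t : ℕ × ℕ, IsT t → rad3 t = zr (U y) → Cc y ≤ t.1 + t.2 →
        (rad3 t : ℝ) ^ M ≤ ((t.1 + t.2 : ℕ) : ℝ)) :
    (Q.card : ℝ) ≤ 12 * (C * (R : ℝ) ^ θ) := by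
  classical
  have hex : ∀ y : ℚ, ∃ (t : ℕ × ℕ) (w : Fin 3 × Bool × Bool), y ≠ 0 → y ≠ -1 →
      (IsT t ∧ rad3 t = zr (U y) ∧ Cc y ≤ t.1 + t.2 ∧ y = deq t w) := by
    intro y
    by_cases h0 : y ≠ 0 ∧ y ≠ -1
    · obtain ⟨t, w, h1⟩ := exists_code h0.1 h0.2
      exact ⟨t, w, fun _ _ => h1⟩
    · exact ⟨(0, 0), (0, true, true), fun a b => absurd ⟨a, b⟩ h0⟩
  choose T W hTW using hex
  have h1 : Q.card ≤ 12 * (Q.image T).card := by
    apply Finset.card_le_mul_card_image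
    intro t ht
    have hsub : (Q.filter fun y => T y = t) ⊆
        (Finset.univ : Finset (Fin 3 × Bool × Bool)).image (deq t) := by
      intro y hy
      rw [mem_filter] at hy
      rw [mem_image]
      refine ⟨W y, mem_univ _, ?_⟩
      obtain ⟨g1, g2, -⟩ := hQ y hy.1
      rw [← hy.2]
      exact (hTW y g1 g2).2.2.2.symm
    refine (card_le_card hsub).trans (Finset.card_image_le.trans ?_)
    simp
  have h2 := h (Q.image T) (by
    intro t ht
    rw [mem_image] at ht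
    obtain ⟨y, hy, rfl⟩ := ht
    obtain ⟨g1, g2, g3, g4⟩ := hQ y hy
    obtain ⟨a1, a2, a3, -⟩ := hTW y g1 g2
    exact ⟨a1, a2.trans_le g3, g4 _ a1 a2 a3⟩)
  calc (Q.card : ℝ) ≤ ((12 * (Q.image T).card : ℕ) : ℝ) := by exact_mod_cast h1
    _ = 12 * ((Q.image T).card : ℝ) := by push_cast; ring
    _ ≤ _ := mul_le_mul_of_nonneg_left h2 (by norm_num)

/-- **the number of the base points** -/
theorem base (ε : ℝ) (hε : 0 < ε) (hε1 : ε ≤ 1 / 100) : ∃ C : ℝ, 0 < C ∧ ∀ R : ℕ, 1 ≤ R →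
    ∀ H : ℝ, 1 ≤ H → ∀ Q : Finset ℚ,
    (∀ y ∈ Q, y ≠ 0 ∧ y ≠ -1 ∧ zr (U y) ≤ R ∧ H ≤ Cc y) →
    (Q.card : ℝ) ≤ C * (R : ℝ) ^ ε * ((R : ℝ) ^ ((3 : ℝ) / 5) + R / H) := by
  classical
  obtain ⟨δ, hδ⟩ : ∃ δ, δ = ε / 2 := ⟨_, rfl⟩
  have hδ0 : 0 < δ := by rw [hδ]; positivity
  obtain ⟨n, hn⟩ : ∃ n : ℕ, n = ⌈1 / δ⌉₊ := ⟨_, rfl⟩
  have hnδ : 1 ≤ (n : ℝ) * δ := by
    rw [← div_le_iff₀ hδ0, hn]
    exact Nat.le_ceil _
  have hn1 : 1 ≤ n := by
    by_contra h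
    have : n = 0 := by omega
    rw [this] at hnδ
    norm_num at hnδ
  obtain ⟨C₀, hC₀, h₀⟩ := count_all (1 / 3) δ (by norm_num) hδ0
  have hall := fun j : ℕ => count_all (((j : ℝ) + 1) * δ) δ (by positivity) hδ0
  choose Cj hCj hj using hall
  refine ⟨12 * (C₀ + ∑ j ∈ range (n + 1), Cj j), ?_, ?_⟩
  · have : 0 ≤ ∑ j ∈ range (n + 1), Cj j := Finset.sum_nonneg fun j _ => (hCj j).le
    positivity
  intro R hR H hH Q hQ
  have hR1 : (1 : ℝ) ≤ R := by exact_mod_cast hR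
  have hR0 : (0 : ℝ) < R := by linarith
  have hH0 : 0 < H := by linarith
  have hsum0 : 0 ≤ ∑ j ∈ range (n + 1), Cj j := Finset.sum_nonneg fun j _ => (hCj j).le
  obtain ⟨j₀, hj₀⟩ : ∃ j₀, j₀ = Nat.findGreatest (fun j : ℕ => (R : ℝ) ^ ((j : ℝ) * δ) ≤ H) n :=
    ⟨_, rfl⟩
  have hspec : (R : ℝ) ^ ((j₀ : ℝ) * δ) ≤ H := by
    rw [hj₀]
    apply Nat.findGreatest_spec (m := 0) (Nat.zero_le n) (P := fun j : ℕ => (R : ℝ) ^ ((j : ℝ) * δ) ≤ H)
    simpa using hH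
  have hle : j₀ ≤ n := by rw [hj₀]; exact Nat.findGreatest_le n
  have hnext : j₀ < n → H < (R : ℝ) ^ (((j₀ : ℝ) + 1) * δ) := by
    intro h1
    by_contra hcon
    rw [not_lt] at hcon
    have h2 := Nat.le_findGreatest (P := fun j : ℕ => (R : ℝ) ^ ((j : ℝ) * δ) ≤ H) (m := j₀ + 1)
      (n := n) (by omega) (by push_cast; exact hcon)
    omega
  have hpos1 : 0 ≤ (R : ℝ) ^ ((3 : ℝ) / 5) := by positivity
  have hpos2 : 0 ≤ (R : ℝ) / H := by positivity
  rcases Nat.eq_zero_or_pos j₀ with hz | hz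
  · -- small heights
    have h1 := card_rat R (1 / 3) δ C₀ _ (h₀ R hR) Q (by
      intro y hy
      obtain ⟨g1, g2, g3, g4⟩ := hQ y hy
      exact ⟨g1, g2, g3, fun t ht _ _ => rad_cube ht⟩)
    have hm : max (1 - (1 : ℝ) / 3) (4 / 7) = 2 / 3 := by norm_num
    rw [hm] at h1
    have h2 := hnext (by omega)
    rw [hz] at h2
    simp only [Nat.cast_zero, zero_add, one_mul] at h2
    have h3 : (R : ℝ) ^ (2 / 3 + δ) ≤ (R : ℝ) ^ ε * (R / H) := by
      have h4 : (R : ℝ) ^ (1 - δ) ≤ R / H := by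
        rw [le_div_iff₀ hH0]
        calc (R : ℝ) ^ (1 - δ) * H ≤ (R : ℝ) ^ (1 - δ) * (R : ℝ) ^ δ :=
              mul_le_mul_of_nonneg_left h2.le (by positivity)
          _ = R := by rw [← Real.rpow_add hR0]; simp
      calc (R : ℝ) ^ (2 / 3 + δ) ≤ (R : ℝ) ^ (ε + (1 - δ)) := by
            apply Real.rpow_le_rpow_of_exponent_le hR1
            rw [hδ]; linarith
        _ = (R : ℝ) ^ ε * (R : ℝ) ^ (1 - δ) := Real.rpow_add hR0 _ _
        _ ≤ _ := mul_le_mul_of_nonneg_left h4 (by positivity)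
    calc (Q.card : ℝ) ≤ 12 * (C₀ * (R : ℝ) ^ (2 / 3 + δ)) := h1
      _ ≤ 12 * (C₀ * ((R : ℝ) ^ ε * (R / H))) := by
          apply mul_le_mul_of_nonneg_left _ (by norm_num)
          exact mul_le_mul_of_nonneg_left h3 hC₀.le
      _ ≤ 12 * ((C₀ + ∑ j ∈ range (n + 1), Cj j) * ((R : ℝ) ^ ε * ((R : ℝ) ^ ((3 : ℝ) / 5) + R / H))) := by
          apply mul_le_mul_of_nonneg_left _ (by norm_num)
          apply mul_le_mul (by linarith) _ (by positivity) (by linarith)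
          apply mul_le_mul_of_nonneg_left _ (by positivity)
          linarith
      _ = _ := by ring
  · obtain ⟨i, hi⟩ : ∃ i, j₀ = i + 1 := ⟨j₀ - 1, by omega⟩
    rw [hi] at hspec hle hnext
    push_cast at hspec
    have hCi : Cj i ≤ C₀ + ∑ j ∈ range (n + 1), Cj j := by
      have := Finset.single_le_sum (f := Cj) (fun j _ => (hCj j).le) (mem_range.2 (by omega : i < n + 1))
      linarith
    have h1 := card_rat R (((i : ℝ) + 1) * δ) δ (Cj i) _ (hj i R hR) Q (by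
      intro y hy
      obtain ⟨g1, g2, g3, g4⟩ := hQ y hy
      refine ⟨g1, g2, g3, fun t _ ht1 ht2 => ?_⟩
      calc (rad3 t : ℝ) ^ (((i : ℝ) + 1) * δ) ≤ (R : ℝ) ^ (((i : ℝ) + 1) * δ) := by
            apply Real.rpow_le_rpow (Nat.cast_nonneg _) _ (by positivity)
            rw [ht1]
            exact_mod_cast g3
        _ ≤ H := hspec
        _ ≤ Cc y := g4
        _ ≤ ((t.1 + t.2 : ℕ) : ℝ) := by exact_mod_cast ht2)
    have h3 : (R : ℝ) ^ (max (1 - ((i : ℝ) + 1) * δ) (4 / 7) + δ) ≤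
        (R : ℝ) ^ ε * ((R : ℝ) ^ ((3 : ℝ) / 5) + R / H) := by
      rcases le_total (1 - ((i : ℝ) + 1) * δ) (4 / 7) with h4 | h4
      · rw [max_eq_right h4]
        calc (R : ℝ) ^ (4 / 7 + δ) ≤ (R : ℝ) ^ (ε + 3 / 5) := by
              apply Real.rpow_le_rpow_of_exponent_le hR1
              rw [hδ]; linarith
          _ = (R : ℝ) ^ ε * (R : ℝ) ^ ((3 : ℝ) / 5) := Real.rpow_add hR0 _ _
          _ ≤ _ := by
              apply mul_le_mul_of_nonneg_left _ (by positivity)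
              linarith
      · rw [max_eq_left h4]
        have h5 : i + 1 < n := by
          by_contra hcon
          have h6 : (n : ℝ) ≤ (i : ℝ) + 1 := by
            have : n ≤ i + 1 := by omega
            exact_mod_cast this
          have h7 : (n : ℝ) * δ ≤ ((i : ℝ) + 1) * δ := mul_le_mul_of_nonneg_right h6 hδ0.le
          linarith
        have h6 := hnext h5
        push_cast at h6
        have h7 : (R : ℝ) ^ (1 - ((i : ℝ) + 1 + 1) * δ) ≤ R / H := by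
          rw [le_div_iff₀ hH0]
          calc (R : ℝ) ^ (1 - ((i : ℝ) + 1 + 1) * δ) * H ≤
                (R : ℝ) ^ (1 - ((i : ℝ) + 1 + 1) * δ) * (R : ℝ) ^ (((i : ℝ) + 1 + 1) * δ) :=
                mul_le_mul_of_nonneg_left h6.le (by positivity)
            _ = R := by rw [← Real.rpow_add hR0]; simp
        calc (R : ℝ) ^ (1 - ((i : ℝ) + 1) * δ + δ) =
              (R : ℝ) ^ ε * (R : ℝ) ^ (1 - ((i : ℝ) + 1 + 1) * δ) := by
              rw [← Real.rpow_add hR0]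
              congr 1
              rw [hδ]; ring
          _ ≤ (R : ℝ) ^ ε * (R / H) := mul_le_mul_of_nonneg_left h7 (by positivity)
          _ ≤ _ := by
              apply mul_le_mul_of_nonneg_left _ (by positivity)
              linarith
    calc (Q.card : ℝ) ≤ 12 * (Cj i * (R : ℝ) ^ (max (1 - ((i : ℝ) + 1) * δ) (4 / 7) + δ)) := h1
      _ ≤ 12 * (Cj i * ((R : ℝ) ^ ε * ((R : ℝ) ^ ((3 : ℝ) / 5) + R / H))) := by
          apply mul_le_mul_of_nonneg_left _ (by norm_num)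
          exact mul_le_mul_of_nonneg_left h3 (hCj i).le
      _ ≤ 12 * ((C₀ + ∑ j ∈ range (n + 1), Cj j) * ((R : ℝ) ^ ε * ((R : ℝ) ^ ((3 : ℝ) / 5) + R / H))) := by
          apply mul_le_mul_of_nonneg_left _ (by norm_num)
          exact mul_le_mul_of_nonneg_right hCi (by positivity)
      _ = _ := by ring

end Pool.Agent.H583.GD
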