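import Pool.Agent.H583.GD.B

/-!
The pentagon: five triples attached to five points of the line.
-/

set_option autoImplicit false

namespace Pool.Agent.H583.GD

open Finset Pool.Agent.T2H20.ABC Pool.Agent.T2H20.AH Pool.Agent.H785R2.ABC Pool.Agent.H583.SF
  Pool.Agent.H583.WT Pool.Agent.H583.AL

/-- the admissible pairs -/
structure Dom (P : ℚ × ℚ) : Prop where
  a : P.1 ≠ 0
  b : P.2 ≠ 0
  c : 1 + P.1 ≠ 0
  d : 1 + P.2 ≠ 0
  e : 1 + P.1 + P.2 ≠ 0

/-- the rotation -/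
def ph (P : ℚ × ℚ) : ℚ × ℚ := (P.2, (1 + P.2) / P.1)

/-- the five rational numbers -/
def ys (P : ℚ × ℚ) : Fin 5 → ℚ :=
  ![P.1, P.2, (1 + P.2) / P.1, (1 + P.1 + P.2) / (P.1 * P.2), (1 + P.1) / P.2]

lemma ph_dom {P : ℚ × ℚ} (h : Dom P) : Dom (ph P) := by
  obtain ⟨h1, h2, h3, h4, h5⟩ := h
  refine ⟨h2, div_ne_zero h4 h1, h4, ?_, ?_⟩
  · show 1 + (1 + P.2) / P.1 ≠ 0
    have : 1 + (1 + P.2) / P.1 = (1 + P.1 + P.2) / P.1 := by field_simp; ring
    rw [this]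
    exact div_ne_zero h5 h1
  · show 1 + P.2 + (1 + P.2) / P.1 ≠ 0
    have : 1 + P.2 + (1 + P.2) / P.1 = (1 + P.1) * (1 + P.2) / P.1 := by field_simp; ring
    rw [this]
    exact div_ne_zero (mul_ne_zero h3 h4) h1

lemma ys_ph {P : ℚ × ℚ} (h : Dom P) (i : Fin 5) : ys (ph P) i = ys P (i + 1) := by
  obtain ⟨h1, h2, h3, h4, h5⟩ := h
  fin_cases i
  · rfl
  · rfl
  · show (1 + (1 + P.2) / P.1) / P.2 = (1 + P.1 + P.2) / (P.1 * P.2)
    field_simp
    ring
  · show (1 + P.2 + (1 + P.2) / P.1) / (P.2 * ((1 + P.2) / P.1)) = (1 + P.1) / P.2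
    field_simp
    ring
  · show (1 + P.2) / ((1 + P.2) / P.1) = P.1
    field_simp

lemma ph_inj {P Q : ℚ × ℚ} (hP : Dom P) (hQ : Dom Q) (h : ph P = ph Q) : P = Q := by
  unfold ph at h
  simp only [Prod.mk.injEq] at h
  obtain ⟨h1, h2⟩ := h
  have h3 : P.1 = Q.1 := by
    rw [h1] at h2
    have e1 := hP.a
    have e2 := hQ.a
    have e3 := hQ.d
    rw [div_eq_div_iff e1 e2] at h2
    exact (mul_left_cancel₀ e3 h2).symm
  exact Prod.ext h3 h1

/-- the bad primes -/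
def Bad (P : ℚ × ℚ) : Finset ℕ := Finset.univ.biUnion fun i : Fin 5 => (U (ys P i)).natAbs.primeFactors

/-- the product of the bad primes -/
def Zz (P : ℚ × ℚ) : ℕ := ∏ p ∈ Bad P, p

lemma Bad_ph {P : ℚ × ℚ} (h : Dom P) : Bad (ph P) = Bad P := by
  unfold Bad
  ext p
  simp only [mem_biUnion, mem_univ, true_and]
  constructor
  · rintro ⟨i, hi⟩
    rw [ys_ph h] at hi
    exact ⟨i + 1, hi⟩
  · rintro ⟨i, hi⟩
    refine ⟨i - 1, ?_⟩
    rw [ys_ph h, sub_add_cancel]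
    exact hi

lemma Bad_prime {P : ℚ × ℚ} {p : ℕ} (h : p ∈ Bad P) : p.Prime := by
  unfold Bad at h
  rw [mem_biUnion] at h
  obtain ⟨i, -, hi⟩ := h
  exact Nat.prime_of_mem_primeFactors hi

lemma ys_ne {P : ℚ × ℚ} (h : Dom P) (i : Fin 5) : ys P i ≠ 0 ∧ ys P i ≠ -1 := by
  obtain ⟨h1, h2, h3, h4, h5⟩ := h
  have key : ∀ y : ℚ, y ≠ 0 → 1 + y ≠ 0 → y ≠ 0 ∧ y ≠ -1 := by
    intro y a b
    refine ⟨a, fun c => b ?_⟩
    rw [c]
    norm_num
  fin_cases i
  · exact key _ h1 h3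
  · exact key _ h2 h4
  · apply key
    · exact div_ne_zero h4 h1
    · show 1 + (1 + P.2) / P.1 ≠ 0
      have : 1 + (1 + P.2) / P.1 = (1 + P.1 + P.2) / P.1 := by field_simp; ring
      rw [this]
      exact div_ne_zero h5 h1
  · apply key
    · exact div_ne_zero h5 (mul_ne_zero h1 h2)
    · show 1 + (1 + P.1 + P.2) / (P.1 * P.2) ≠ 0
      have : 1 + (1 + P.1 + P.2) / (P.1 * P.2) = (1 + P.1) * (1 + P.2) / (P.1 * P.2) := by
        field_simp; ring
      rw [this]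
      exact div_ne_zero (mul_ne_zero h3 h4) (mul_ne_zero h1 h2)
  · apply key
    · exact div_ne_zero h3 h2
    · show 1 + (1 + P.1) / P.2 ≠ 0
      have : 1 + (1 + P.1) / P.2 = (1 + P.1 + P.2) / P.2 := by field_simp; ring
      rw [this]
      exact div_ne_zero h5 h2

/-- the relation of the pentagon -/
lemma pent {P : ℚ × ℚ} (h : Dom P) (i : Fin 5) : ys P (i - 1) * ys P (i + 1) = 1 + ys P i := by
  obtain ⟨h1, h2, h3, h4, h5⟩ := h
  fin_cases i
  · show (1 + P.1) / P.2 * P.2 = 1 + P.1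
    field_simp
  · show P.1 * ((1 + P.2) / P.1) = 1 + P.2
    field_simp
  · show P.2 * ((1 + P.1 + P.2) / (P.1 * P.2)) = 1 + (1 + P.2) / P.1
    field_simp
    ring
  · show (1 + P.2) / P.1 * ((1 + P.1) / P.2) = 1 + (1 + P.1 + P.2) / (P.1 * P.2)
    field_simp
    ring
  · show (1 + P.1 + P.2) / (P.1 * P.2) * P.1 = 1 + (1 + P.1) / P.2
    field_simp
    ring

/-! ### valuations -/

/-- the three valuations -/
def vn (p : ℕ) (y : ℚ) : ℕ := padicValInt p y.num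
/-- the three valuations -/
def vd (p : ℕ) (y : ℚ) : ℕ := padicValNat p y.den
/-- the three valuations -/
def vs (p : ℕ) (y : ℚ) : ℕ := padicValInt p (y.num + y.den)

lemma val_y (p : ℕ) (y : ℚ) : padicValRat p y = vn p y - vd p y := rfl

lemma val_1y {p : ℕ} (hp : p.Prime) {y : ℚ} (h : y ≠ -1) :
    padicValRat p (1 + y) = vs p y - vd p y := by
  have := Fact.mk hp
  have h1 : 1 + y = ((y.num + y.den : ℤ) : ℚ) / ((y.den : ℤ) : ℚ) := by
    have : (y.den : ℚ) ≠ 0 := by exact_mod_cast y.den_pos.ne'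
    push_cast
    rw [add_div, div_self this, Rat.num_div_den]
    ring
  rw [h1, padicValRat.div (by exact_mod_cast num_add_ne h) (by exact_mod_cast den_ne y),
    padicValRat.of_int, padicValRat.of_int]
  unfold vs vd
  rw [padicValInt.of_nat]

lemma val_U {p : ℕ} (hp : p.Prime) {y : ℚ} (h0 : y ≠ 0) (h : y ≠ -1) :
    padicValNat p (U y).natAbs = vn p y + vd p y + vs p y := by
  have := Fact.mk hp
  unfold U vn vd vs
  rw [Int.natAbs_mul, Int.natAbs_mul, padicValNat.mul, padicValNat.mul]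
  · rfl
  · exact Int.natAbs_ne_zero.2 (Rat.num_ne_zero.2 h0)
  · exact Int.natAbs_ne_zero.2 (den_ne y)
  · exact mul_ne_zero (Int.natAbs_ne_zero.2 (Rat.num_ne_zero.2 h0)) (Int.natAbs_ne_zero.2 (den_ne y))
  · exact Int.natAbs_ne_zero.2 (num_add_ne h)

lemma one_val {p : ℕ} (hp : p.Prime) {y : ℚ} :
    (vn p y = 0 ∧ vd p y = 0) ∨ (vn p y = 0 ∧ vs p y = 0) ∨ (vd p y = 0 ∧ vs p y = 0) := by
  have := Fact.mk hp
  have hpi : Prime (p : ℤ) := Nat.prime_iff_prime_int.1 hp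
  have z1 : ∀ z : ℤ, ¬ (p : ℤ) ∣ z → padicValInt p z = 0 := fun z hz =>
    padicValInt.eq_zero_of_not_dvd hz
  have z2 : ∀ z : ℕ, ¬ p ∣ z → padicValNat p z = 0 := fun z hz => padicValNat.eq_zero_of_not_dvd hz
  have hc := Rat.isCoprime_num_den y
  by_cases a : (p : ℤ) ∣ y.num
  · have b : ¬ (p : ℤ) ∣ y.den := fun b => hpi.not_isUnit (hc.isUnit_of_dvd' a b)
    refine Or.inr (Or.inr ⟨z2 _ (fun c => b (by exact_mod_cast c)), z1 _ fun c => b ?_⟩)
    exact (dvd_add_right a).1 c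
  · by_cases b : (p : ℤ) ∣ y.den
    · exact Or.inr (Or.inl ⟨z1 _ a, z1 _ fun c => a ((dvd_add_left b).1 c)⟩)
    · exact Or.inl ⟨z1 _ a, z2 _ fun c => b (by exact_mod_cast c)⟩

/-- the local inequality -/
lemma local_ineq (n d s : Fin 5 → ℕ)
    (h1 : ∀ i, (n i = 0 ∧ d i = 0) ∨ (n i = 0 ∧ s i = 0) ∨ (d i = 0 ∧ s i = 0))
    (h2 : ∀ i, ((n (i - 1) : ℤ) - d (i - 1)) + ((n (i + 1) : ℤ) - d (i + 1)) = s i - d i)
    (b : Fin 5 → ℕ) (hb : ∀ i, b i ≤ 1) (hb' : ∀ i, b i ≤ n i + d i + s i) :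
    3 * ∑ i, b i ≤ 3 + 2 * ∑ i, (n i + d i + s i) := by
  simp only [Fin.sum_univ_five]
  have e0 := h2 0
  have e1 := h2 1
  have e2 := h2 2
  have e3 := h2 3
  have e4 := h2 4
  have r0 : (0 : Fin 5) - 1 = 4 := rfl
  have r1 : (1 : Fin 5) - 1 = 0 := rfl
  have r2 : (2 : Fin 5) - 1 = 1 := rfl
  have r3 : (3 : Fin 5) - 1 = 2 := rfl
  have r4 : (4 : Fin 5) - 1 = 3 := rfl
  have t0 : (0 : Fin 5) + 1 = 1 := rfl
  have t1 : (1 : Fin 5) + 1 = 2 := rfl
  have t2 : (2 : Fin 5) + 1 = 3 := rfl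
  have t3 : (3 : Fin 5) + 1 = 4 := rfl
  have t4 : (4 : Fin 5) + 1 = 0 := rfl
  rw [r0, t0] at e0
  rw [r1, t1] at e1
  rw [r2, t2] at e2
  rw [r3, t3] at e3
  rw [r4, t4] at e4
  have b0 := hb 0
  have b1 := hb 1
  have b2 := hb 2
  have b3 := hb 3
  have b4 := hb 4
  have c0 := hb' 0
  have c1 := hb' 1
  have c2 := hb' 2
  have c3 := hb' 3
  have c4 := hb' 4
  have k0 := h1 0
  have k1 := h1 1
  have k2 := h1 2
  have k3 := h1 3
  have k4 := h1 4
  clear h1 h2 hb hb' r0 r1 r2 r3 r4 t0 t1 t2 t3 t4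
  generalize n 0 = n0 at *
  generalize n 1 = n1 at *
  generalize n 2 = n2 at *
  generalize n 3 = n3 at *
  generalize n 4 = n4 at *
  generalize d 0 = d0 at *
  generalize d 1 = d1 at *
  generalize d 2 = d2 at *
  generalize d 3 = d3 at *
  generalize d 4 = d4 at *
  generalize s 0 = s0 at *
  generalize s 1 = s1 at *
  generalize s 2 = s2 at *
  generalize s 3 = s3 at *
  generalize s 4 = s4 at *
  generalize b 0 = b0' at *
  generalize b 1 = b1' at *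
  generalize b 2 = b2' at *
  generalize b 3 = b3' at *
  generalize b 4 = b4' at *
  rcases k0 with ⟨u0, w0⟩ | ⟨u0, w0⟩ | ⟨u0, w0⟩ <;> subst u0 <;> subst w0 <;>
  rcases k1 with ⟨u1, w1⟩ | ⟨u1, w1⟩ | ⟨u1, w1⟩ <;> subst u1 <;> subst w1 <;>
  rcases k2 with ⟨u2, w2⟩ | ⟨u2, w2⟩ | ⟨u2, w2⟩ <;> subst u2 <;> subst w2 <;>
  rcases k3 with ⟨u3, w3⟩ | ⟨u3, w3⟩ | ⟨u3, w3⟩ <;> subst u3 <;> subst w3 <;>
  rcases k4 with ⟨u4, w4⟩ | ⟨u4, w4⟩ | ⟨u4, w4⟩ <;> subst u4 <;> subst w4 <;> omega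

lemma prime_bound {P : ℚ × ℚ} (h : Dom P) {p : ℕ} (hp : p.Prime) :
    3 * ∑ i, (if p ∈ (U (ys P i)).natAbs.primeFactors then 1 else 0) ≤
      3 + 2 * ∑ i, padicValNat p (U (ys P i)).natAbs := by
  have hU : ∀ i, padicValNat p (U (ys P i)).natAbs =
      vn p (ys P i) + vd p (ys P i) + vs p (ys P i) := fun i =>
    val_U hp (ys_ne h i).1 (ys_ne h i).2
  simp only [hU]
  apply local_ineq (fun i => vn p (ys P i)) (fun i => vd p (ys P i)) (fun i => vs p (ys P i))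
    (fun i => one_val hp)
  · intro i
    have := Fact.mk hp
    have h1 := congrArg (padicValRat p) (pent h i)
    rw [padicValRat.mul (ys_ne h _).1 (ys_ne h _).1, val_1y hp (ys_ne h i).2, val_y, val_y] at h1
    exact h1
  · intro i
    split_ifs <;> omega
  · intro i
    split_ifs with h1
    · have := Fact.mk hp
      rw [← hU i]
      exact one_le_padicValNat_of_dvd (Int.natAbs_ne_zero.2 (U_ne (ys_ne h i).1 (ys_ne h i).2))
        (Nat.dvd_of_mem_primeFactors h1)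
    · omega

/-- the product inequality -/
lemma prod_bound {P : ℚ × ℚ} (h : Dom P) :
    ∏ i, zr (U (ys P i)) ^ 3 ≤ Zz P ^ 3 * ∏ i, (U (ys P i)).natAbs ^ 2 := by
  classical
  have hU0 : ∀ i, (U (ys P i)).natAbs ≠ 0 := fun i =>
    Int.natAbs_ne_zero.2 (U_ne (ys_ne h i).1 (ys_ne h i).2)
  have hsub : ∀ i, (U (ys P i)).natAbs.primeFactors ⊆ Bad P := fun i =>
    Finset.subset_biUnion_of_mem (fun i : Fin 5 => (U (ys P i)).natAbs.primeFactors) (mem_univ i)
  have e1 : ∀ i, zr (U (ys P i)) = ∏ p ∈ Bad P,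
      p ^ (if p ∈ (U (ys P i)).natAbs.primeFactors then 1 else 0) := by
    intro i
    unfold zr rad
    rw [← Finset.prod_subset (hsub i)]
    · refine Finset.prod_congr rfl fun p hp => ?_
      rw [if_pos hp, pow_one]
    · intro p _ hp
      rw [if_neg hp, pow_zero]
  have e2 : ∀ i, (U (ys P i)).natAbs = ∏ p ∈ Bad P, p ^ (padicValNat p (U (ys P i)).natAbs) := by
    intro i
    have h0 : (U (ys P i)).natAbs = ∏ p ∈ (U (ys P i)).natAbs.primeFactors,
        p ^ (padicValNat p (U (ys P i)).natAbs) := by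
      have h1 := Nat.prod_factorization_pow_eq_self (hU0 i)
      unfold Finsupp.prod at h1
      rw [Nat.support_factorization] at h1
      conv_lhs => rw [← h1]
      refine Finset.prod_congr rfl fun p hp => ?_
      rw [Nat.factorization_def _ (Nat.prime_of_mem_primeFactors hp)]
    refine h0.trans ?_
    rw [← Finset.prod_subset (hsub i)]
    intro p hp hp'
    have := Fact.mk (Bad_prime hp)
    rw [padicValNat.eq_zero_of_not_dvd, pow_zero]
    intro hd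
    exact hp' (Nat.mem_primeFactors.2 ⟨Bad_prime hp, hd, hU0 i⟩)
  have e3 : ∏ i, zr (U (ys P i)) ^ 3 = ∏ p ∈ Bad P,
      p ^ (3 * ∑ i, (if p ∈ (U (ys P i)).natAbs.primeFactors then 1 else 0)) := by
    rw [Finset.prod_congr rfl fun i _ => by rw [e1 i, ← Finset.prod_pow], Finset.prod_comm]
    refine Finset.prod_congr rfl fun p _ => ?_
    rw [Finset.prod_congr rfl fun i _ => (pow_mul _ _ _).symm, Finset.prod_pow_eq_pow_sum]
    congr 1
    rw [Finset.mul_sum]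
    refine Finset.sum_congr rfl fun i _ => ?_
    ring
  have e4 : Zz P ^ 3 * ∏ i, (U (ys P i)).natAbs ^ 2 = ∏ p ∈ Bad P,
      p ^ (3 + 2 * ∑ i, padicValNat p (U (ys P i)).natAbs) := by
    have e5 : ∏ i, (U (ys P i)).natAbs ^ 2 = ∏ p ∈ Bad P,
        p ^ (2 * ∑ i, padicValNat p (U (ys P i)).natAbs) := by
      rw [Finset.prod_congr rfl fun i _ => by rw [e2 i, ← Finset.prod_pow], Finset.prod_comm]
      refine Finset.prod_congr rfl fun p _ => ?_
      rw [Finset.prod_congr rfl fun i _ => (pow_mul _ _ _).symm, Finset.prod_pow_eq_pow_sum]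
      congr 1
      rw [Finset.mul_sum]
      refine Finset.sum_congr rfl fun i _ => ?_
      ring
    rw [e5]
    unfold Zz
    rw [← Finset.prod_pow, ← Finset.prod_mul_distrib]
    refine Finset.prod_congr rfl fun p _ => ?_
    rw [← pow_add]
  rw [e3, e4]
  apply Finset.prod_le_prod' 
  intro p hp
  exact Nat.pow_le_pow_right (Bad_prime hp).pos (prime_bound h (Bad_prime hp))

/-- one of the five triples has a small radical -/
theorem exists_small {P : ℚ × ℚ} (h : Dom P) :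
    ∃ i, zr (U (ys P i)) ^ 5 ≤ Zz P * Cc (ys P i) ^ 10 := by
  by_contra hcon
  push Not at hcon
  have h1 : ∏ i : Fin 5, (Zz P * Cc (ys P i) ^ 10) ^ 3 < ∏ i : Fin 5, (zr (U (ys P i)) ^ 5) ^ 3 := by
    apply Finset.prod_lt_prod_of_nonempty
    · intro i _
      have h2 : 0 < Zz P := Finset.prod_pos fun p hp => (Bad_prime hp).pos
      have h3 := Cc_pos (ys P i)
      positivity
    · intro i _
      exact Nat.pow_lt_pow_left (hcon i) (by norm_num)
    · exact univ_nonempty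
  have h2 : ∏ i : Fin 5, (zr (U (ys P i)) ^ 5) ^ 3 = (∏ i, zr (U (ys P i)) ^ 3) ^ 5 := by
    rw [← Finset.prod_pow]
    refine Finset.prod_congr rfl fun i _ => ?_
    ring
  have h3 : ∏ i : Fin 5, (Zz P * Cc (ys P i) ^ 10) ^ 3 =
      (Zz P ^ 3 * ∏ i, (Cc (ys P i) ^ 3) ^ 2) ^ 5 := by
    rw [mul_pow, ← Finset.prod_pow]
    have : (Zz P ^ 3) ^ 5 = ∏ _i : Fin 5, Zz P ^ 3 := by
      rw [Finset.prod_const, card_univ, Fintype.card_fin]
    rw [this, ← Finset.prod_mul_distrib]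
    refine Finset.prod_congr rfl fun i _ => ?_
    ring
  rw [h2, h3] at h1
  have h4 : (∏ i, zr (U (ys P i)) ^ 3) ^ 5 ≤ (Zz P ^ 3 * ∏ i, (Cc (ys P i) ^ 3) ^ 2) ^ 5 := by
    apply Nat.pow_le_pow_left
    refine (prod_bound h).trans (Nat.mul_le_mul_left _ ?_)
    apply Finset.prod_le_prod'
    intro i _
    exact Nat.pow_le_pow_left (U_le _) 2
  omega

end Pool.Agent.H583.GD
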