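import Pool.Agent.H583.GD.C

/-!
The number of the points of the line which are different from four given points, when few new primes
are bad.
-/

set_option autoImplicit false

namespace Pool.Agent.H583.GD

open Finset Pool.Agent.T2H20.ABC Pool.Agent.T2H20.AH Pool.Agent.H785R2.ABC Pool.Agent.H583.SF
  Pool.Agent.H583.WT Pool.Agent.H583.AL Pool.Agent.H583.AR

/-- the four forms -/
def Lf (c d : ℤ) : Fin 4 → ℤ × ℤ := ![(1, 0), (0, 1), (1, 1), (c, d)]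

/-- four points of the line, few new primes -/
theorem fib (M : ℕ) (hM : 1 ≤ M) (ε : ℝ) (hε : 0 < ε) : ∃ C : ℝ, 0 < C ∧ ∀ X W : ℕ, 2 ≤ X → 1 ≤ W →
    W ≤ X → ∀ c d : ℤ, c ≠ 0 → d ≠ 0 → c - d ≠ 0 → c.natAbs ≤ X ^ M → d.natAbs ≤ X ^ M →
    ∀ K : Finset ℕ, (∀ p ∈ K, p.Prime) → ∏ p ∈ K, p ≤ X →
    c.natAbs.primeFactors ⊆ K → d.natAbs.primeFactors ⊆ K → (c - d).natAbs.primeFactors ⊆ K →
    ∀ Q : Finset (ℤ × ℤ), (∀ p ∈ Q, IsCoprime p.1 p.2 ∧ p.1 ≠ 0 ∧ p.2 ≠ 0 ∧ p.1 + p.2 ≠ 0 ∧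
      c * p.1 + d * p.2 ≠ 0 ∧ p.1.natAbs ≤ X ^ M ∧ p.2.natAbs ≤ X ^ M ∧
      zn K (p.1 * p.2 * (p.1 + p.2) * (c * p.1 + d * p.2)) ≤ W) →
    (Q.card : ℝ) ≤ C * (X : ℝ) ^ ε * (W : ℝ) ^ ((1 : ℝ) / 2) := by
  classical
  obtain ⟨C, hC, h⟩ := modU 4 (by norm_num) (2 * M + 1) (by omega) (ε / 2) (by positivity)
  obtain ⟨D, hD, h2⟩ := two_pow_card 2 (ε / 2) (by positivity)
  refine ⟨C * D, by positivity, ?_⟩
  intro X W hX hW hWX c d hc hd hcd hcX hdX K hK hKX k1 k2 k3 Q hQ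
  have hX1 : (1 : ℝ) ≤ X := by exact_mod_cast (by omega : 1 ≤ X)
  have hX0 : (0 : ℝ) < X := by linarith
  have hXM : 1 ≤ X ^ M := Nat.one_le_pow _ _ (by omega)
  have k2' : (-d).natAbs.primeFactors ⊆ K := by rw [Int.natAbs_neg]; exact k2
  have k1' : (-c).natAbs.primeFactors ⊆ K := by rw [Int.natAbs_neg]; exact k1
  have k3' : (d - c).natAbs.primeFactors ⊆ K := by
    rw [show d - c = -(c - d) by ring, Int.natAbs_neg]; exact k3
  have hdc : d - c ≠ 0 := fun h => hcd (by omega)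
  have hdet : ∀ i j : Fin 4, i ≠ j → det (Lf c d) i j ≠ 0 ∧
      (det (Lf c d) i j).natAbs.primeFactors ⊆ K := by
    have e1 : (1 : ℤ).natAbs.primeFactors ⊆ K := by simp
    have e1' : (-1 : ℤ).natAbs.primeFactors ⊆ K := by simp
    intro i j hij
    fin_cases i <;> fin_cases j <;> first | exact absurd rfl hij | skip
    · show (1 : ℤ) * 1 - 0 * 0 ≠ 0 ∧ ((1 : ℤ) * 1 - 0 * 0).natAbs.primeFactors ⊆ K
      rw [show (1 : ℤ) * 1 - 0 * 0 = 1 by ring]; exact ⟨by norm_num, e1⟩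
    · show (1 : ℤ) * 1 - 1 * 0 ≠ 0 ∧ ((1 : ℤ) * 1 - 1 * 0).natAbs.primeFactors ⊆ K
      rw [show (1 : ℤ) * 1 - 1 * 0 = 1 by ring]; exact ⟨by norm_num, e1⟩
    · show (1 : ℤ) * d - c * 0 ≠ 0 ∧ ((1 : ℤ) * d - c * 0).natAbs.primeFactors ⊆ K
      rw [show (1 : ℤ) * d - c * 0 = d by ring]; exact ⟨hd, k2⟩
    · show (0 : ℤ) * 0 - 1 * 1 ≠ 0 ∧ ((0 : ℤ) * 0 - 1 * 1).natAbs.primeFactors ⊆ K
      rw [show (0 : ℤ) * 0 - 1 * 1 = -1 by ring]; exact ⟨by norm_num, e1'⟩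
    · show (0 : ℤ) * 1 - 1 * 1 ≠ 0 ∧ ((0 : ℤ) * 1 - 1 * 1).natAbs.primeFactors ⊆ K
      rw [show (0 : ℤ) * 1 - 1 * 1 = -1 by ring]; exact ⟨by norm_num, e1'⟩
    · show (0 : ℤ) * d - c * 1 ≠ 0 ∧ ((0 : ℤ) * d - c * 1).natAbs.primeFactors ⊆ K
      rw [show (0 : ℤ) * d - c * 1 = -c by ring]; exact ⟨neg_ne_zero.2 hc, k1'⟩
    · show (1 : ℤ) * 0 - 1 * 1 ≠ 0 ∧ ((1 : ℤ) * 0 - 1 * 1).natAbs.primeFactors ⊆ K
      rw [show (1 : ℤ) * 0 - 1 * 1 = -1 by ring]; exact ⟨by norm_num, e1'⟩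
    · show (1 : ℤ) * 1 - 0 * 1 ≠ 0 ∧ ((1 : ℤ) * 1 - 0 * 1).natAbs.primeFactors ⊆ K
      rw [show (1 : ℤ) * 1 - 0 * 1 = 1 by ring]; exact ⟨by norm_num, e1⟩
    · show (1 : ℤ) * d - c * 1 ≠ 0 ∧ ((1 : ℤ) * d - c * 1).natAbs.primeFactors ⊆ K
      rw [show (1 : ℤ) * d - c * 1 = d - c by ring]; exact ⟨hdc, k3'⟩
    · show c * 0 - 1 * d ≠ 0 ∧ (c * 0 - 1 * d).natAbs.primeFactors ⊆ K
      rw [show c * 0 - 1 * d = -d by ring]; exact ⟨neg_ne_zero.2 hd, k2'⟩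
    · show c * 1 - 0 * d ≠ 0 ∧ (c * 1 - 0 * d).natAbs.primeFactors ⊆ K
      rw [show c * 1 - 0 * d = c by ring]; exact ⟨hc, k1⟩
    · show c * 1 - 1 * d ≠ 0 ∧ (c * 1 - 1 * d).natAbs.primeFactors ⊆ K
      rw [show c * 1 - 1 * d = c - d by ring]; exact ⟨hcd, k3⟩
  have hprod : ∀ p : ℤ × ℤ, ∏ i, val (Lf c d) i p = p.1 * p.2 * (p.1 + p.2) * (c * p.1 + d * p.2) := by
    intro p
    rw [Fin.prod_univ_four]
    show (1 * p.1 + 0 * p.2) * (0 * p.1 + 1 * p.2) * (1 * p.1 + 1 * p.2) * (c * p.1 + d * p.2) = _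
    ring
  have h3 := h X W (by omega) hW hWX (Lf c d) (fun i j hij => (hdet i j hij).1) K
    (fun i j hij => (hdet i j hij).2) Q (by
    intro p hp
    obtain ⟨g1, g2, g3, g4, g5, g6, g7, g8⟩ := hQ p hp
    refine ⟨g1, ?_, ?_, ?_⟩
    · rw [hprod]
      exact mul_ne_zero (mul_ne_zero (mul_ne_zero g2 g3) g4) g5
    · have hp2 : X ^ (2 * M + 1) = X * (X ^ M * X ^ M) := by ring
      have hp3 : 2 * (X ^ M * X ^ M) ≤ X ^ (2 * M + 1) := by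
        rw [hp2]; exact Nat.mul_le_mul_right _ hX
      have hp4 : X ^ M ≤ X ^ M * X ^ M := Nat.le_mul_of_pos_right _ (by omega)
      have hsum : (p.1 + p.2).natAbs ≤ X ^ M + X ^ M :=
        (Int.natAbs_add_le _ _).trans (Nat.add_le_add g6 g7)
      have hw : (c * p.1 + d * p.2).natAbs ≤ X ^ M * X ^ M + X ^ M * X ^ M := by
        refine (Int.natAbs_add_le _ _).trans ?_
        rw [Int.natAbs_mul, Int.natAbs_mul]
        exact Nat.add_le_add (Nat.mul_le_mul hcX g6) (Nat.mul_le_mul hdX g7)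
      intro i
      fin_cases i
      · show (1 * p.1 + 0 * p.2).natAbs ≤ _
        rw [show 1 * p.1 + 0 * p.2 = p.1 by ring]
        omega
      · show (0 * p.1 + 1 * p.2).natAbs ≤ _
        rw [show 0 * p.1 + 1 * p.2 = p.2 by ring]
        omega
      · show (1 * p.1 + 1 * p.2).natAbs ≤ _
        rw [show 1 * p.1 + 1 * p.2 = p.1 + p.2 by ring]
        omega
      · show (c * p.1 + d * p.2).natAbs ≤ _
        omega
    · rw [hprod]
      exact g8)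
  have h4 := h2 X K hK hKX
  have h5 : (2 : ℝ) / ((4 : ℕ) : ℝ) = 1 / 2 := by norm_num
  rw [h5] at h3
  calc (Q.card : ℝ) ≤ C * (2 ^ K.card) ^ 2 * (X : ℝ) ^ (ε / 2) * (W : ℝ) ^ ((1 : ℝ) / 2) := h3
    _ ≤ C * (D * (X : ℝ) ^ (ε / 2)) * (X : ℝ) ^ (ε / 2) * (W : ℝ) ^ ((1 : ℝ) / 2) := by
        apply mul_le_mul_of_nonneg_right _ (by positivity)
        apply mul_le_mul_of_nonneg_right _ (by positivity)
        exact mul_le_mul_of_nonneg_left h4 hC.le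
    _ = C * D * ((X : ℝ) ^ (ε / 2) * (X : ℝ) ^ (ε / 2)) * (W : ℝ) ^ ((1 : ℝ) / 2) := by ring
    _ = _ := by
        rw [← Real.rpow_add hX0]
        congr 3
        ring

lemma Zz_pos (P : ℚ × ℚ) : 0 < Zz P := Finset.prod_pos fun _ hp => (Bad_prime hp).pos

lemma K_sub {P : ℚ × ℚ} (i : Fin 5) : (U (ys P i)).natAbs.primeFactors ⊆ Bad P :=
  Finset.subset_biUnion_of_mem (fun i : Fin 5 => (U (ys P i)).natAbs.primeFactors) (mem_univ i)

lemma prod_le_of_subset {A B : Finset ℕ} (h : A ⊆ B) (hB : ∀ p ∈ B, p.Prime) :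
    ∏ p ∈ A, p ≤ ∏ p ∈ B, p :=
  Finset.prod_le_prod_of_subset_of_one_le' h fun p hp _ => (hB p hp).one_lt.le

/-- the new primes -/
lemma new_primes {P : ℚ × ℚ} (h : Dom P) :
    zn (U P.1).natAbs.primeFactors (P.2.num * P.2.den * (P.2.num + P.2.den) *
      ((P.1.den : ℤ) * P.2.num + (P.1.num + P.1.den) * P.2.den)) * zr (U P.1) ≤ Zz P := by
  classical
  obtain ⟨K, hK⟩ : ∃ K, K = (U P.1).natAbs.primeFactors := ⟨_, rfl⟩
  obtain ⟨w, hw⟩ : ∃ w, w = ((P.1.den : ℤ) * P.2.num + (P.1.num + P.1.den) * P.2.den) := ⟨_, rfl⟩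
  have hy1 := ys_ne h 0
  have hy2 := ys_ne h 1
  have hU1 : (U P.1).natAbs ≠ 0 := Int.natAbs_ne_zero.2 (U_ne hy1.1 hy1.2)
  have hU2 : (U P.2).natAbs ≠ 0 := Int.natAbs_ne_zero.2 (U_ne hy2.1 hy2.2)
  have hden1 : (P.1.den : ℚ) ≠ 0 := by exact_mod_cast P.1.den_pos.ne'
  have hden2 : (P.2.den : ℚ) ≠ 0 := by exact_mod_cast P.2.den_pos.ne'
  have hwq : 1 + P.1 + P.2 = (w : ℚ) / (((P.1.den : ℤ) * P.2.den : ℤ) : ℚ) := by
    rw [hw]
    push_cast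
    rw [eq_div_iff (mul_ne_zero hden1 hden2)]
    have e1 : (P.1.num : ℚ) = P.1 * P.1.den := (Rat.mul_den_eq_num P.1).symm
    have e2 : (P.2.num : ℚ) = P.2 * P.2.den := (Rat.mul_den_eq_num P.2).symm
    rw [e1, e2]
    ring
  rw [← hw, ← hK]
  have e1 : zr (U P.1) = ∏ p ∈ K, p := by rw [hK]; rfl
  have e2 : zn K (P.2.num * P.2.den * (P.2.num + P.2.den) * w) =
      ∏ p ∈ (P.2.num * P.2.den * (P.2.num + P.2.den) * w).natAbs.primeFactors \ K, p := rfl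
  rw [e1, e2, ← Finset.prod_union sdiff_disjoint]
  apply prod_le_of_subset _ fun p hp => Bad_prime hp
  apply Finset.union_subset _ (by rw [hK]; exact K_sub (P := P) 0)
  intro p hp
  rw [mem_sdiff] at hp
  obtain ⟨hp1, hp2⟩ := hp
  have hpp := Nat.prime_of_mem_primeFactors hp1
  have := Fact.mk hpp
  by_cases hp3 : p ∈ (U P.2).natAbs.primeFactors
  · exact K_sub (P := P) 1 hp3
  -- a prime dividing `w`
  have hnd : ∀ y : ℚ, y ≠ 0 → y ≠ -1 → p ∉ (U y).natAbs.primeFactors →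
      vn p y = 0 ∧ vd p y = 0 ∧ vs p y = 0 := by
    intro y h0 h1 h2
    have h3 := val_U hpp h0 h1
    rw [padicValNat.eq_zero_of_not_dvd (fun hd => h2 (Nat.mem_primeFactors.2
      ⟨hpp, hd, Int.natAbs_ne_zero.2 (U_ne h0 h1)⟩))] at h3
    omega
  obtain ⟨a1, a2, a3⟩ := hnd P.1 hy1.1 hy1.2 (by rw [← hK]; exact hp2)
  obtain ⟨b1, b2, b3⟩ := hnd P.2 hy2.1 hy2.2 hp3
  have hdvd : p ∣ (P.2.num * P.2.den * (P.2.num + P.2.den) * w).natAbs :=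
    Nat.dvd_of_mem_primeFactors hp1
  rw [Int.natAbs_mul, hpp.dvd_mul] at hdvd
  have hdw : p ∣ w.natAbs := by
    rcases hdvd with h1 | h1
    · exact absurd (Nat.mem_primeFactors.2 ⟨hpp, h1, hU2⟩) hp3
    · exact h1
  have hw0 : w ≠ 0 := by
    intro h0
    rw [h0] at hwq
    apply h.e
    rw [hwq]
    simp
  have hv : 1 ≤ padicValRat p (1 + P.1 + P.2) := by
    rw [hwq, padicValRat.div (by exact_mod_cast hw0)
      (by exact_mod_cast mul_ne_zero (den_ne P.1) (den_ne P.2)), padicValRat.of_int,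
      padicValRat.of_int]
    have h1 : padicValInt p ((P.1.den : ℤ) * P.2.den) = 0 := by
      rw [padicValInt.mul (den_ne _) (den_ne _), padicValInt.of_nat, padicValInt.of_nat]
      unfold vd at a2 b2
      omega
    rw [h1]
    have h2 : 1 ≤ padicValInt p w :=
      one_le_padicValNat_of_dvd (Int.natAbs_ne_zero.2 hw0) hdw
    push_cast
    omega
  have hv3 : 1 ≤ padicValRat p (ys P 3) := by
    show 1 ≤ padicValRat p ((1 + P.1 + P.2) / (P.1 * P.2))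
    rw [padicValRat.div h.e (mul_ne_zero h.a h.b), padicValRat.mul h.a h.b, val_y p P.1, val_y p P.2,
      a1, a2, b1, b2]
    simpa using hv
  apply K_sub (P := P) 3
  have hy3 := ys_ne h 3
  rw [Nat.mem_primeFactors]
  refine ⟨hpp, ?_, Int.natAbs_ne_zero.2 (U_ne hy3.1 hy3.2)⟩
  by_contra hcon
  have h3 := val_U hpp hy3.1 hy3.2
  rw [padicValNat.eq_zero_of_not_dvd hcon] at h3
  rw [val_y] at hv3
  omega

end Pool.Agent.H583.GD
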