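import Pool.Agent.H583.GD.D

/-!
Five points of the line: the number of the pairs with few bad primes, of moderate height.
-/

set_option autoImplicit false

namespace Pool.Agent.H583.GD

open Finset Pool.Agent.T2H20.ABC Pool.Agent.T2H20.AH Pool.Agent.H785R2.ABC Pool.Agent.H583.SF
  Pool.Agent.H583.WT Pool.Agent.H583.AL Pool.Agent.H583.AR

/-- from the fibres to the whole set -/
lemma card_fib {α β : Type} [DecidableEq α] [DecidableEq β] (Q : Finset (α × β)) (F : ℝ)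
    (h : ∀ a ∈ Q.image Prod.fst, (((Q.filter fun P => P.1 = a).image Prod.snd).card : ℝ) ≤ F) :
    (Q.card : ℝ) ≤ ((Q.image Prod.fst).card : ℝ) * F := by
  classical
  have h1 : Q.card = ∑ a ∈ Q.image Prod.fst, (Q.filter fun P => P.1 = a).card :=
    Finset.card_eq_sum_card_fiberwise (f := Prod.fst) (fun P hP => Finset.mem_image_of_mem _ hP)
  have h2 : ∀ a ∈ Q.image Prod.fst, ((Q.filter fun P => P.1 = a).card : ℝ) ≤ F := by
    intro a ha
    have h3 : (Q.filter fun P => P.1 = a).card = ((Q.filter fun P => P.1 = a).image Prod.snd).card := by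
      rw [Finset.card_image_of_injOn]
      intro P hP P' hP' h4
      rw [mem_coe, mem_filter] at hP hP'
      exact Prod.ext (hP.2.trans hP'.2.symm) h4
    rw [h3]
    exact h a ha
  calc (Q.card : ℝ) = ∑ a ∈ Q.image Prod.fst, ((Q.filter fun P => P.1 = a).card : ℝ) := by
        rw [h1]; push_cast; rfl
    _ ≤ ∑ _a ∈ Q.image Prod.fst, F := Finset.sum_le_sum h2
    _ = _ := by rw [Finset.sum_const, nsmul_eq_mul]

/-- the pairs whose first triple has a small radical -/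
theorem class1 (M : ℕ) (hM : 1 ≤ M) (ε : ℝ) (hε : 0 < ε) (hε1 : ε ≤ 1 / 100) : ∃ C : ℝ, 0 < C ∧
    ∀ X Y : ℕ, 2 ≤ X → 1 ≤ Y → Y ≤ X → ∀ Q : Finset (ℚ × ℚ),
    (∀ P ∈ Q, Dom P ∧ Zz P ≤ Y ∧ P.1.num.natAbs ≤ X ^ M ∧ P.1.den ≤ X ^ M ∧
      P.2.num.natAbs ≤ X ^ M ∧ P.2.den ≤ X ^ M ∧ zr (U P.1) ^ 5 ≤ Zz P * Cc P.1 ^ 10) →
    (Q.card : ℝ) ≤ C * (X : ℝ) ^ ε * (Y : ℝ) ^ ((3 : ℝ) / 5) := by
  classical
  obtain ⟨δ, hδ⟩ : ∃ δ, δ = ε / 4 := ⟨_, rfl⟩
  have hδ0 : 0 < δ := by rw [hδ]; positivity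
  obtain ⟨C₁, hC₁, hbase⟩ := base δ hδ0 (by rw [hδ]; linarith)
  obtain ⟨C₂, hC₂, hfib⟩ := fib (M + 1) (by omega) δ hδ0
  obtain ⟨C₃, hC₃, hlog⟩ := log_bound δ hδ0
  refine ⟨C₃ * (4 * C₁ * C₂), by positivity, ?_⟩
  intro X Y hX hY hYX Q hQ
  have hX1 : (1 : ℝ) ≤ X := by exact_mod_cast (by omega : 1 ≤ X)
  have hX0 : (0 : ℝ) < X := by linarith
  have hX2 : (2 : ℝ) ≤ X := by exact_mod_cast hX
  have hY1 : (1 : ℝ) ≤ Y := by exact_mod_cast hY
  have hY0 : (0 : ℝ) < Y := by linarith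
  have hYXr : (Y : ℝ) ≤ X := by exact_mod_cast hYX
  set N := Nat.log 2 X + 2 with hN
  have hR : ∀ P ∈ Q, 0 < zr (U P.1) ∧ zr (U P.1) ≤ Zz P ∧ zr (U P.1) ≤ Y := by
    intro P hP
    obtain ⟨g1, g2, -⟩ := hQ P hP
    have h1 : zr (U P.1) ≤ Zz P := by
      have := prod_le_of_subset (K_sub (P := P) 0) (fun p hp => Bad_prime hp)
      exact this
    exact ⟨zr_pos _, h1, h1.trans g2⟩
  have hcover : Q ⊆ (range N).biUnion fun r => Q.filter fun P => Nat.log 2 (zr (U P.1)) = r := by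
    intro P hP
    rw [mem_biUnion]
    refine ⟨Nat.log 2 (zr (U P.1)), ?_, mem_filter.2 ⟨hP, rfl⟩⟩
    rw [mem_range]
    have := Nat.log_mono_right (b := 2) ((hR P hP).2.2.trans hYX)
    omega
  have hbox : ∀ r ∈ range N, ((Q.filter fun P => Nat.log 2 (zr (U P.1)) = r).card : ℝ) ≤
      4 * C₁ * C₂ * (X : ℝ) ^ (3 * δ) * (Y : ℝ) ^ ((3 : ℝ) / 5) := by
    intro r _
    obtain ⟨Qr, hQr⟩ : ∃ Qr, Qr = Q.filter fun P => Nat.log 2 (zr (U P.1)) = r := ⟨_, rfl⟩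
    rw [← hQr]
    have hmem : ∀ P ∈ Qr, P ∈ Q ∧ 2 ^ r ≤ zr (U P.1) ∧ zr (U P.1) ≤ 2 ^ (r + 1) := by
      intro P hP
      rw [hQr, mem_filter] at hP
      have h1 := (hR P hP.1).1
      refine ⟨hP.1, ?_, ?_⟩
      · rw [← hP.2]
        exact Nat.pow_log_le_self 2 h1.ne'
      · rw [← hP.2]
        exact (Nat.lt_pow_succ_log_self (by norm_num) _).le
    rcases Qr.eq_empty_or_nonempty with h0 | ⟨P0, hP0⟩
    · rw [h0, card_empty, Nat.cast_zero]
      positivity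
    have hrY : 2 ^ r ≤ Y := by
      obtain ⟨g1, g2, -⟩ := hmem P0 hP0
      exact g2.trans (hR P0 g1).2.2
    obtain ⟨T, hT⟩ : ∃ T : ℝ, T = (2 : ℝ) ^ r := ⟨_, rfl⟩
    have hT1 : 1 ≤ T := by rw [hT]; exact one_le_pow₀ (by norm_num)
    have hT0 : 0 < T := by linarith
    have hTY : T ≤ Y := by rw [hT]; exact_mod_cast hrY
    have hTX : T ≤ X := hTY.trans hYXr
    -- the base
    obtain ⟨H, hH⟩ : ∃ H : ℝ, H = max 1 ((T ^ 5 / Y) ^ ((1 : ℝ) / 10)) := ⟨_, rfl⟩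
    have hH1 : 1 ≤ H := by rw [hH]; exact le_max_left _ _
    have hH2 : (T ^ 5 / Y) ^ ((1 : ℝ) / 10) ≤ H := by rw [hH]; exact le_max_right _ _
    have b1 := hbase (2 ^ (r + 1)) Nat.one_le_two_pow H hH1 (Qr.image Prod.fst) (by
      intro u hu
      rw [mem_image] at hu
      obtain ⟨P, hP, rfl⟩ := hu
      obtain ⟨g1, g2, g3⟩ := hmem P hP
      obtain ⟨a1, a2, a3, a4, a5, a6, a7⟩ := hQ P g1
      have hy := ys_ne a1 0
      refine ⟨hy.1, hy.2, g3, ?_⟩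
      rw [hH]
      apply max_le
      · exact_mod_cast Cc_pos P.1
      · have h1 : T ^ 5 / Y ≤ (Cc P.1 : ℝ) ^ 10 := by
          rw [div_le_iff₀ hY0, hT]
          have h2 : (2 ^ r) ^ 5 ≤ Cc P.1 ^ 10 * Y := by
            calc (2 ^ r) ^ 5 ≤ zr (U P.1) ^ 5 := Nat.pow_le_pow_left g2 5
              _ ≤ Zz P * Cc P.1 ^ 10 := a7
              _ ≤ Y * Cc P.1 ^ 10 := Nat.mul_le_mul_right _ a2
              _ = _ := mul_comm _ _
          exact_mod_cast h2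
        calc (T ^ 5 / Y) ^ ((1 : ℝ) / 10) ≤ ((Cc P.1 : ℝ) ^ 10) ^ ((1 : ℝ) / 10) :=
              Real.rpow_le_rpow (by positivity) h1 (by norm_num)
          _ = Cc P.1 := by
              rw [← Real.rpow_natCast, ← Real.rpow_mul (Nat.cast_nonneg _)]
              norm_num)
    have hcast : (((2 ^ (r + 1) : ℕ) : ℝ)) = 2 * T := by
      rw [hT]; push_cast; ring
    rw [hcast] at b1
    -- the fibres
    obtain ⟨W, hW⟩ : ∃ W, W = Y / 2 ^ r := ⟨_, rfl⟩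
    have hW1 : 1 ≤ W := by
      rw [hW]
      exact Nat.div_pos hrY (by positivity)
    have hWX : W ≤ X := by rw [hW]; exact (Nat.div_le_self _ _).trans hYX
    have hWr : (W : ℝ) ≤ Y / T := by
      rw [hW, hT]
      have := Nat.cast_div_le (α := ℝ) (m := Y) (n := 2 ^ r)
      push_cast at this
      exact this
    have b2 : ∀ a ∈ Qr.image Prod.fst, (((Qr.filter fun P => P.1 = a).image Prod.snd).card : ℝ) ≤
        C₂ * (X : ℝ) ^ δ * (W : ℝ) ^ ((1 : ℝ) / 2) := by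
      intro a ha
      rw [mem_image] at ha
      obtain ⟨P, hP, rfl⟩ := ha
      obtain ⟨g1, g2, g3⟩ := hmem P hP
      obtain ⟨a1, a2, a3, a4, a5, a6, a7⟩ := hQ P g1
      have hy := ys_ne a1 0
      have hU0 : (U P.1).natAbs ≠ 0 := Int.natAbs_ne_zero.2 (U_ne hy.1 hy.2)
      have hXM : X ^ M ≤ X ^ (M + 1) := Nat.pow_le_pow_right (by omega) (by omega)
      have hXM2 : X ^ M + X ^ M ≤ X ^ (M + 1) := by
        rw [pow_succ]; nlinarith [Nat.one_le_pow M X (by omega)]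
      have hUa : (U P.1).natAbs = P.1.num.natAbs * P.1.den * (P.1.num + P.1.den).natAbs := by
        unfold U
        rw [Int.natAbs_mul, Int.natAbs_mul, Int.natAbs_natCast]
      have hdv : P.1.den ∣ (U P.1).natAbs := by
        rw [hUa]
        exact Dvd.intro (P.1.num.natAbs * (P.1.num + P.1.den).natAbs) (by ring)
      obtain ⟨V, hV⟩ : ∃ V, V = (Qr.filter fun P' => P'.1 = P.1).image Prod.snd := ⟨_, rfl⟩
      rw [← hV]
      have hcard : V.card = (V.image fun v : ℚ => (v.num, (v.den : ℤ))).card := by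
        rw [Finset.card_image_of_injective]
        intro v v' hvv
        simp only [Prod.mk.injEq] at hvv
        exact Rat.ext hvv.1 (by exact_mod_cast hvv.2)
      rw [hcard]
      refine hfib X W hX hW1 hWX (P.1.den : ℤ) (P.1.num + P.1.den) (den_ne _) (num_add_ne hy.2)
        ?_ ?_ ?_ (U P.1).natAbs.primeFactors (fun p hp => Nat.prime_of_mem_primeFactors hp)
        ((hR P g1).2.2.trans hYX) ?_ ?_ ?_ _ ?_
      · rw [show (P.1.den : ℤ) - (P.1.num + P.1.den) = -P.1.num by ring]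
        exact neg_ne_zero.2 (Rat.num_ne_zero.2 hy.1)
      · rw [Int.natAbs_natCast]; omega
      · refine (Int.natAbs_add_le _ _).trans ?_
        rw [Int.natAbs_natCast]; omega
      · rw [Int.natAbs_natCast]
        exact Nat.primeFactors_mono hdv hU0
      · exact Nat.primeFactors_mono (by rw [hUa]; exact Dvd.intro_left _ rfl) hU0
      · rw [show (P.1.den : ℤ) - (P.1.num + P.1.den) = -P.1.num by ring, Int.natAbs_neg]
        exact Nat.primeFactors_mono (by rw [hUa, mul_assoc]; exact Dvd.intro _ rfl) hU0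
      · intro z hz
        rw [mem_image] at hz
        obtain ⟨v, hv, rfl⟩ := hz
        rw [hV, mem_image] at hv
        obtain ⟨P', hP', rfl⟩ := hv
        rw [mem_filter] at hP'
        obtain ⟨hP'1, hP'2⟩ := hP'
        obtain ⟨g1', g2', g3'⟩ := hmem P' hP'1
        obtain ⟨a1', a2', a3', a4', a5', a6', a7'⟩ := hQ P' g1'
        have hy' := ys_ne a1' 1
        have hn := new_primes a1'
        rw [hP'2] at hn
        refine ⟨Rat.isCoprime_num_den _, Rat.num_ne_zero.2 hy'.1, den_ne _, num_add_ne hy'.2, ?_,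
          a5'.trans hXM, ?_, ?_⟩
        · intro h0
          apply a1'.e
          have hden1 : (P'.1.den : ℚ) ≠ 0 := by exact_mod_cast P'.1.den_pos.ne'
          have hden2 : (P'.2.den : ℚ) ≠ 0 := by exact_mod_cast P'.2.den_pos.ne'
          have e1 : (P'.1.num : ℚ) = P'.1 * P'.1.den := (Rat.mul_den_eq_num P'.1).symm
          have e2 : (P'.2.num : ℚ) = P'.2 * P'.2.den := (Rat.mul_den_eq_num P'.2).symm
          rw [← hP'2] at h0
          have h1 : ((P'.1.den : ℚ)) * P'.2.num + (P'.1.num + P'.1.den) * P'.2.den = 0 := by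
            exact_mod_cast h0
          rw [e1, e2] at h1
          have h2 : (1 + P'.1 + P'.2) * (P'.1.den * P'.2.den) = 0 := by linarith
          rcases mul_eq_zero.1 h2 with h3 | h3
          · exact h3
          · exact absurd h3 (mul_ne_zero hden1 hden2)
        · show ((P'.2.den : ℤ)).natAbs ≤ _
          rw [Int.natAbs_natCast]; omega
        · -- few new primes
          have h1 : zn (U P.1).natAbs.primeFactors (P'.2.num * P'.2.den * (P'.2.num + P'.2.den) *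
              ((P.1.den : ℤ) * P'.2.num + (P.1.num + P.1.den) * P'.2.den)) * 2 ^ r ≤ Y :=
            (Nat.mul_le_mul_left _ g2).trans (hn.trans a2')
          rw [hW]
          exact (Nat.le_div_iff_mul_le (by positivity)).2 h1
    have b3 := card_fib Qr _ b2
    -- the exponents
    have e1 : (2 * T) ^ δ ≤ (X : ℝ) ^ (2 * δ) := by
      calc (2 * T) ^ δ ≤ ((X : ℝ) * X) ^ δ := by
            apply Real.rpow_le_rpow (by positivity) _ hδ0.le
            exact mul_le_mul hX2 hTX hT0.le (by linarith)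
        _ = (X : ℝ) ^ (2 * δ) := by
            rw [Real.mul_rpow hX0.le hX0.le, ← Real.rpow_add hX0]
            congr 1
            ring
    have e2 : (2 * T) ^ ((3 : ℝ) / 5) ≤ 2 * T ^ ((3 : ℝ) / 5) := by
      rw [Real.mul_rpow (by norm_num) hT0.le]
      apply mul_le_mul_of_nonneg_right _ (by positivity)
      calc (2 : ℝ) ^ ((3 : ℝ) / 5) ≤ (2 : ℝ) ^ (1 : ℝ) :=
            Real.rpow_le_rpow_of_exponent_le (by norm_num) (by norm_num)
        _ = 2 := Real.rpow_one 2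
    have hWs : (W : ℝ) ^ ((1 : ℝ) / 2) ≤ (Y : ℝ) ^ ((1 : ℝ) / 2) * T ^ (-((1 : ℝ) / 2)) := by
      calc (W : ℝ) ^ ((1 : ℝ) / 2) ≤ (Y / T) ^ ((1 : ℝ) / 2) :=
            Real.rpow_le_rpow (Nat.cast_nonneg _) hWr (by norm_num)
        _ = _ := by
            rw [Real.div_rpow hY0.le hT0.le, Real.rpow_neg hT0.le]
            rfl
    have e3 : T ^ ((3 : ℝ) / 5) * ((Y : ℝ) ^ ((1 : ℝ) / 2) * T ^ (-((1 : ℝ) / 2))) ≤
        (Y : ℝ) ^ ((3 : ℝ) / 5) := by
      calc T ^ ((3 : ℝ) / 5) * ((Y : ℝ) ^ ((1 : ℝ) / 2) * T ^ (-((1 : ℝ) / 2))) =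
            (T ^ ((3 : ℝ) / 5) * T ^ (-((1 : ℝ) / 2))) * (Y : ℝ) ^ ((1 : ℝ) / 2) := by ring
        _ = T ^ ((1 : ℝ) / 10) * (Y : ℝ) ^ ((1 : ℝ) / 2) := by
            rw [← Real.rpow_add hT0]; norm_num
        _ ≤ (Y : ℝ) ^ ((1 : ℝ) / 10) * (Y : ℝ) ^ ((1 : ℝ) / 2) := by
            apply mul_le_mul_of_nonneg_right _ (by positivity)
            exact Real.rpow_le_rpow hT0.le hTY (by norm_num)
        _ = _ := by rw [← Real.rpow_add hY0]; norm_num
    have e4 : 2 * T / H * ((Y : ℝ) ^ ((1 : ℝ) / 2) * T ^ (-((1 : ℝ) / 2))) ≤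
        2 * (Y : ℝ) ^ ((3 : ℝ) / 5) := by
      have hHT : T ^ ((1 : ℝ) / 2) * (Y : ℝ) ^ (-((1 : ℝ) / 10)) ≤ H := by
        refine le_trans (le_of_eq ?_) hH2
        rw [Real.div_rpow (by positivity) hY0.le, Real.rpow_neg hY0.le]
        congr 1
        rw [← Real.rpow_natCast, ← Real.rpow_mul hT0.le]
        norm_num
      have h1 : T / H ≤ T ^ ((1 : ℝ) / 2) * (Y : ℝ) ^ ((1 : ℝ) / 10) := by
        rw [div_le_iff₀ (by linarith)]
        calc T = T ^ ((1 : ℝ) / 2) * (Y : ℝ) ^ ((1 : ℝ) / 10) *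
              (T ^ ((1 : ℝ) / 2) * (Y : ℝ) ^ (-((1 : ℝ) / 10))) := by
              have h2 : T ^ ((1 : ℝ) / 2) * T ^ ((1 : ℝ) / 2) = T := by
                rw [← Real.rpow_add hT0]; norm_num
              have h3 : (Y : ℝ) ^ ((1 : ℝ) / 10) * (Y : ℝ) ^ (-((1 : ℝ) / 10)) = 1 := by
                rw [← Real.rpow_add hY0]; norm_num
              calc T = T ^ ((1 : ℝ) / 2) * T ^ ((1 : ℝ) / 2) *
                    ((Y : ℝ) ^ ((1 : ℝ) / 10) * (Y : ℝ) ^ (-((1 : ℝ) / 10))) := by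
                    rw [h2, h3, mul_one]
                _ = _ := by ring
          _ ≤ T ^ ((1 : ℝ) / 2) * (Y : ℝ) ^ ((1 : ℝ) / 10) * H :=
              mul_le_mul_of_nonneg_left hHT (by positivity)
      calc 2 * T / H * ((Y : ℝ) ^ ((1 : ℝ) / 2) * T ^ (-((1 : ℝ) / 2))) =
            2 * (T / H) * ((Y : ℝ) ^ ((1 : ℝ) / 2) * T ^ (-((1 : ℝ) / 2))) := by ring
        _ ≤ 2 * (T ^ ((1 : ℝ) / 2) * (Y : ℝ) ^ ((1 : ℝ) / 10)) *
            ((Y : ℝ) ^ ((1 : ℝ) / 2) * T ^ (-((1 : ℝ) / 2))) := by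
            apply mul_le_mul_of_nonneg_right _ (by positivity)
            exact mul_le_mul_of_nonneg_left h1 (by norm_num)
        _ = 2 * (T ^ ((1 : ℝ) / 2) * T ^ (-((1 : ℝ) / 2))) *
            ((Y : ℝ) ^ ((1 : ℝ) / 10) * (Y : ℝ) ^ ((1 : ℝ) / 2)) := by ring
        _ = _ := by
            rw [← Real.rpow_add hT0, ← Real.rpow_add hY0]
            norm_num
    have e5 : (2 * T ^ ((3 : ℝ) / 5) + 2 * T / H) *
        ((Y : ℝ) ^ ((1 : ℝ) / 2) * T ^ (-((1 : ℝ) / 2))) ≤ 4 * (Y : ℝ) ^ ((3 : ℝ) / 5) := by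
      have := mul_le_mul_of_nonneg_left e3 (by norm_num : (0 : ℝ) ≤ 2)
      calc _ = 2 * (T ^ ((3 : ℝ) / 5) * ((Y : ℝ) ^ ((1 : ℝ) / 2) * T ^ (-((1 : ℝ) / 2)))) +
            2 * T / H * ((Y : ℝ) ^ ((1 : ℝ) / 2) * T ^ (-((1 : ℝ) / 2))) := by ring
        _ ≤ 2 * (Y : ℝ) ^ ((3 : ℝ) / 5) + 2 * (Y : ℝ) ^ ((3 : ℝ) / 5) := add_le_add this e4
        _ = _ := by ring
    have hH0 : 0 < H := by linarith
    calc (Qr.card : ℝ) ≤ ((Qr.image Prod.fst).card : ℝ) *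
          (C₂ * (X : ℝ) ^ δ * (W : ℝ) ^ ((1 : ℝ) / 2)) := b3
      _ ≤ (C₁ * (2 * T) ^ δ * ((2 * T) ^ ((3 : ℝ) / 5) + 2 * T / H)) *
          (C₂ * (X : ℝ) ^ δ * (W : ℝ) ^ ((1 : ℝ) / 2)) :=
          mul_le_mul_of_nonneg_right b1 (by positivity)
      _ ≤ (C₁ * (X : ℝ) ^ (2 * δ) * (2 * T ^ ((3 : ℝ) / 5) + 2 * T / H)) *
          (C₂ * (X : ℝ) ^ δ * ((Y : ℝ) ^ ((1 : ℝ) / 2) * T ^ (-((1 : ℝ) / 2)))) := by
          apply mul_le_mul _ _ (by positivity) (by positivity)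
          · apply mul_le_mul _ _ (by positivity) (by positivity)
            · exact mul_le_mul_of_nonneg_left e1 hC₁.le
            · linarith
          · exact mul_le_mul_of_nonneg_left hWs (by positivity)
      _ = C₁ * C₂ * ((X : ℝ) ^ (2 * δ) * (X : ℝ) ^ δ) * ((2 * T ^ ((3 : ℝ) / 5) + 2 * T / H) *
          ((Y : ℝ) ^ ((1 : ℝ) / 2) * T ^ (-((1 : ℝ) / 2)))) := by ring
      _ ≤ C₁ * C₂ * ((X : ℝ) ^ (2 * δ) * (X : ℝ) ^ δ) * (4 * (Y : ℝ) ^ ((3 : ℝ) / 5)) :=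
          mul_le_mul_of_nonneg_left e5 (by positivity)
      _ = _ := by
          rw [← Real.rpow_add hX0, show 2 * δ + δ = 3 * δ by ring]
          ring
  calc (Q.card : ℝ) ≤ (((range N).biUnion fun r =>
        Q.filter fun P => Nat.log 2 (zr (U P.1)) = r).card : ℝ) := by
        exact_mod_cast card_le_card hcover
    _ ≤ ∑ r ∈ range N, ((Q.filter fun P => Nat.log 2 (zr (U P.1)) = r).card : ℝ) := by
        exact_mod_cast card_biUnion_le
    _ ≤ ∑ _r ∈ range N, 4 * C₁ * C₂ * (X : ℝ) ^ (3 * δ) * (Y : ℝ) ^ ((3 : ℝ) / 5) :=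
        Finset.sum_le_sum hbox
    _ = (N : ℝ) * (4 * C₁ * C₂ * (X : ℝ) ^ (3 * δ) * (Y : ℝ) ^ ((3 : ℝ) / 5)) := by
        rw [Finset.sum_const, nsmul_eq_mul, card_range]
    _ ≤ (C₃ * (X : ℝ) ^ δ) * (4 * C₁ * C₂ * (X : ℝ) ^ (3 * δ) * (Y : ℝ) ^ ((3 : ℝ) / 5)) :=
        mul_le_mul_of_nonneg_right (hlog X (by omega)) (by positivity)
    _ = C₃ * (4 * C₁ * C₂) * ((X : ℝ) ^ δ * (X : ℝ) ^ (3 * δ)) * (Y : ℝ) ^ ((3 : ℝ) / 5) := by ring
    _ = _ := by
        rw [← Real.rpow_add hX0]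
        congr 3
        rw [hδ]; ring

/-- iterates of the rotation -/
lemma iter {P : ℚ × ℚ} (h : Dom P) (n : ℕ) : Dom (ph^[n] P) ∧ Bad (ph^[n] P) = Bad P ∧
    ∀ j : Fin 5, ys (ph^[n] P) j = ys P (j + Fin.ofNat 5 n) := by
  induction n with
  | zero =>
    refine ⟨h, rfl, fun j => ?_⟩
    have : Fin.ofNat 5 0 = 0 := rfl
    rw [Function.iterate_zero, id_eq, this, add_zero]
  | succ n ih =>
    rw [Function.iterate_succ', Function.comp_apply]
    refine ⟨ph_dom ih.1, (Bad_ph ih.1).trans ih.2.1, fun j => ?_⟩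
    rw [ys_ph ih.1, ih.2.2]
    congr 1
    have : Fin.ofNat 5 (n + 1) = Fin.ofNat 5 n + 1 := by
      apply Fin.ext
      simp [Fin.ofNat, Fin.val_add]
    rw [this, add_assoc, add_comm (1 : Fin 5)]

lemma iter_inj {P Q : ℚ × ℚ} (hP : Dom P) (hQ : Dom Q) (n : ℕ) (h : ph^[n] P = ph^[n] Q) : P = Q := by
  induction n with
  | zero => exact h
  | succ n ih =>
    rw [Function.iterate_succ', Function.comp_apply, Function.comp_apply] at h
    exact ih (ph_inj (iter hP n).1 (iter hQ n).1 h)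

/-- **five points** -/
theorem five (M : ℕ) (hM : 1 ≤ M) (ε : ℝ) (hε : 0 < ε) (hε1 : ε ≤ 1 / 100) : ∃ C : ℝ, 0 < C ∧
    ∀ X Y : ℕ, 2 ≤ X → 1 ≤ Y → Y ≤ X → ∀ Q : Finset (ℚ × ℚ),
    (∀ P ∈ Q, Dom P ∧ Zz P ≤ Y ∧ ∀ i, (ys P i).num.natAbs ≤ X ^ M ∧ (ys P i).den ≤ X ^ M) →
    (Q.card : ℝ) ≤ C * (X : ℝ) ^ ε * (Y : ℝ) ^ ((3 : ℝ) / 5) := by
  classical
  obtain ⟨C, hC, h⟩ := class1 M hM ε hε hε1
  refine ⟨5 * C, by positivity, ?_⟩
  intro X Y hX hY hYX Q hQ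
  have hcover : Q ⊆ (univ : Finset (Fin 5)).biUnion fun i =>
      Q.filter fun P => zr (U (ys P i)) ^ 5 ≤ Zz P * Cc (ys P i) ^ 10 := by
    intro P hP
    obtain ⟨i, hi⟩ := exists_small (hQ P hP).1
    rw [mem_biUnion]
    exact ⟨i, mem_univ _, mem_filter.2 ⟨hP, hi⟩⟩
  have hbox : ∀ i : Fin 5, ((Q.filter fun P => zr (U (ys P i)) ^ 5 ≤
      Zz P * Cc (ys P i) ^ 10).card : ℝ) ≤ C * (X : ℝ) ^ ε * (Y : ℝ) ^ ((3 : ℝ) / 5) := by
    intro i
    obtain ⟨Q', hQ'⟩ : ∃ Q', Q' = Q.filter fun P => zr (U (ys P i)) ^ 5 ≤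
      Zz P * Cc (ys P i) ^ 10 := ⟨_, rfl⟩
    rw [← hQ']
    have hcard : Q'.card = (Q'.image (ph^[(i : ℕ)])).card := by
      rw [Finset.card_image_of_injOn]
      intro P hP P' hP' hPP
      rw [mem_coe, hQ', mem_filter] at hP hP'
      exact iter_inj (hQ P hP.1).1 (hQ P' hP'.1).1 _ hPP
    rw [hcard]
    apply h X Y hX hY hYX
    intro R hR
    rw [mem_image] at hR
    obtain ⟨P, hP, rfl⟩ := hR
    rw [hQ', mem_filter] at hP
    obtain ⟨g1, g2, g3⟩ := hQ P hP.1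
    obtain ⟨a1, a2, a3⟩ := iter g1 (i : ℕ)
    have hof : Fin.ofNat 5 (i : ℕ) = i := by
      apply Fin.ext
      simp [Fin.ofNat, Nat.mod_eq_of_lt i.2]
    have e0 : (ph^[(i : ℕ)] P).1 = ys P i := by
      have := a3 0
      rw [zero_add, hof] at this
      exact this
    have e1 : (ph^[(i : ℕ)] P).2 = ys P (1 + i) := by
      have := a3 1
      rw [hof] at this
      exact this
    have e2 : Zz (ph^[(i : ℕ)] P) = Zz P := by
      unfold Zz
      rw [a2]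
    rw [e0, e1, e2]
    exact ⟨a1, g2, (g3 i).1, (g3 i).2, (g3 _).1, (g3 _).2, hP.2⟩
  calc (Q.card : ℝ) ≤ (((univ : Finset (Fin 5)).biUnion fun i =>
      Q.filter fun P => zr (U (ys P i)) ^ 5 ≤ Zz P * Cc (ys P i) ^ 10).card : ℝ) := by
        exact_mod_cast card_le_card hcover
    _ ≤ ∑ i : Fin 5, ((Q.filter fun P => zr (U (ys P i)) ^ 5 ≤
        Zz P * Cc (ys P i) ^ 10).card : ℝ) := by exact_mod_cast card_biUnion_le
    _ ≤ ∑ _i : Fin 5, C * (X : ℝ) ^ ε * (Y : ℝ) ^ ((3 : ℝ) / 5) :=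
        Finset.sum_le_sum fun i _ => hbox i
    _ = _ := by
        rw [Finset.sum_const, nsmul_eq_mul, card_univ, Fintype.card_fin]
        push_cast
        ring

end Pool.Agent.H583.GD
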