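import Pool.Agent.H583.GD.E

/-!
Configurations of at least five points of the line, of moderate height.
-/

set_option autoImplicit false

namespace Pool.Agent.H583.GD

open Finset Pool.Agent.T2H20.ABC Pool.Agent.T2H20.AH Pool.Agent.H785R2.ABC Pool.Agent.H583.SF
  Pool.Agent.H583.WT Pool.Agent.H583.AL Pool.Agent.H583.AR

/-- the primes at which two of the points `0, ∞, 1, y` meet -/
def Ep (y : ℚ) : Finset ℕ := (y.num * y.den * (y.num - y.den)).natAbs.primeFactors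

/-- the points `0, ∞, 1, w_0, …` are different -/
structure Cf {m : ℕ} (w : Fin m → ℚ) : Prop where
  ne0 : ∀ i, w i ≠ 0
  ne1 : ∀ i, w i ≠ 1
  inj : Function.Injective w

/-- the primes at which two of the points `0, ∞, 1, w_0, …` meet -/
def Bd {m : ℕ} (w : Fin m → ℚ) : Finset ℕ :=
  (univ.biUnion fun i => Ep (w i)) ∪
    (univ.biUnion fun ij : Fin m × Fin m => (w ij.1 - w ij.2).num.natAbs.primeFactors)

/-- the product of these primes -/
def Bz {m : ℕ} (w : Fin m → ℚ) : ℕ := ∏ p ∈ Bd w, p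

lemma Bd_prime {m : ℕ} {w : Fin m → ℚ} {p : ℕ} (h : p ∈ Bd w) : p.Prime := by
  unfold Bd Ep at h
  rw [mem_union, mem_biUnion, mem_biUnion] at h
  rcases h with ⟨i, -, hi⟩ | ⟨i, -, hi⟩
  · exact Nat.prime_of_mem_primeFactors hi
  · exact Nat.prime_of_mem_primeFactors hi

lemma Bz_pos {m : ℕ} (w : Fin m → ℚ) : 0 < Bz w := Finset.prod_pos fun _ hp => (Bd_prime hp).pos

lemma Ep_sub {m : ℕ} (w : Fin m → ℚ) (i : Fin m) : Ep (w i) ⊆ Bd w :=
  (Finset.subset_biUnion_of_mem (fun i => Ep (w i)) (mem_univ i)).trans subset_union_left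

lemma df_sub {m : ℕ} (w : Fin m → ℚ) (i j : Fin m) : (w i - w j).num.natAbs.primeFactors ⊆ Bd w :=
  (Finset.subset_biUnion_of_mem (fun ij : Fin m × Fin m => (w ij.1 - w ij.2).num.natAbs.primeFactors)
    (mem_univ (i, j))).trans subset_union_right

lemma Bd_init {m : ℕ} (w : Fin (m + 1) → ℚ) : Bd (Fin.init w) ⊆ Bd w := by
  unfold Bd
  apply union_subset
  · apply Finset.biUnion_subset.2
    intro i _
    exact Ep_sub w i.castSucc
  · apply Finset.biUnion_subset.2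
    intro ij _
    exact df_sub w ij.1.castSucc ij.2.castSucc

lemma Ep_ne {y : ℚ} (h0 : y ≠ 0) (h1 : y ≠ 1) : y.num * y.den * (y.num - y.den) ≠ 0 := by
  refine mul_ne_zero (mul_ne_zero (Rat.num_ne_zero.2 h0) (den_ne y)) ?_
  intro h
  apply h1
  have h2 : y.num = y.den := by omega
  rw [← Rat.num_div_den y, h2]
  push_cast
  exact div_self (by exact_mod_cast y.den_pos.ne')

lemma mem_Ep {y : ℚ} (h0 : y ≠ 0) (h1 : y ≠ 1) {p : ℕ} (hp : p.Prime)
    (h : (p : ℤ) ∣ y.num ∨ (p : ℤ) ∣ y.den ∨ (p : ℤ) ∣ y.num - y.den) : p ∈ Ep y := by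
  unfold Ep
  rw [Nat.mem_primeFactors]
  refine ⟨hp, ?_, Int.natAbs_ne_zero.2 (Ep_ne h0 h1)⟩
  rw [← Int.natCast_dvd]
  rcases h with h | h | h
  · exact Dvd.dvd.mul_right (Dvd.dvd.mul_right h _) _
  · exact Dvd.dvd.mul_right (Dvd.dvd.mul_left h _) _
  · exact Dvd.dvd.mul_left h _

/-- a prime dividing the numerator of a difference -/
lemma mem_diff {m : ℕ} {w : Fin m → ℚ} (hw : Cf w) {i j : Fin m} (hij : i ≠ j) {p : ℕ} (hp : p.Prime)
    (h : (p : ℤ) ∣ (w i).num * (w j).den - (w j).num * (w i).den) : p ∈ Bd w := by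
  have hpi : Prime (p : ℤ) := Nat.prime_iff_prime_int.1 hp
  have hd : ((w i).den : ℤ) * (w j).den ≠ 0 := mul_ne_zero (den_ne _) (den_ne _)
  obtain ⟨g, h1, h2⟩ := Rat.exists_eq_mul_div_num_and_eq_mul_div_den
    ((w i).num * (w j).den - (w j).num * (w i).den) hd
  have hdi : ((w i).den : ℚ) ≠ 0 := by exact_mod_cast (w i).den_pos.ne'
  have hdj : ((w j).den : ℚ) ≠ 0 := by exact_mod_cast (w j).den_pos.ne'
  have e : (((w i).num * (w j).den - (w j).num * (w i).den : ℤ) : ℚ) /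
      (((w i).den : ℤ) * (w j).den : ℤ) = w i - w j := by
    push_cast
    rw [div_eq_iff (mul_ne_zero hdi hdj)]
    have e1 : ((w i).num : ℚ) = w i * (w i).den := (Rat.mul_den_eq_num _).symm
    have e2 : ((w j).num : ℚ) = w j * (w j).den := (Rat.mul_den_eq_num _).symm
    rw [e1, e2]
    ring
  rw [e] at h1 h2
  rw [h1] at h
  rcases hpi.dvd_or_dvd h with h3 | h3
  · have h4 : (p : ℤ) ∣ (w i).den * (w j).den := by
      rw [h2]
      exact Dvd.dvd.mul_right h3 _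
    rcases hpi.dvd_or_dvd h4 with h5 | h5
    · exact Ep_sub w i (mem_Ep (hw.ne0 i) (hw.ne1 i) hp (Or.inr (Or.inl h5)))
    · exact Ep_sub w j (mem_Ep (hw.ne0 j) (hw.ne1 j) hp (Or.inr (Or.inl h5)))
  · apply df_sub w i j
    rw [Nat.mem_primeFactors]
    refine ⟨hp, Int.natCast_dvd.1 h3, ?_⟩
    rw [Int.natAbs_ne_zero, Rat.num_ne_zero]
    exact sub_ne_zero.2 fun h0 => hij (hw.inj h0)

/-- the height of a quotient of integers -/
lemma frac_le {a b : ℤ} (ha : a ≠ 0) (hb : b ≠ 0) {H : ℕ} (h1 : a.natAbs ≤ H)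
    (h2 : b.natAbs ≤ H) : ((a : ℚ) / b).num.natAbs ≤ H ∧ ((a : ℚ) / b).den ≤ H := by
  constructor
  · refine le_trans (Nat.le_of_dvd (Int.natAbs_pos.2 ha) ?_) h1
    rw [← Rat.divInt_eq_div]
    exact Int.natAbs_dvd_natAbs.2 (Rat.num_dvd a hb)
  · refine le_trans (Nat.le_of_dvd (Int.natAbs_pos.2 hb) ?_) h2
    rw [← Rat.divInt_eq_div]
    exact Int.natCast_dvd.1 (Rat.den_dvd a b)

/-- the triple of a quotient of integers -/
lemma U_frac {a b : ℤ} (hb : b ≠ 0) : U ((a : ℚ) / b) ∣ a * b * (a + b) := by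
  obtain ⟨g, h1, h2⟩ := Rat.exists_eq_mul_div_num_and_eq_mul_div_den a hb
  refine ⟨g ^ 3, ?_⟩
  unfold U
  obtain ⟨n, hn⟩ : ∃ n, n = ((a : ℚ) / b).num := ⟨_, rfl⟩
  obtain ⟨d, hd⟩ : ∃ d : ℤ, d = (((a : ℚ) / b).den : ℤ) := ⟨_, rfl⟩
  rw [← hn] at h1
  rw [← hd] at h2
  rw [← hn, ← hd]
  clear hn hd
  subst h1
  subst h2
  ring

/-- the five triples of a configuration of five points -/
lemma base_point {w : Fin 2 → ℚ} (hw : Cf w) : Dom (w 0 - 1, -w 1) ∧
    Bad (w 0 - 1, -w 1) ⊆ Bd w ∧ ∀ H : ℕ, (∀ i, (w i).num.natAbs ≤ H ∧ (w i).den ≤ H) →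
      ∀ i, (ys (w 0 - 1, -w 1) i).num.natAbs ≤ 2 * (H * H) ∧ (ys (w 0 - 1, -w 1) i).den ≤ 2 * (H * H) := by
  obtain ⟨h0, h1, hinj⟩ := hw
  have hne : w 0 ≠ w 1 := fun h => absurd (hinj h) (by decide)
  have hD : Dom (w 0 - 1, -w 1) := by
    refine ⟨sub_ne_zero.2 (h1 0), neg_ne_zero.2 (h0 1), ?_, ?_, ?_⟩
    · show 1 + (w 0 - 1) ≠ 0
      rw [add_sub_cancel]
      exact h0 0
    · show 1 + -w 1 ≠ 0
      intro h
      exact h1 1 (by linarith)
    · show 1 + (w 0 - 1) + -w 1 ≠ 0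
      intro h
      exact hne (by linarith)
  obtain ⟨a, ha⟩ : ∃ a, a = (w 0).num := ⟨_, rfl⟩
  obtain ⟨b, hb⟩ : ∃ b : ℤ, b = (w 0).den := ⟨_, rfl⟩
  obtain ⟨c, hc⟩ : ∃ c, c = (w 1).num := ⟨_, rfl⟩
  obtain ⟨d, hd⟩ : ∃ d : ℤ, d = (w 1).den := ⟨_, rfl⟩
  have a0 : a ≠ 0 := by rw [ha]; exact Rat.num_ne_zero.2 (h0 0)
  have b0 : b ≠ 0 := by rw [hb]; exact den_ne _
  have c0 : c ≠ 0 := by rw [hc]; exact Rat.num_ne_zero.2 (h0 1)
  have d0 : d ≠ 0 := by rw [hd]; exact den_ne _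
  have ab0 : a - b ≠ 0 := by
    have := Ep_ne (h0 0) (h1 0)
    rw [ha, hb]
    exact (mul_ne_zero_iff.1 this).2
  have cd0 : c - d ≠ 0 := by
    have := Ep_ne (h0 1) (h1 1)
    rw [hc, hd]
    exact (mul_ne_zero_iff.1 this).2
  have b0q : (b : ℚ) ≠ 0 := by exact_mod_cast b0
  have d0q : (d : ℚ) ≠ 0 := by exact_mod_cast d0
  have a0q : (a : ℚ) ≠ 0 := by exact_mod_cast a0
  have c0q : (c : ℚ) ≠ 0 := by exact_mod_cast c0
  have ab0q : (a : ℚ) - b ≠ 0 := by exact_mod_cast ab0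
  have w0 : w 0 = (a : ℚ) / b := by
    rw [ha, hb, Int.cast_natCast, Rat.num_div_den]
  have w1 : w 1 = (c : ℚ) / d := by
    rw [hc, hd, Int.cast_natCast, Rat.num_div_den]
  have ad0 : a * d - c * b ≠ 0 := by
    intro h
    apply hne
    rw [w0, w1, div_eq_div_iff b0q d0q]
    have : (a : ℚ) * d - c * b = 0 := by exact_mod_cast h
    linarith
  have ad0q : (a : ℚ) * d - c * b ≠ 0 := by exact_mod_cast ad0
  -- the five quotients
  have y0 : ys (w 0 - 1, -w 1) 0 = ((a - b : ℤ) : ℚ) / b := by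
    show w 0 - 1 = _
    rw [w0]
    push_cast
    field_simp
  have y1 : ys (w 0 - 1, -w 1) 1 = ((-c : ℤ) : ℚ) / d := by
    show -w 1 = _
    rw [w1]
    push_cast
    ring
  have y2 : ys (w 0 - 1, -w 1) 2 = (((d - c) * b : ℤ) : ℚ) / ((d * (a - b) : ℤ) : ℚ) := by
    show (1 + -w 1) / (w 0 - 1) = _
    rw [w0, w1]
    push_cast
    field_simp
    ring
  have y3 : ys (w 0 - 1, -w 1) 3 = ((c * b - a * d : ℤ) : ℚ) / (((a - b) * c : ℤ) : ℚ) := by
    show (1 + (w 0 - 1) + -w 1) / ((w 0 - 1) * -w 1) = _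
    rw [w0, w1]
    push_cast
    field_simp
    ring
  have y4 : ys (w 0 - 1, -w 1) 4 = ((-(a * d) : ℤ) : ℚ) / ((b * c : ℤ) : ℚ) := by
    show (1 + (w 0 - 1)) / -w 1 = _
    rw [w0, w1]
    push_cast
    field_simp
    ring
  have dab0 : d * (a - b) ≠ 0 := mul_ne_zero d0 ab0
  have abc0 : (a - b) * c ≠ 0 := mul_ne_zero ab0 c0
  have bc0 : b * c ≠ 0 := mul_ne_zero b0 c0
  refine ⟨hD, ?_, ?_⟩
  · -- the bad primes
    intro p hp
    unfold Bad at hp
    rw [mem_biUnion] at hp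
    obtain ⟨i, -, hi⟩ := hp
    have hpp := Nat.prime_of_mem_primeFactors hi
    have hpi : Prime (p : ℤ) := Nat.prime_iff_prime_int.1 hpp
    have hdvd : (p : ℤ) ∣ U (ys (w 0 - 1, -w 1) i) := Int.natCast_dvd.2 (Nat.dvd_of_mem_primeFactors hi)
    have ma : (p : ℤ) ∣ a → p ∈ Bd w := fun h =>
      Ep_sub w 0 (mem_Ep (h0 0) (h1 0) hpp (Or.inl (by rw [← ha]; exact h)))
    have mb : (p : ℤ) ∣ b → p ∈ Bd w := fun h =>
      Ep_sub w 0 (mem_Ep (h0 0) (h1 0) hpp (Or.inr (Or.inl (by rw [← hb]; exact h))))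
    have mab : (p : ℤ) ∣ a - b → p ∈ Bd w := fun h =>
      Ep_sub w 0 (mem_Ep (h0 0) (h1 0) hpp (Or.inr (Or.inr (by rw [← hb, ← ha]; exact h))))
    have mc : (p : ℤ) ∣ c → p ∈ Bd w := fun h =>
      Ep_sub w 1 (mem_Ep (h0 1) (h1 1) hpp (Or.inl (by rw [← hc]; exact h)))
    have md : (p : ℤ) ∣ d → p ∈ Bd w := fun h =>
      Ep_sub w 1 (mem_Ep (h0 1) (h1 1) hpp (Or.inr (Or.inl (by rw [← hd]; exact h))))
    have mcd : (p : ℤ) ∣ c - d → p ∈ Bd w := fun h =>
      Ep_sub w 1 (mem_Ep (h0 1) (h1 1) hpp (Or.inr (Or.inr (by rw [← hd, ← hc]; exact h))))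
    have mad : (p : ℤ) ∣ a * d - c * b → p ∈ Bd w := fun h =>
      mem_diff ⟨h0, h1, hinj⟩ (i := 0) (j := 1) (by decide) hpp (by rw [← ha, ← hb, ← hc, ← hd]; exact h)
    have neg : ∀ z : ℤ, (p : ℤ) ∣ -z → (p : ℤ) ∣ z := fun z h => (dvd_neg).1 h
    fin_cases i
    · have h2 : (p : ℤ) ∣ (a - b) * b * ((a - b) + b) := by
        refine dvd_trans hdvd ?_
        rw [show ys (w 0 - 1, -w 1) ((fun i => i) ⟨0, by norm_num⟩) = ys (w 0 - 1, -w 1) 0 from rfl, y0]
        exact U_frac b0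
      rcases hpi.dvd_or_dvd h2 with h3 | h3
      · rcases hpi.dvd_or_dvd h3 with h4 | h4
        · exact mab h4
        · exact mb h4
      · exact ma (by rwa [sub_add_cancel] at h3)
    · have h2 : (p : ℤ) ∣ (-c) * d * ((-c) + d) := by
        refine dvd_trans hdvd ?_
        rw [show ys (w 0 - 1, -w 1) ((fun i => i) ⟨1, by norm_num⟩) = ys (w 0 - 1, -w 1) 1 from rfl, y1]
        exact U_frac d0
      rcases hpi.dvd_or_dvd h2 with h3 | h3
      · rcases hpi.dvd_or_dvd h3 with h4 | h4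
        · exact mc (neg _ h4)
        · exact md h4
      · exact mcd (neg _ (by rwa [show -(c - d) = -c + d by ring]))
    · have h2 : (p : ℤ) ∣ ((d - c) * b) * (d * (a - b)) * ((d - c) * b + d * (a - b)) := by
        refine dvd_trans hdvd ?_
        rw [show ys (w 0 - 1, -w 1) ((fun i => i) ⟨2, by norm_num⟩) = ys (w 0 - 1, -w 1) 2 from rfl, y2]
        exact U_frac dab0
      rcases hpi.dvd_or_dvd h2 with h3 | h3
      · rcases hpi.dvd_or_dvd h3 with h4 | h4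
        · rcases hpi.dvd_or_dvd h4 with h5 | h5
          · exact mcd (neg _ (by rwa [show -(c - d) = d - c by ring]))
          · exact mb h5
        · rcases hpi.dvd_or_dvd h4 with h5 | h5
          · exact md h5
          · exact mab h5
      · exact mad (by rwa [show (d - c) * b + d * (a - b) = a * d - c * b by ring] at h3)
    · have h2 : (p : ℤ) ∣ (c * b - a * d) * ((a - b) * c) * ((c * b - a * d) + (a - b) * c) := by
        refine dvd_trans hdvd ?_
        rw [show ys (w 0 - 1, -w 1) ((fun i => i) ⟨3, by norm_num⟩) = ys (w 0 - 1, -w 1) 3 from rfl, y3]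
        exact U_frac abc0
      rcases hpi.dvd_or_dvd h2 with h3 | h3
      · rcases hpi.dvd_or_dvd h3 with h4 | h4
        · exact mad (neg _ (by rwa [show -(a * d - c * b) = c * b - a * d by ring]))
        · rcases hpi.dvd_or_dvd h4 with h5 | h5
          · exact mab h5
          · exact mc h5
      · rw [show c * b - a * d + (a - b) * c = a * (c - d) by ring] at h3
        rcases hpi.dvd_or_dvd h3 with h5 | h5
        · exact ma h5
        · exact mcd h5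
    · have h2 : (p : ℤ) ∣ (-(a * d)) * (b * c) * (-(a * d) + b * c) := by
        refine dvd_trans hdvd ?_
        rw [show ys (w 0 - 1, -w 1) ((fun i => i) ⟨4, by norm_num⟩) = ys (w 0 - 1, -w 1) 4 from rfl, y4]
        exact U_frac bc0
      rcases hpi.dvd_or_dvd h2 with h3 | h3
      · rcases hpi.dvd_or_dvd h3 with h4 | h4
        · rcases hpi.dvd_or_dvd (neg _ h4) with h5 | h5
          · exact ma h5
          · exact md h5
        · rcases hpi.dvd_or_dvd h4 with h5 | h5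
          · exact mb h5
          · exact mc h5
      · exact mad (neg _ (by rwa [show -(a * d - c * b) = -(a * d) + b * c by ring]))
  · -- the heights
    intro H hH
    have Ha : a.natAbs ≤ H := by rw [ha]; exact (hH 0).1
    have Hb : b.natAbs ≤ H := by rw [hb, Int.natAbs_natCast]; exact (hH 0).2
    have Hc : c.natAbs ≤ H := by rw [hc]; exact (hH 1).1
    have Hd : d.natAbs ≤ H := by rw [hd, Int.natAbs_natCast]; exact (hH 1).2
    have H1 : 1 ≤ H := le_trans (Int.natAbs_pos.2 a0) Ha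
    have HH : H ≤ H * H := Nat.le_mul_of_pos_right _ H1
    have Hab : (a - b).natAbs ≤ 2 * H := (Int.natAbs_sub_le _ _).trans (by omega)
    have Hdc : (d - c).natAbs ≤ 2 * H := (Int.natAbs_sub_le _ _).trans (by omega)
    have m1 : ∀ x y : ℤ, x.natAbs ≤ 2 * H → y.natAbs ≤ H → (x * y).natAbs ≤ 2 * (H * H) := by
      intro x y hx hy
      rw [Int.natAbs_mul, ← mul_assoc]
      exact Nat.mul_le_mul hx hy
    have m2 : ∀ x y : ℤ, x.natAbs ≤ H → y.natAbs ≤ H → (x * y).natAbs ≤ H * H := by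
      intro x y hx hy
      rw [Int.natAbs_mul]
      exact Nat.mul_le_mul hx hy
    intro i
    fin_cases i
    · show (ys (w 0 - 1, -w 1) 0).num.natAbs ≤ _ ∧ (ys (w 0 - 1, -w 1) 0).den ≤ _
      rw [y0]
      exact frac_le ab0 b0 (by omega) (by omega)
    · show (ys (w 0 - 1, -w 1) 1).num.natAbs ≤ _ ∧ (ys (w 0 - 1, -w 1) 1).den ≤ _
      rw [y1]
      exact frac_le (neg_ne_zero.2 c0) d0 (by rw [Int.natAbs_neg]; omega) (by omega)
    · show (ys (w 0 - 1, -w 1) 2).num.natAbs ≤ _ ∧ (ys (w 0 - 1, -w 1) 2).den ≤ _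
      rw [y2]
      exact frac_le (mul_ne_zero (fun h => cd0 (by omega)) b0) dab0 (m1 _ _ Hdc Hb)
        (by rw [mul_comm]; exact m1 _ _ Hab Hd)
    · show (ys (w 0 - 1, -w 1) 3).num.natAbs ≤ _ ∧ (ys (w 0 - 1, -w 1) 3).den ≤ _
      rw [y3]
      refine frac_le (fun h => ad0 (by omega)) abc0 ?_ (m1 _ _ Hab Hc)
      refine (Int.natAbs_sub_le _ _).trans ?_
      have := m2 c b Hc Hb
      have := m2 a d Ha Hd
      omega
    · show (ys (w 0 - 1, -w 1) 4).num.natAbs ≤ _ ∧ (ys (w 0 - 1, -w 1) 4).den ≤ _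
      rw [y4]
      have e1 := m2 a d Ha Hd
      have e2 := m2 b c Hb Hc
      exact frac_le (neg_ne_zero.2 (mul_ne_zero a0 d0)) bc0 (by rw [Int.natAbs_neg]; omega) (by omega)

end Pool.Agent.H583.GD
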