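import Pool.Agent.H583.GD.F

/-!
The number of the configurations of at least five points of the line with few bad primes, of moderate
height.
-/

set_option autoImplicit false

namespace Pool.Agent.H583.GD

open Finset Pool.Agent.T2H20.ABC Pool.Agent.T2H20.AH Pool.Agent.H785R2.ABC Pool.Agent.H583.SF
  Pool.Agent.H583.WT Pool.Agent.H583.AL Pool.Agent.H583.AR

lemma Cf_init {m : ℕ} {w : Fin (m + 1) → ℚ} (hw : Cf w) : Cf (Fin.init w) where
  ne0 i := hw.ne0 i.castSucc
  ne1 i := hw.ne1 i.castSucc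
  inj i j h := Fin.castSucc_injective _ (hw.inj h)

/-- the new primes of a further point -/
lemma new_primes' {m : ℕ} {w : Fin (m + 1 + 1) → ℚ} (hw : Cf w) :
    zn (Bd (Fin.init w)) ((w (Fin.last (m + 1))).num * (-(w (Fin.last (m + 1))).den) *
      ((w (Fin.last (m + 1))).num + -(w (Fin.last (m + 1))).den) *
      ((Fin.init w 0).den * (w (Fin.last (m + 1))).num +
        (Fin.init w 0).num * (-(w (Fin.last (m + 1))).den))) * Bz (Fin.init w) ≤ Bz w := by
  classical
  obtain ⟨z, hz⟩ : ∃ z, z = w (Fin.last (m + 1)) := ⟨_, rfl⟩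
  have hu : Fin.init w 0 = w (Fin.castSucc 0) := rfl
  have hne : Fin.last (m + 1) ≠ Fin.castSucc 0 := (Fin.castSucc_lt_last (0 : Fin (m + 1))).ne'
  rw [hu, ← hz]
  have e2 : zn (Bd (Fin.init w)) (z.num * (-z.den) * (z.num + -z.den) *
      ((w (Fin.castSucc 0)).den * z.num + (w (Fin.castSucc 0)).num * (-z.den))) =
      ∏ p ∈ (z.num * (-z.den) * (z.num + -z.den) *
      ((w (Fin.castSucc 0)).den * z.num + (w (Fin.castSucc 0)).num * (-z.den))).natAbs.primeFactors \
        (Bd (Fin.init w)), p := rfl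
  rw [e2]
  unfold Bz
  rw [← Finset.prod_union sdiff_disjoint]
  apply prod_le_of_subset _ fun p hp => Bd_prime hp
  apply Finset.union_subset _ (Bd_init w)
  intro p hp
  rw [mem_sdiff] at hp
  obtain ⟨hp1, -⟩ := hp
  have hpp := Nat.prime_of_mem_primeFactors hp1
  have hpi : Prime (p : ℤ) := Nat.prime_iff_prime_int.1 hpp
  have hdvd := Int.natCast_dvd.2 (Nat.dvd_of_mem_primeFactors hp1)
  have hEp : ∀ {z' : ℚ}, z' = z → ((p : ℤ) ∣ z.num ∨ (p : ℤ) ∣ z.den ∨ (p : ℤ) ∣ z.num - z.den) →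
      p ∈ Bd w := by
    intro z' _ h
    apply Ep_sub w (Fin.last (m + 1))
    apply mem_Ep (hw.ne0 _) (hw.ne1 _) hpp
    rw [← hz]
    exact h
  rcases hpi.dvd_or_dvd hdvd with h | h
  · rcases hpi.dvd_or_dvd h with h | h
    · rcases hpi.dvd_or_dvd h with h | h
      · exact hEp rfl (Or.inl h)
      · exact hEp rfl (Or.inr (Or.inl ((dvd_neg).1 h)))
    · exact hEp rfl (Or.inr (Or.inr (by rwa [← sub_eq_add_neg] at h)))
  · apply mem_diff hw hne hpp
    rw [← hz]
    have e : z.num * ((w (Fin.castSucc 0)).den : ℤ) - (w (Fin.castSucc 0)).num * (z.den : ℤ) =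
        (w (Fin.castSucc 0)).den * z.num + (w (Fin.castSucc 0)).num * (-z.den) := by ring
    rw [e]
    exact h

/-- **configurations of at least five points, of moderate height** -/
theorem confs (m : ℕ) : ∀ (M : ℕ) (_ : 1 ≤ M) (ε : ℝ) (_ : 0 < ε) (_ : ε ≤ 1 / 100), ∃ C : ℝ, 0 < C ∧
    ∀ X Y : ℕ, 2 ≤ X → 1 ≤ Y → Y ≤ X → ∀ Q : Finset (Fin (m + 2) → ℚ),
    (∀ w ∈ Q, Cf w ∧ Bz w ≤ Y ∧ ∀ i, (w i).num.natAbs ≤ X ^ M ∧ (w i).den ≤ X ^ M) →
    (Q.card : ℝ) ≤ C * (X : ℝ) ^ ε * (Y : ℝ) ^ ((3 : ℝ) / 5) := by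
  classical
  induction m with
  | zero =>
    intro M hM ε hε hε1
    obtain ⟨C, hC, h⟩ := five (2 * M + 1) (by omega) ε hε hε1
    refine ⟨C, hC, ?_⟩
    intro X Y hX hY hYX Q hQ
    obtain ⟨g, hg⟩ : ∃ g : (Fin 2 → ℚ) → ℚ × ℚ, g = fun w => (w 0 - 1, -w 1) := ⟨_, rfl⟩
    have hinj : Function.Injective g := by
      intro w w' hww
      rw [hg] at hww
      simp only [Prod.mk.injEq] at hww
      funext i
      fin_cases i
      · show w 0 = w' 0
        linarith [hww.1]
      · show w 1 = w' 1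
        linarith [hww.2]
    have hcard : Q.card = (Q.image g).card := (Finset.card_image_of_injective _ hinj).symm
    rw [hcard]
    apply h X Y hX hY hYX
    intro P hP
    rw [mem_image] at hP
    obtain ⟨w, hw, rfl⟩ := hP
    obtain ⟨g1, g2, g3⟩ := hQ w hw
    obtain ⟨b1, b2, b3⟩ := base_point g1
    rw [hg]
    refine ⟨b1, ?_, ?_⟩
    · exact (prod_le_of_subset b2 fun p hp => Bd_prime hp).trans g2
    · intro i
      have h1 := b3 (X ^ M) g3 i
      have h2 : 2 * (X ^ M * X ^ M) ≤ X ^ (2 * M + 1) := by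
        have hp2 : X ^ (2 * M + 1) = X * (X ^ M * X ^ M) := by ring
        rw [hp2]; exact Nat.mul_le_mul_right _ hX
      exact ⟨h1.1.trans h2, h1.2.trans h2⟩
  | succ m ih =>
    intro M hM ε hε hε1
    obtain ⟨δ, hδ⟩ : ∃ δ, δ = ε / 3 := ⟨_, rfl⟩
    have hδ0 : 0 < δ := by rw [hδ]; positivity
    obtain ⟨C₁, hC₁, hih⟩ := ih M hM δ hδ0 (by rw [hδ]; linarith)
    obtain ⟨C₂, hC₂, hfib⟩ := fib M hM δ hδ0
    obtain ⟨C₃, hC₃, hlog⟩ := log_bound δ hδ0
    refine ⟨C₃ * (2 * C₁ * C₂), by positivity, ?_⟩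
    intro X Y hX hY hYX Q hQ
    have hX1 : (1 : ℝ) ≤ X := by exact_mod_cast (by omega : 1 ≤ X)
    have hX0 : (0 : ℝ) < X := by linarith
    have hY1 : (1 : ℝ) ≤ Y := by exact_mod_cast hY
    have hY0 : (0 : ℝ) < Y := by linarith
    set N := Nat.log 2 X + 2 with hN
    have hR : ∀ w ∈ Q, 0 < Bz (Fin.init w) ∧ Bz (Fin.init w) ≤ Y := by
      intro w hw
      obtain ⟨g1, g2, -⟩ := hQ w hw
      exact ⟨Bz_pos _, (prod_le_of_subset (Bd_init w) fun p hp => Bd_prime hp).trans g2⟩
    have hcover : Q ⊆ (range N).biUnion fun r => Q.filter fun w => Nat.log 2 (Bz (Fin.init w)) = r := by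
      intro w hw
      rw [mem_biUnion]
      refine ⟨Nat.log 2 (Bz (Fin.init w)), ?_, mem_filter.2 ⟨hw, rfl⟩⟩
      rw [mem_range]
      have := Nat.log_mono_right (b := 2) ((hR w hw).2.trans hYX)
      omega
    have hbox : ∀ r ∈ range N, ((Q.filter fun w => Nat.log 2 (Bz (Fin.init w)) = r).card : ℝ) ≤
        2 * C₁ * C₂ * (X : ℝ) ^ (2 * δ) * (Y : ℝ) ^ ((3 : ℝ) / 5) := by
      intro r _
      obtain ⟨Qr, hQr⟩ : ∃ Qr, Qr = Q.filter fun w => Nat.log 2 (Bz (Fin.init w)) = r := ⟨_, rfl⟩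
      rw [← hQr]
      have hmem : ∀ w ∈ Qr, w ∈ Q ∧ 2 ^ r ≤ Bz (Fin.init w) ∧ Bz (Fin.init w) ≤ 2 ^ (r + 1) := by
        intro w hw
        rw [hQr, mem_filter] at hw
        have h1 := (hR w hw.1).1
        refine ⟨hw.1, ?_, ?_⟩
        · rw [← hw.2]
          exact Nat.pow_log_le_self 2 h1.ne'
        · rw [← hw.2]
          exact (Nat.lt_pow_succ_log_self (by norm_num) _).le
      rcases Qr.eq_empty_or_nonempty with h0 | ⟨w0, hw0⟩
      · rw [h0, card_empty, Nat.cast_zero]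
        positivity
      have hrY : 2 ^ r ≤ Y := by
        obtain ⟨g1, g2, -⟩ := hmem w0 hw0
        exact g2.trans (hR w0 g1).2
      obtain ⟨T, hT⟩ : ∃ T : ℝ, T = (2 : ℝ) ^ r := ⟨_, rfl⟩
      have hT1 : 1 ≤ T := by rw [hT]; exact one_le_pow₀ (by norm_num)
      have hT0 : 0 < T := by linarith
      have hTY : T ≤ Y := by rw [hT]; exact_mod_cast hrY
      -- the pairs
      obtain ⟨gm, hgm⟩ : ∃ gm : (Fin (m + 1 + 2) → ℚ) → (Fin (m + 2) → ℚ) × ℚ,
          gm = fun w => (Fin.init w, w (Fin.last _)) := ⟨_, rfl⟩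
      have hginj : Function.Injective gm := by
        intro w w' hww
        rw [hgm] at hww
        simp only [Prod.mk.injEq] at hww
        rw [← Fin.snoc_init_self w, ← Fin.snoc_init_self w', hww.1, hww.2]
      have hcard : Qr.card = (Qr.image gm).card := (Finset.card_image_of_injective _ hginj).symm
      rw [hcard]
      -- the base
      have b1 : (((Qr.image gm).image Prod.fst).card : ℝ) ≤
          C₁ * (X : ℝ) ^ δ * (2 * T ^ ((3 : ℝ) / 5)) := by
        have h1 := hih X (min (2 ^ (r + 1)) Y) hX (le_min Nat.one_le_two_pow hY)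
          ((min_le_right _ _).trans hYX) ((Qr.image gm).image Prod.fst) (by
          intro v hv
          rw [mem_image] at hv
          obtain ⟨P, hP, rfl⟩ := hv
          rw [mem_image] at hP
          obtain ⟨w, hw, rfl⟩ := hP
          obtain ⟨g1, g2, g3⟩ := hmem w hw
          obtain ⟨a1, a2, a3⟩ := hQ w g1
          rw [hgm]
          exact ⟨Cf_init a1, le_min g3 (hR w g1).2, fun i => a3 i.castSucc⟩)
        refine h1.trans ?_
        apply mul_le_mul_of_nonneg_left _ (by positivity)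
        have h2 : ((min (2 ^ (r + 1)) Y : ℕ) : ℝ) ≤ 2 * T := by
          have h3 : min (2 ^ (r + 1)) Y ≤ 2 ^ (r + 1) := min_le_left _ _
          have h4 : ((2 ^ (r + 1) : ℕ) : ℝ) = 2 * T := by rw [hT]; push_cast; ring
          rw [← h4]
          exact_mod_cast h3
        calc ((min (2 ^ (r + 1)) Y : ℕ) : ℝ) ^ ((3 : ℝ) / 5) ≤ (2 * T) ^ ((3 : ℝ) / 5) :=
              Real.rpow_le_rpow (Nat.cast_nonneg _) h2 (by norm_num)
          _ = 2 ^ ((3 : ℝ) / 5) * T ^ ((3 : ℝ) / 5) := Real.mul_rpow (by norm_num) hT0.le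
          _ ≤ 2 * T ^ ((3 : ℝ) / 5) := by
              apply mul_le_mul_of_nonneg_right _ (by positivity)
              calc (2 : ℝ) ^ ((3 : ℝ) / 5) ≤ (2 : ℝ) ^ (1 : ℝ) :=
                    Real.rpow_le_rpow_of_exponent_le (by norm_num) (by norm_num)
                _ = 2 := Real.rpow_one 2
      -- the fibres
      obtain ⟨W, hW⟩ : ∃ W, W = Y / 2 ^ r := ⟨_, rfl⟩
      have hW1 : 1 ≤ W := by
        rw [hW]
        exact Nat.div_pos hrY (by positivity)
      have hWX : W ≤ X := by rw [hW]; exact (Nat.div_le_self _ _).trans hYX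
      have hWr : (W : ℝ) ≤ Y / T := by
        rw [hW, hT]
        have := Nat.cast_div_le (α := ℝ) (m := Y) (n := 2 ^ r)
        push_cast at this
        exact this
      have b2 : ∀ a ∈ (Qr.image gm).image Prod.fst,
          ((((Qr.image gm).filter fun P => P.1 = a).image Prod.snd).card : ℝ) ≤
          C₂ * (X : ℝ) ^ δ * (W : ℝ) ^ ((1 : ℝ) / 2) := by
        intro a ha
        rw [mem_image] at ha
        obtain ⟨P, hP, rfl⟩ := ha
        rw [mem_image] at hP
        obtain ⟨w, hw, rfl⟩ := hP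
        obtain ⟨g1, g2, g3⟩ := hmem w hw
        obtain ⟨a1, a2, a3⟩ := hQ w g1
        have hfst : (gm w).1 = Fin.init w := by rw [hgm]
        rw [hfst]
        obtain ⟨V, hV⟩ : ∃ V, V = ((Qr.image gm).filter fun P' => P'.1 = Fin.init w).image Prod.snd :=
          ⟨_, rfl⟩
        rw [← hV]
        have hcard : V.card = (V.image fun v : ℚ => (v.num, -(v.den : ℤ))).card := by
          rw [Finset.card_image_of_injective]
          intro v v' hvv
          simp only [Prod.mk.injEq, neg_inj] at hvv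
          exact Rat.ext hvv.1 (by exact_mod_cast hvv.2)
        rw [hcard]
        have hi := Cf_init a1
        obtain ⟨u, hu⟩ : ∃ u : ℚ, u = Fin.init w 0 := ⟨_, rfl⟩
        have hu0 : u ≠ 0 := by rw [hu]; exact hi.ne0 0
        have hu1 : u ≠ 1 := by rw [hu]; exact hi.ne1 0
        have hE : Ep u ⊆ Bd (Fin.init w) := by rw [hu]; exact Ep_sub (Fin.init w) 0
        have hEu := Ep_ne hu0 hu1
        have hEab : (u.num * u.den * (u.num - u.den)).natAbs =
            u.num.natAbs * u.den * (u.num - u.den).natAbs := by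
          rw [Int.natAbs_mul, Int.natAbs_mul, Int.natAbs_natCast]
        have hEn : (u.num * u.den * (u.num - u.den)).natAbs ≠ 0 := Int.natAbs_ne_zero.2 hEu
        have hcd : (u.den : ℤ) - u.num ≠ 0 := by
          intro h
          apply (mul_ne_zero_iff.1 hEu).2
          omega
        refine hfib X W hX hW1 hWX (u.den : ℤ) u.num (den_ne _) (Rat.num_ne_zero.2 hu0) hcd
          ?_ ?_ (Bd (Fin.init w)) (fun p hp => Bd_prime hp) ((hR w g1).2.trans hYX)
          ?_ ?_ ?_ _ ?_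
        · rw [Int.natAbs_natCast, hu]; exact (a3 (Fin.castSucc 0)).2
        · rw [hu]; exact (a3 (Fin.castSucc 0)).1
        · refine Finset.Subset.trans ?_ hE
          rw [Int.natAbs_natCast]
          exact Nat.primeFactors_mono (by rw [hEab]; exact Dvd.intro (u.num.natAbs * (u.num - u.den).natAbs) (by ring)) hEn
        · refine Finset.Subset.trans ?_ hE
          exact Nat.primeFactors_mono (by rw [hEab, mul_assoc]; exact Dvd.intro _ rfl) hEn
        · refine Finset.Subset.trans ?_ hE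
          rw [show (u.den : ℤ) - u.num = -(u.num - u.den) by ring, Int.natAbs_neg]
          exact Nat.primeFactors_mono (by rw [hEab]; exact Dvd.intro_left _ rfl) hEn
        · intro z hz
          rw [mem_image] at hz
          obtain ⟨v, hv, rfl⟩ := hz
          rw [hV, mem_image] at hv
          obtain ⟨P', hP', rfl⟩ := hv
          rw [mem_filter, mem_image] at hP'
          obtain ⟨⟨w', hw', rfl⟩, hP'2⟩ := hP'
          have hsnd : (gm w').2 = w' (Fin.last _) := by rw [hgm]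
          have hfst' : (gm w').1 = Fin.init w' := by rw [hgm]
          rw [hfst'] at hP'2
          rw [hsnd]
          obtain ⟨g1', g2', g3'⟩ := hmem w' hw'
          obtain ⟨a1', a2', a3'⟩ := hQ w' g1'
          have hz0 := a1'.ne0 (Fin.last _)
          have hz1 := a1'.ne1 (Fin.last _)
          have hn := new_primes' a1'
          have hzn : (w' (Fin.last (m + 1 + 1))).num + -((w' (Fin.last (m + 1 + 1))).den : ℤ) ≠ 0 := by
            have := Ep_ne hz0 hz1
            rw [← sub_eq_add_neg]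
            exact (mul_ne_zero_iff.1 this).2
          refine ⟨?_, Rat.num_ne_zero.2 hz0, neg_ne_zero.2 (den_ne _), hzn, ?_, (a3' _).1, ?_, ?_⟩
          · exact (Rat.isCoprime_num_den _).neg_right
          · show (u.den : ℤ) * (w' (Fin.last (m + 1 + 1))).num +
              u.num * -((w' (Fin.last (m + 1 + 1))).den : ℤ) ≠ 0
            intro h0
            have hne : Fin.last (m + 1 + 1) ≠ Fin.castSucc 0 :=
              (Fin.castSucc_lt_last (0 : Fin (m + 1 + 1))).ne'
            apply hne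
            apply a1'.inj
            have h1 : w' (Fin.castSucc 0) = u := by
              rw [hu, ← hP'2]
              rfl
            rw [h1]
            obtain ⟨z', hz'⟩ : ∃ z', z' = w' (Fin.last (m + 1 + 1)) := ⟨_, rfl⟩
            rw [← hz'] at h0 ⊢
            have hdu : (u.den : ℚ) ≠ 0 := by exact_mod_cast u.den_pos.ne'
            have hdz : (z'.den : ℚ) ≠ 0 := by exact_mod_cast z'.den_pos.ne'
            have e1 : (u.num : ℚ) = u * u.den := (Rat.mul_den_eq_num u).symm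
            have e2 : (z'.num : ℚ) = z' * z'.den := (Rat.mul_den_eq_num z').symm
            have h2 : (u.den : ℚ) * z'.num + u.num * -(z'.den : ℚ) = 0 := by exact_mod_cast h0
            rw [e1, e2] at h2
            have h3 : (z' - u) * (u.den * z'.den) = 0 := by linarith
            rcases mul_eq_zero.1 h3 with h4 | h4
            · linarith
            · exact absurd h4 (mul_ne_zero hdu hdz)
          · show (-((w' (Fin.last (m + 1 + 1))).den : ℤ)).natAbs ≤ _
            rw [Int.natAbs_neg, Int.natAbs_natCast]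
            exact (a3' _).2
          · rw [hP'2, ← hu] at hn
            have h1 := (Nat.mul_le_mul_left _ g2).trans (hn.trans a2')
            rw [hW]
            exact (Nat.le_div_iff_mul_le (by positivity)).2 h1
      have b3 := card_fib (Qr.image gm) _ b2
      have hWs : (W : ℝ) ^ ((1 : ℝ) / 2) ≤ (Y : ℝ) ^ ((1 : ℝ) / 2) * T ^ (-((1 : ℝ) / 2)) := by
        calc (W : ℝ) ^ ((1 : ℝ) / 2) ≤ (Y / T) ^ ((1 : ℝ) / 2) :=
              Real.rpow_le_rpow (Nat.cast_nonneg _) hWr (by norm_num)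
          _ = _ := by
              rw [Real.div_rpow hY0.le hT0.le, Real.rpow_neg hT0.le]
              rfl
      have e3 : T ^ ((3 : ℝ) / 5) * ((Y : ℝ) ^ ((1 : ℝ) / 2) * T ^ (-((1 : ℝ) / 2))) ≤
          (Y : ℝ) ^ ((3 : ℝ) / 5) := by
        calc T ^ ((3 : ℝ) / 5) * ((Y : ℝ) ^ ((1 : ℝ) / 2) * T ^ (-((1 : ℝ) / 2))) =
              (T ^ ((3 : ℝ) / 5) * T ^ (-((1 : ℝ) / 2))) * (Y : ℝ) ^ ((1 : ℝ) / 2) := by ring
          _ = T ^ ((1 : ℝ) / 10) * (Y : ℝ) ^ ((1 : ℝ) / 2) := by
              rw [← Real.rpow_add hT0]; norm_num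
          _ ≤ (Y : ℝ) ^ ((1 : ℝ) / 10) * (Y : ℝ) ^ ((1 : ℝ) / 2) := by
              apply mul_le_mul_of_nonneg_right _ (by positivity)
              exact Real.rpow_le_rpow hT0.le hTY (by norm_num)
          _ = _ := by rw [← Real.rpow_add hY0]; norm_num
      calc ((Qr.image gm).card : ℝ) ≤ (((Qr.image gm).image Prod.fst).card : ℝ) *
            (C₂ * (X : ℝ) ^ δ * (W : ℝ) ^ ((1 : ℝ) / 2)) := b3
        _ ≤ (C₁ * (X : ℝ) ^ δ * (2 * T ^ ((3 : ℝ) / 5))) *
            (C₂ * (X : ℝ) ^ δ * ((Y : ℝ) ^ ((1 : ℝ) / 2) * T ^ (-((1 : ℝ) / 2)))) := by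
            apply mul_le_mul b1 _ (by positivity) (by positivity)
            exact mul_le_mul_of_nonneg_left hWs (by positivity)
        _ = 2 * C₁ * C₂ * ((X : ℝ) ^ δ * (X : ℝ) ^ δ) *
            (T ^ ((3 : ℝ) / 5) * ((Y : ℝ) ^ ((1 : ℝ) / 2) * T ^ (-((1 : ℝ) / 2)))) := by ring
        _ ≤ 2 * C₁ * C₂ * ((X : ℝ) ^ δ * (X : ℝ) ^ δ) * (Y : ℝ) ^ ((3 : ℝ) / 5) :=
            mul_le_mul_of_nonneg_left e3 (by positivity)
        _ = _ := by
            rw [← Real.rpow_add hX0, show δ + δ = 2 * δ by ring]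
    calc (Q.card : ℝ) ≤ (((range N).biUnion fun r =>
          Q.filter fun w => Nat.log 2 (Bz (Fin.init w)) = r).card : ℝ) := by
          exact_mod_cast card_le_card hcover
      _ ≤ ∑ r ∈ range N, ((Q.filter fun w => Nat.log 2 (Bz (Fin.init w)) = r).card : ℝ) := by
          exact_mod_cast card_biUnion_le
      _ ≤ ∑ _r ∈ range N, 2 * C₁ * C₂ * (X : ℝ) ^ (2 * δ) * (Y : ℝ) ^ ((3 : ℝ) / 5) :=
          Finset.sum_le_sum hbox
      _ = (N : ℝ) * (2 * C₁ * C₂ * (X : ℝ) ^ (2 * δ) * (Y : ℝ) ^ ((3 : ℝ) / 5)) := by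
          rw [Finset.sum_const, nsmul_eq_mul, card_range]
      _ ≤ (C₃ * (X : ℝ) ^ δ) * (2 * C₁ * C₂ * (X : ℝ) ^ (2 * δ) * (Y : ℝ) ^ ((3 : ℝ) / 5)) :=
          mul_le_mul_of_nonneg_right (hlog X (by omega)) (by positivity)
      _ = C₃ * (2 * C₁ * C₂) * ((X : ℝ) ^ δ * (X : ℝ) ^ (2 * δ)) * (Y : ℝ) ^ ((3 : ℝ) / 5) := by ring
      _ = _ := by
          rw [← Real.rpow_add hX0]
          congr 3
          rw [hδ]; ring

end Pool.Agent.H583.GD
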