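import Pool.Agent.H583.GD.G
import Pool.Agent.Results.MP_2ec8a3_nt.LinkedTriples

/-!
The number of the points off the braid arrangement of dimension at least two with few bad primes, at
all heights.
-/

set_option autoImplicit false

namespace Pool.Agent.H583.GD

open Finset Pool.Agent.T2H20.ABC Pool.Agent.T2H20.AH Pool.Agent.H785R2.ABC Pool.Agent.H583.SF
  Pool.Agent.H583.WT Pool.Agent.H583.AL Pool.Agent.H583.AR
open Pool.Agent.Results.MP_2ec8a3_nt

/-- coprime integral coordinates, different from each other and from zero -/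
def Cx {n : ℕ} (x : Fin (n + 1) → ℤ) : Prop :=
  univ.gcd x = 1 ∧ (∀ i, x i ≠ 0) ∧ Function.Injective x

/-- the coordinates of the configuration -/
def wx {n : ℕ} (x : Fin (n + 1) → ℤ) : Fin n → ℚ := fun j => (x j.succ : ℚ) / x 0

lemma Cf_wx {n : ℕ} {x : Fin (n + 1) → ℤ} (h : Cx x) : Cf (wx x) := by
  have h0 : (x 0 : ℚ) ≠ 0 := by exact_mod_cast h.2.1 0
  refine ⟨?_, ?_, ?_⟩
  · intro i
    have : (x i.succ : ℚ) ≠ 0 := by exact_mod_cast h.2.1 i.succ
    exact div_ne_zero this h0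
  · intro i hi
    have h1 : (x i.succ : ℚ) = x 0 := by
      unfold wx at hi
      rwa [div_eq_one_iff_eq h0] at hi
    exact Fin.succ_ne_zero i (h.2.2 (by exact_mod_cast h1))
  · intro i j hij
    have h1 : (x i.succ : ℚ) = x j.succ := by
      unfold wx at hij
      exact (div_left_inj' h0).1 hij
    exact Fin.succ_injective _ (h.2.2 (by exact_mod_cast h1))

lemma Bd_wx {n : ℕ} {x : Fin (n + 1) → ℤ} (h : Cx x) (P : Finset ℕ)
    (h1 : ∀ p : ℕ, p.Prime → ∀ i, (p : ℤ) ∣ x i → p ∈ P)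
    (h2 : ∀ p : ℕ, p.Prime → ∀ i j, i ≠ j → (p : ℤ) ∣ x i - x j → p ∈ P) : Bd (wx x) ⊆ P := by
  intro p hp
  have hpp := Bd_prime hp
  have hpi : Prime (p : ℤ) := Nat.prime_iff_prime_int.1 hpp
  have h0 : x 0 ≠ 0 := h.2.1 0
  have h0q : (x 0 : ℚ) ≠ 0 := by exact_mod_cast h0
  unfold Bd at hp
  rw [mem_union, mem_biUnion, mem_biUnion] at hp
  rcases hp with ⟨i, -, hi⟩ | ⟨ij, -, hij⟩
  · have hd : (p : ℤ) ∣ (wx x i).num * (wx x i).den * ((wx x i).num - (wx x i).den) :=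
      Int.natCast_dvd.2 (Nat.dvd_of_mem_primeFactors hi)
    obtain ⟨g, e1, e2⟩ := Rat.exists_eq_mul_div_num_and_eq_mul_div_den (x i.succ) h0
    change x i.succ = g * (wx x i).num at e1
    change x 0 = g * (wx x i).den at e2
    rcases hpi.dvd_or_dvd hd with h3 | h3
    · rcases hpi.dvd_or_dvd h3 with h4 | h4
      · exact h1 p hpp i.succ (by rw [e1]; exact Dvd.dvd.mul_left h4 _)
      · exact h1 p hpp 0 (by rw [e2]; exact Dvd.dvd.mul_left h4 _)
    · exact h2 p hpp i.succ 0 (Fin.succ_ne_zero i) (by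
        rw [e1, e2, ← mul_sub]; exact Dvd.dvd.mul_left h3 _)
  · obtain ⟨i, j⟩ := ij
    have hne : i ≠ j := by
      rintro rfl
      simp at hij
    have e : wx x i - wx x j = ((x i.succ - x j.succ : ℤ) : ℚ) / x 0 := by
      unfold wx
      push_cast
      ring
    have hd : (p : ℤ) ∣ (wx x i - wx x j).num := Int.natCast_dvd.2 (Nat.dvd_of_mem_primeFactors hij)
    obtain ⟨g, e1, -⟩ := Rat.exists_eq_mul_div_num_and_eq_mul_div_den (x i.succ - x j.succ) h0
    rw [← e] at e1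
    exact h2 p hpp i.succ j.succ (fun hh => hne (Fin.succ_injective _ hh)) (by
      rw [e1]; exact Dvd.dvd.mul_left hd _)

lemma ht_wx {n : ℕ} {x : Fin (n + 1) → ℤ} (h : Cx x) {H : ℕ} (hH : ∀ l, (x l).natAbs ≤ H) :
    ∀ i, (wx x i).num.natAbs ≤ H ∧ (wx x i).den ≤ H :=
  fun i => frac_le (h.2.1 i.succ) (h.2.1 0) (hH _) (hH _)

/-- a configuration has only two vectors -/
lemma wx_inj {n : ℕ} {x y : Fin (n + 1) → ℤ} (hx : Cx x) (hy : Cx y) (h : wx x = wx y) :
    y = x ∨ y = -x := by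
  have hx0 := hx.2.1 0
  have hy0 := hy.2.1 0
  have hx0q : (x 0 : ℚ) ≠ 0 := by exact_mod_cast hx0
  have hy0q : (y 0 : ℚ) ≠ 0 := by exact_mod_cast hy0
  have h4 : ∀ l, y 0 * x l = x 0 * y l := by
    intro l
    refine Fin.cases (mul_comm _ _) (fun j => ?_) l
    have h1 := congrFun h j
    unfold wx at h1
    rw [div_eq_div_iff hx0q hy0q] at h1
    have h2 : x j.succ * y 0 = y j.succ * x 0 := by exact_mod_cast h1
    linarith
  have h5 : univ.gcd (fun l => y 0 * x l) = univ.gcd (fun l => x 0 * y l) := by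
    congr 1
    funext l
    exact h4 l
  rw [Finset.gcd_mul_left, Finset.gcd_mul_left, hx.1, hy.1, mul_one, mul_one] at h5
  have h6 : |y 0| = |x 0| := by
    rw [Int.abs_eq_normalize, Int.abs_eq_normalize]
    exact h5
  rcases abs_eq_abs.1 h6 with h7 | h7
  · left
    funext l
    have := h4 l
    rw [h7] at this
    exact (mul_left_cancel₀ hx0 this).symm
  · right
    funext l
    have := h4 l
    rw [h7] at this
    have h8 : x 0 * (-x l) = x 0 * y l := by linarith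
    have h9 := mul_left_cancel₀ hx0 h8
    rw [Pi.neg_apply]
    exact h9.symm

/-- **configurations of moderate height** -/
theorem mods (m : ℕ) (κ : ℝ) (hκ : 0 ≤ κ) (ε : ℝ) (hε : 0 < ε) : ∃ C : ℝ, 0 < C ∧
    ∀ X : ℝ, 1 ≤ X → ∀ Q : Finset (Fin (m + 2 + 1) → ℤ),
    (∀ x ∈ Q, Cx x ∧ (Bz (wx x) : ℝ) ≤ X ∧ ∀ l, ((x l).natAbs : ℝ) ≤ X ^ κ) →
    (Q.card : ℝ) ≤ C * X ^ (3 / 5 + ε) := by
  classical
  obtain ⟨δ, hδ⟩ : ∃ δ, δ = min ε (1 / 100) := ⟨_, rfl⟩
  have hδ0 : 0 < δ := by rw [hδ]; exact lt_min hε (by norm_num)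
  have hδ1 : δ ≤ ε := by rw [hδ]; exact min_le_left _ _
  have hδ2 : δ ≤ 1 / 100 := by rw [hδ]; exact min_le_right _ _
  obtain ⟨M, hM⟩ : ∃ M : ℕ, M = ⌈κ⌉₊ + 1 := ⟨_, rfl⟩
  obtain ⟨C, hC, h⟩ := confs m M (by omega) δ hδ0 hδ2
  refine ⟨2 * (C * 2 ^ (3 / 5 + δ)), by positivity, ?_⟩
  intro X hX Q hQ
  have hX0 : 0 < X := by linarith
  obtain ⟨N, hN⟩ : ∃ N : ℕ, N = ⌊X⌋₊ + 1 := ⟨_, rfl⟩
  have hfl : 1 ≤ ⌊X⌋₊ := (Nat.one_le_floor_iff X).2 hX
  have hN2 : 2 ≤ N := by omega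
  have hXN : X ≤ N := by
    rw [hN]
    push_cast
    exact (Nat.lt_floor_add_one X).le
  have hNX : (N : ℝ) ≤ 2 * X := by
    rw [hN]
    push_cast
    have := Nat.floor_le hX0.le
    linarith
  have hN0 : (0 : ℝ) < N := by linarith
  have hN1 : (1 : ℝ) ≤ N := by linarith
  -- the images
  have h1 : ((Q.image wx).card : ℝ) ≤ C * (N : ℝ) ^ δ * (N : ℝ) ^ ((3 : ℝ) / 5) := by
    apply h N N hN2 (by omega) le_rfl
    intro w hw
    rw [mem_image] at hw
    obtain ⟨x, hx, rfl⟩ := hw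
    obtain ⟨g1, g2, g3⟩ := hQ x hx
    refine ⟨Cf_wx g1, ?_, ht_wx g1 ?_⟩
    · exact_mod_cast g2.trans hXN
    · intro l
      have e1 : X ^ κ ≤ (N : ℝ) ^ M := by
        calc X ^ κ ≤ (N : ℝ) ^ κ := Real.rpow_le_rpow hX0.le hXN hκ
          _ ≤ (N : ℝ) ^ (M : ℝ) := by
              apply Real.rpow_le_rpow_of_exponent_le hN1
              rw [hM]
              push_cast
              have := Nat.le_ceil κ
              linarith
          _ = (N : ℝ) ^ M := Real.rpow_natCast _ _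
      exact_mod_cast (g3 l).trans e1
  -- two vectors for each
  have h2 : Q.card ≤ 2 * (Q.image wx).card := by
    apply Finset.card_le_mul_card_image
    intro w hw
    rw [mem_image] at hw
    obtain ⟨x, hx, rfl⟩ := hw
    have h3 : (Q.filter fun y => wx y = wx x) ⊆ {x, -x} := by
      intro y hy
      rw [mem_filter] at hy
      rw [mem_insert, mem_singleton]
      exact wx_inj (hQ x hx).1 (hQ y hy.1).1 hy.2.symm
    exact (card_le_card h3).trans card_le_two
  have h2' : (Q.card : ℝ) ≤ 2 * (Q.image wx).card := by exact_mod_cast h2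
  calc (Q.card : ℝ) ≤ 2 * (Q.image wx).card := h2'
    _ ≤ 2 * (C * (N : ℝ) ^ δ * (N : ℝ) ^ ((3 : ℝ) / 5)) := by linarith
    _ = 2 * (C * (N : ℝ) ^ (3 / 5 + δ)) := by
        rw [mul_assoc, ← Real.rpow_add hN0, add_comm δ]
    _ ≤ 2 * (C * (2 * X) ^ (3 / 5 + δ)) := by
        have := Real.rpow_le_rpow hN0.le hNX (by linarith : (0 : ℝ) ≤ 3 / 5 + δ)
        have := mul_le_mul_of_nonneg_left this hC.le
        linarith
    _ = 2 * (C * 2 ^ (3 / 5 + δ)) * X ^ (3 / 5 + δ) := by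
        rw [Real.mul_rpow (by norm_num) hX0.le]
        ring
    _ ≤ 2 * (C * 2 ^ (3 / 5 + δ)) * X ^ (3 / 5 + ε) := by
        apply mul_le_mul_of_nonneg_left _ (by positivity)
        exact Real.rpow_le_rpow_of_exponent_le hX (by linarith)

lemma vl_single {n q : ℕ} {L : Fin q → Fin (n + 1) → ℤ} {j : Fin q} {i : Fin (n + 1)}
    (h : L j = Pi.single i 1) (x : Fin (n + 1) → ℤ) : vl L x j = x i := by
  unfold vl
  rw [h, Finset.sum_eq_single i]
  · rw [Pi.single_eq_same, one_mul]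
  · intro l _ hl
    rw [Pi.single_eq_of_ne hl, zero_mul]
  · intro h
    exact absurd (mem_univ _) h

lemma vl_sub {n q : ℕ} {L : Fin q → Fin (n + 1) → ℤ} {j : Fin q} {i i' : Fin (n + 1)}
    (h : L j = Pi.single i 1 - Pi.single i' 1) (x : Fin (n + 1) → ℤ) : vl L x j = x i - x i' := by
  have h1 : ∀ i : Fin (n + 1), ∑ l, Pi.single (M := fun _ => ℤ) i 1 l * x l = x i := by
    intro i
    rw [Finset.sum_eq_single i]
    · rw [Pi.single_eq_same, one_mul]
    · intro l _ hl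
      rw [Pi.single_eq_of_ne hl, zero_mul]
    · intro h
      exact absurd (mem_univ _) h
  unfold vl
  rw [← h1 i, ← h1 i', ← Finset.sum_sub_distrib]
  refine Finset.sum_congr rfl fun l _ => ?_
  rw [h]
  show (Pi.single (M := fun _ => ℤ) i 1 l - Pi.single (M := fun _ => ℤ) i' 1 l) * x l = _
  ring

lemma Cx_of {n q : ℕ} {L : Fin q → Fin (n + 1) → ℤ} (hL : LinkedTriples.ContainsBraid L)
    {x : Fin (n + 1) → ℤ} (h : univ.gcd x = 1) (h0 : ∀ i, vl L x i ≠ 0) : Cx x := by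
  refine ⟨h, ?_, ?_⟩
  · intro i
    obtain ⟨j, hj⟩ := hL.1 i
    rw [← vl_single hj x]
    exact h0 j
  · intro i i' hii
    by_contra hne
    obtain ⟨j, hj⟩ := hL.2 i i' hne
    apply h0 j
    rw [vl_sub hj x, hii, sub_self]

lemma Bz_le {n q : ℕ} {L : Fin q → Fin (n + 1) → ℤ} (hL : LinkedTriples.ContainsBraid L)
    {x : Fin (n + 1) → ℤ} (h : univ.gcd x = 1) (h0 : ∀ i, vl L x i ≠ 0) (S : Finset ℕ) :
    Bz (wx x) ≤ rd S L x * ∏ p ∈ S.filter Nat.Prime, p := by
  classical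
  have hc := Cx_of hL h h0
  have hne : (∏ i, vl L x i).natAbs ≠ 0 :=
    Int.natAbs_ne_zero.2 (Finset.prod_ne_zero_iff.2 fun i _ => h0 i)
  have hmem : ∀ p : ℕ, p.Prime → ∀ j, (p : ℤ) ∣ vl L x j →
      p ∈ (∏ i, vl L x i).natAbs.primeFactors := by
    intro p hp j hj
    rw [Nat.mem_primeFactors]
    exact ⟨hp, Int.natCast_dvd.1 (hj.trans (Finset.dvd_prod_of_mem _ (mem_univ j))), hne⟩
  have h1 : Bd (wx x) ⊆ (∏ i, vl L x i).natAbs.primeFactors := by
    apply Bd_wx hc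
    · intro p hp i hi
      obtain ⟨j, hj⟩ := hL.1 i
      rw [← vl_single hj x] at hi
      exact hmem p hp j hi
    · intro p hp i i' hii hi
      obtain ⟨j, hj⟩ := hL.2 i i' hii
      rw [← vl_sub hj x] at hi
      exact hmem p hp j hi
  have h2 : (∏ i, vl L x i).natAbs.primeFactors ⊆
      ((∏ i, vl L x i).natAbs.primeFactors \ S) ∪ S.filter Nat.Prime := by
    intro p hp
    rw [mem_union, mem_sdiff, mem_filter]
    by_cases hS : p ∈ S
    · exact Or.inr ⟨hS, Nat.prime_of_mem_primeFactors hp⟩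
    · exact Or.inl ⟨hp, hS⟩
  have h3 : ∀ p ∈ ((∏ i, vl L x i).natAbs.primeFactors \ S) ∪ S.filter Nat.Prime, p.Prime := by
    intro p hp
    rw [mem_union, mem_sdiff, mem_filter] at hp
    rcases hp with hp | hp
    · exact Nat.prime_of_mem_primeFactors hp.1
    · exact hp.2
  calc Bz (wx x) ≤ ∏ p ∈ ((∏ i, vl L x i).natAbs.primeFactors \ S) ∪ S.filter Nat.Prime, p :=
        prod_le_of_subset (h1.trans h2) h3
    _ = rd S L x * ∏ p ∈ S.filter Nat.Prime, p := by
        rw [Finset.prod_union]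
        · rfl
        · rw [Finset.disjoint_left]
          intro p hp hp'
          exact (mem_sdiff.1 hp).2 (mem_filter.1 hp').1

/-- **the points off a braid arrangement of dimension at least two** -/
theorem braid_all {n q : ℕ} (hn : 2 ≤ n) {L : Fin q → Fin (n + 1) → ℤ}
    (hL : LinkedTriples.ContainsBraid L) (S : Finset ℕ) (ε : ℝ) (hε : 0 < ε) :
    ∃ C : ℝ, 0 < C ∧ ∀ X : ℝ, 1 ≤ X → ∀ Q : Finset (Fin (n + 1) → ℤ),
      (∀ x ∈ Q, univ.gcd x = 1 ∧ (∀ i, vl L x i ≠ 0) ∧ (rd S L x : ℝ) ≤ X) →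
      (Q.card : ℝ) ≤ C * X ^ (3 / 5 + ε) := by
  classical
  obtain ⟨κ, C₁, hC₁, h1⟩ := LinkedTriples.result.1 3 n q L le_rfl hn
    (LinkedTriples.pencils_of_braid hL) S ε hε
  obtain ⟨m, rfl⟩ : ∃ m, n = m + 2 := ⟨n - 2, by omega⟩
  obtain ⟨C₂, hC₂, h2⟩ := mods m (max κ 0) (le_max_right _ _) ε hε
  obtain ⟨s, hs⟩ : ∃ s, s = ∏ p ∈ S.filter Nat.Prime, p := ⟨_, rfl⟩
  have hs1 : 0 < s := by
    rw [hs]
    apply Finset.prod_pos
    intro p hp
    exact (mem_filter.1 hp).2.pos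
  have hsr : (1 : ℝ) ≤ s := by exact_mod_cast hs1
  refine ⟨C₁ + C₂ * s ^ (3 / 5 + ε), by positivity, ?_⟩
  intro X hX Q hQ
  have hX0 : 0 < X := by linarith
  obtain ⟨e1, e2⟩ := h1 X hX
  obtain ⟨E, hE⟩ : ∃ E, E = Q.filter fun x => x ∈ LinkedTriples.Exceptional S L κ X := ⟨_, rfl⟩
  obtain ⟨F, hF⟩ : ∃ F, F = Q.filter fun x => x ∉ LinkedTriples.Exceptional S L κ X := ⟨_, rfl⟩
  have hcard : Q.card = E.card + F.card := by
    rw [hE, hF]
    exact (Finset.card_filter_add_card_filter_not _).symm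
  have hEc : (E.card : ℝ) ≤ C₁ * X ^ (3 / 5 + ε) := by
    have h3 : E.card ≤ (LinkedTriples.Exceptional S L κ X).ncard := by
      rw [← Set.ncard_coe_finset]
      apply Set.ncard_le_ncard _ e1
      intro x hx
      rw [mem_coe, hE, mem_filter] at hx
      exact hx.2
    have h3' : (E.card : ℝ) ≤ ((LinkedTriples.Exceptional S L κ X).ncard : ℝ) := by exact_mod_cast h3
    refine h3'.trans (e2.trans ?_)
    apply mul_le_mul_of_nonneg_left _ hC₁.le
    apply Real.rpow_le_rpow_of_exponent_le hX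
    push_cast
    linarith
  have hFc : (F.card : ℝ) ≤ C₂ * (X * s) ^ (3 / 5 + ε) := by
    apply h2 (X * s) (one_le_mul_of_one_le_of_one_le hX hsr)
    intro x hx
    rw [hF, mem_filter] at hx
    obtain ⟨hxQ, hxE⟩ := hx
    obtain ⟨g1, g2, g3⟩ := hQ x hxQ
    have hr := rd_pos S L x
    have hr' : (0 : ℝ) < rd S L x := by exact_mod_cast hr
    refine ⟨Cx_of hL g1 g2, ?_, ?_⟩
    · have h4 := Bz_le hL g1 g2 S
      rw [← hs] at h4
      have h4' : (Bz (wx x) : ℝ) ≤ rd S L x * s := by exact_mod_cast h4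
      exact h4'.trans (mul_le_mul_of_nonneg_right g3 (by linarith))
    · intro l
      have h5 : ¬ κ * LinkedTriples.counting S L x < LinkedTriples.height x := by
        intro h6
        apply hxE
        refine ⟨⟨g1, g2⟩, ?_, h6⟩
        rw [LinkedTriples.counting_eq]
        exact Real.log_le_log hr' g3
      rw [not_lt, LinkedTriples.counting_eq] at h5
      have h6 : Real.log (rd S L x) ≤ Real.log X := Real.log_le_log hr' g3
      have h7 : 0 ≤ Real.log (rd S L x) := Real.log_nonneg (by exact_mod_cast hr)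
      have h8 : LinkedTriples.height x ≤ max κ 0 * Real.log X := by
        calc LinkedTriples.height x ≤ κ * Real.log (rd S L x) := h5
          _ ≤ max κ 0 * Real.log (rd S L x) := mul_le_mul_of_nonneg_right (le_max_left _ _) h7
          _ ≤ max κ 0 * Real.log X := mul_le_mul_of_nonneg_left h6 (le_max_right _ _)
      have hh := hx_pos g1
      have h9 : ((hx x : ℕ) : ℝ) ≤ X ^ (max κ 0) := by
        have h10 : LinkedTriples.height x = Real.log (hx x : ℕ) := rfl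
        rw [h10] at h8
        have hh' : (0 : ℝ) < (hx x : ℕ) := by exact_mod_cast hh
        calc ((hx x : ℕ) : ℝ) = Real.exp (Real.log (hx x : ℕ)) := (Real.exp_log hh').symm
          _ ≤ Real.exp (max κ 0 * Real.log X) := Real.exp_le_exp.2 h8
          _ = X ^ (max κ 0) := by rw [Real.rpow_def_of_pos hX0, mul_comm]
      have h11 : ((x l).natAbs : ℝ) ≤ ((hx x : ℕ) : ℝ) := by exact_mod_cast le_hx x l
      refine (h11.trans h9).trans ?_
      exact Real.rpow_le_rpow hX0.le (le_mul_of_one_le_right hX0.le hsr) (le_max_right _ _)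
  calc (Q.card : ℝ) = E.card + F.card := by rw [hcard]; push_cast; rfl
    _ ≤ C₁ * X ^ (3 / 5 + ε) + C₂ * (X * s) ^ (3 / 5 + ε) := add_le_add hEc hFc
    _ = _ := by
        rw [Real.mul_rpow hX0.le (by linarith)]
        ring

end Pool.Agent.H583.GD
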