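import Pool.Agent.H583.GD.R

/-!
Lower bounds for the number of configurations.
-/

set_option autoImplicit false

namespace Pool.Agent.H583.GD

open Finset Pool.Agent.H583.AR Pool.Agent.Results.MP_2ec8a3_nt

/-- many configurations from a family with parameters `p`, `q` -/
theorem lower_gen {n : ℕ} (e : ℕ × ℕ → Fin (n + 1) → ℤ) (W : ℕ × ℕ → ℕ) (A k : ℕ) (hA : 1 ≤ A)
    (hk : 1 ≤ k)
    (he : ∀ z : ℕ × ℕ, 0 < z.1 → 0 < z.2 → Nat.Coprime z.1 z.2 → z.1 ≠ z.2 → Cx (e z) ∧ W z ≠ 0 ∧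
      (∀ p : ℕ, p.Prime → (p : ℤ) ∣ disc (e z) → p ∣ W z) ∧
      ∀ H, z.1 ≤ H → z.2 ≤ H → W z ≤ A * H ^ k)
    (hinj : Function.Injective e) (S : Finset ℕ) {X : ℝ} (hX : (A : ℝ) * 6 ^ k ≤ X)
    (hfin : {x : Fin (n + 1) → ℤ | Cx x ∧ (rdc S x : ℝ) ≤ X}.Finite) :
    1 / 32 * (X / A) ^ (2 / (k : ℝ)) ≤
      (({x : Fin (n + 1) → ℤ | Cx x ∧ (rdc S x : ℝ) ≤ X}.ncard : ℕ) : ℝ) := by
  classical
  have hA0 : (0 : ℝ) < A := by exact_mod_cast hA
  have hk0 : (0 : ℝ) < k := by exact_mod_cast hk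
  have hXA : (6 : ℝ) ^ k ≤ X / A := by
    rw [le_div_iff₀ hA0]
    linarith
  have hXA0 : 0 < X / A := lt_of_lt_of_le (by positivity) hXA
  obtain ⟨Y, hY⟩ : ∃ Y : ℝ, Y = (X / A) ^ (1 / (k : ℝ)) := ⟨_, rfl⟩
  have hY0 : 0 ≤ Y := by rw [hY]; positivity
  have hYk : Y ^ k = X / A := by
    rw [hY, ← Real.rpow_natCast, ← Real.rpow_mul hXA0.le, one_div, inv_mul_cancel₀ hk0.ne',
      Real.rpow_one]
  have hY6 : 6 ≤ Y := by
    apply le_of_pow_le_pow_left₀ (by omega : k ≠ 0) hY0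
    rw [hYk]
    exact hXA
  obtain ⟨H, hH⟩ : ∃ H : ℕ, H = ⌊Y⌋₊ := ⟨_, rfl⟩
  have hH1 : (H : ℝ) ≤ Y := by rw [hH]; exact Nat.floor_le hY0
  have hH2 : Y / 2 ≤ H := by
    have h1 : Y < H + 1 := by rw [hH]; exact Nat.lt_floor_add_one _
    linarith
  have hHX : (A : ℝ) * (H : ℝ) ^ k ≤ X := by
    have : (H : ℝ) ^ k ≤ Y ^ k := pow_le_pow_left₀ (Nat.cast_nonneg _) hH1 k
    rw [hYk, le_div_iff₀ hA0] at this
    linarith
  obtain ⟨R, hR⟩ : ∃ R, R = (Pool.Agent.TH867.SB.Lb.rect H H).filter fun z => z.1 ≠ z.2 :=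
    ⟨_, rfl⟩
  have hmem : ∀ z ∈ R, 0 < z.1 ∧ z.1 ≤ H ∧ 0 < z.2 ∧ z.2 ≤ H ∧ Nat.Coprime z.1 z.2 ∧
      z.1 ≠ z.2 := by
    intro z hz
    rw [hR, mem_filter] at hz
    obtain ⟨h1, h2⟩ := hz
    unfold Pool.Agent.TH867.SB.Lb.rect at h1
    rw [mem_filter, mem_product, mem_Ioc, mem_Ioc] at h1
    exact ⟨h1.1.1.1, h1.1.1.2, h1.1.2.1, h1.1.2.2, h1.2, h2⟩
  have hR1 : (H : ℝ) * H / 4 - 1 ≤ R.card := by
    have h1 := Pool.Agent.TH867.SB.Lb.rect_count H H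
    have h2 : Pool.Agent.TH867.SB.Lb.rect H H ⊆ insert (1, 1) R := by
      intro z hz
      rw [mem_insert, hR, mem_filter]
      by_cases h : z.1 = z.2
      · left
        unfold Pool.Agent.TH867.SB.Lb.rect at hz
        rw [mem_filter] at hz
        have h3 := hz.2
        rw [← h, Nat.coprime_self] at h3
        exact Prod.ext h3 (h ▸ h3)
      · exact Or.inr ⟨hz, h⟩
    have h3 := (card_le_card h2).trans (card_insert_le _ _)
    have h4 : ((Pool.Agent.TH867.SB.Lb.rect H H).card : ℝ) ≤ R.card + 1 := by exact_mod_cast h3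
    linarith
  have hin : ∀ z ∈ R, e z ∈ {x : Fin (n + 1) → ℤ | Cx x ∧ (rdc S x : ℝ) ≤ X} := by
    intro z hz
    obtain ⟨h1, h2, h3, h4, h5, h6⟩ := hmem z hz
    obtain ⟨g1, g2, g3, g4⟩ := he z h1 h3 h5 h6
    refine ⟨g1, ?_⟩
    have h7 : rdc S (e z) ∣ W z := by
      unfold rdc
      apply Finset.prod_primes_dvd
      · intro p hp
        exact (Nat.prime_of_mem_primeFactors (mem_sdiff.1 hp).1).prime
      · intro p hp
        rw [mem_sdiff, Nat.mem_primeFactors] at hp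
        exact g3 p hp.1.1 (Int.natCast_dvd.2 hp.1.2.1)
    have h8 : rdc S (e z) ≤ A * H ^ k :=
      (Nat.le_of_dvd (Nat.pos_of_ne_zero g2) h7).trans (g4 H h2 h4)
    have h9 : (rdc S (e z) : ℝ) ≤ (A : ℝ) * (H : ℝ) ^ k := by exact_mod_cast h8
    exact h9.trans hHX
  have hcard : R.card ≤ {x : Fin (n + 1) → ℤ | Cx x ∧ (rdc S x : ℝ) ≤ X}.ncard := by
    rw [← card_image_of_injective _ hinj, ← Set.ncard_coe_finset]
    apply Set.ncard_le_ncard _ hfin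
    intro x hx
    rw [coe_image] at hx
    obtain ⟨z, hz, rfl⟩ := hx
    exact hin z hz
  have h1 : (X / A) ^ (2 / (k : ℝ)) = Y ^ 2 := by
    rw [hY, ← Real.rpow_natCast, ← Real.rpow_mul hXA0.le]
    congr 1
    push_cast
    ring
  have h2 : (Y / 2) * (Y / 2) ≤ (H : ℝ) * H :=
    mul_le_mul hH2 hH2 (by positivity) (Nat.cast_nonneg _)
  have h4 : (R.card : ℝ) ≤
      (({x : Fin (n + 1) → ℤ | Cx x ∧ (rdc S x : ℝ) ≤ X}.ncard : ℕ) : ℝ) := by exact_mod_cast hcard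
  rw [h1]
  nlinarith

/-- the points `0`, `∞`, `q`, `-q`, `p` -/
def e3 (z : ℕ × ℕ) : Fin 3 → ℤ := ![(z.2 : ℤ), -(z.2 : ℤ), (z.1 : ℤ)]

/-- the bad primes of this configuration -/
def w3 (z : ℕ × ℕ) : ℕ := (2 * (z.1 : ℤ) * z.2 * (z.1 - z.2) * (z.1 + z.2)).natAbs

theorem e3_ok (z : ℕ × ℕ) (h1 : 0 < z.1) (h2 : 0 < z.2) (h3 : Nat.Coprime z.1 z.2)
    (h4 : z.1 ≠ z.2) : Cx (e3 z) ∧ w3 z ≠ 0 ∧
      (∀ p : ℕ, p.Prime → (p : ℤ) ∣ disc (e3 z) → p ∣ w3 z) ∧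
      ∀ H, z.1 ≤ H → z.2 ≤ H → w3 z ≤ 4 * H ^ 4 := by
  obtain ⟨a, ha⟩ : ∃ a : ℤ, a = (z.1 : ℤ) := ⟨_, rfl⟩
  obtain ⟨b, hb⟩ : ∃ b : ℤ, b = (z.2 : ℤ) := ⟨_, rfl⟩
  have ha0 : 0 < a := by rw [ha]; exact_mod_cast h1
  have hb0 : 0 < b := by rw [hb]; exact_mod_cast h2
  have hab : a ≠ b := by rw [ha, hb]; exact_mod_cast h4
  have he0 : e3 z 0 = b := by rw [hb]; rfl
  have he1 : e3 z 1 = -b := by rw [hb]; rfl
  have he2 : e3 z 2 = a := by rw [ha]; rfl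
  have hw : w3 z = (2 * a * b * (a - b) * (a + b)).natAbs := by rw [ha, hb]; rfl
  have hne : 2 * a * b * (a - b) * (a + b) ≠ 0 := by
    have e1 : a - b ≠ 0 := sub_ne_zero.2 hab
    positivity
  refine ⟨⟨?_, ?_, ?_⟩, ?_, ?_, ?_⟩
  · apply gcd_one (i := 2) (j := 0)
    rw [he0, he2, ha, hb, Nat.isCoprime_iff_coprime]
    exact h3
  · intro i
    fin_cases i
    · show e3 z 0 ≠ 0
      rw [he0]; exact hb0.ne'
    · show e3 z 1 ≠ 0
      rw [he1]; omega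
    · show e3 z 2 ≠ 0
      rw [he2]; exact ha0.ne'
  · have k01 : e3 z 0 ≠ e3 z 1 := by rw [he0, he1]; omega
    have k02 : e3 z 0 ≠ e3 z 2 := by rw [he0, he2]; exact hab.symm
    have k12 : e3 z 1 ≠ e3 z 2 := by rw [he1, he2]; omega
    intro i j hij
    fin_cases i <;> fin_cases j <;> first | rfl | skip
    · exact absurd hij k01
    · exact absurd hij k02
    · exact absurd hij k01.symm
    · exact absurd hij k12
    · exact absurd hij k02.symm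
    · exact absurd hij k12.symm
  · rw [hw]
    exact Int.natAbs_ne_zero.2 hne
  · intro p hp hd
    have hpi : Prime (p : ℤ) := Nat.prime_iff_prime_int.1 hp
    rw [hw, ← Int.natCast_dvd]
    have ma : (p : ℤ) ∣ a → (p : ℤ) ∣ 2 * a * b * (a - b) * (a + b) := fun h => by
      rw [show 2 * a * b * (a - b) * (a + b) = a * (2 * b * (a - b) * (a + b)) by ring]
      exact Dvd.dvd.mul_right h _
    have mb : (p : ℤ) ∣ b → (p : ℤ) ∣ 2 * a * b * (a - b) * (a + b) := fun h => by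
      rw [show 2 * a * b * (a - b) * (a + b) = b * (2 * a * (a - b) * (a + b)) by ring]
      exact Dvd.dvd.mul_right h _
    have m2 : (p : ℤ) ∣ 2 → (p : ℤ) ∣ 2 * a * b * (a - b) * (a + b) := fun h => by
      rw [show 2 * a * b * (a - b) * (a + b) = 2 * (a * b * (a - b) * (a + b)) by ring]
      exact Dvd.dvd.mul_right h _
    have ms : (p : ℤ) ∣ a - b → (p : ℤ) ∣ 2 * a * b * (a - b) * (a + b) := fun h => by
      rw [show 2 * a * b * (a - b) * (a + b) = (a - b) * (2 * a * b * (a + b)) by ring]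
      exact Dvd.dvd.mul_right h _
    have mt : (p : ℤ) ∣ a + b → (p : ℤ) ∣ 2 * a * b * (a - b) * (a + b) := fun h =>
      Dvd.dvd.mul_left h _
    have m2b : (p : ℤ) ∣ 2 * b → (p : ℤ) ∣ 2 * a * b * (a - b) * (a + b) := fun h => by
      rcases hpi.dvd_or_dvd h with h | h
      · exact m2 h
      · exact mb h
    have neg : ∀ u : ℤ, (p : ℤ) ∣ -u → (p : ℤ) ∣ u := fun u h => (dvd_neg).1 h
    rw [dvd_disc hp] at hd
    rcases hd with ⟨i, hi⟩ | ⟨i, j, hij, hd⟩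
    · fin_cases i
      · change (p : ℤ) ∣ e3 z 0 at hi
        rw [he0] at hi; exact mb hi
      · change (p : ℤ) ∣ e3 z 1 at hi
        rw [he1] at hi; exact mb (neg _ hi)
      · change (p : ℤ) ∣ e3 z 2 at hi
        rw [he2] at hi; exact ma hi
    · fin_cases i <;> fin_cases j
      · exact absurd rfl hij
      · change (p : ℤ) ∣ e3 z 0 - e3 z 1 at hd
        rw [he0, he1, show b - -b = 2 * b by ring] at hd; exact m2b hd
      · change (p : ℤ) ∣ e3 z 0 - e3 z 2 at hd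
        rw [he0, he2] at hd; exact ms (neg _ (by rwa [neg_sub]))
      · change (p : ℤ) ∣ e3 z 1 - e3 z 0 at hd
        rw [he0, he1, show -b - b = -(2 * b) by ring] at hd; exact m2b (neg _ hd)
      · exact absurd rfl hij
      · change (p : ℤ) ∣ e3 z 1 - e3 z 2 at hd
        rw [he1, he2, show -b - a = -(a + b) by ring] at hd; exact mt (neg _ hd)
      · change (p : ℤ) ∣ e3 z 2 - e3 z 0 at hd
        rw [he0, he2] at hd; exact ms hd
      · change (p : ℤ) ∣ e3 z 2 - e3 z 1 at hd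
        rw [he1, he2, sub_neg_eq_add] at hd; exact mt hd
      · exact absurd rfl hij
  · intro H hH1 hH2
    rw [hw, Int.natAbs_mul, Int.natAbs_mul, Int.natAbs_mul, Int.natAbs_mul]
    have e1 : (a - b).natAbs ≤ H := by omega
    have e2 : (a + b).natAbs ≤ 2 * H := by omega
    have e3 : a.natAbs ≤ H := by omega
    have e4 : b.natAbs ≤ H := by omega
    calc (2 : ℤ).natAbs * a.natAbs * b.natAbs * (a - b).natAbs * (a + b).natAbs ≤
          2 * H * H * H * (2 * H) := by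
          gcongr
          exact le_rfl
      _ = 4 * H ^ 4 := by ring

theorem e3_inj : Function.Injective e3 := by
  intro z z' h
  have h0 := congrFun h 0
  have h2 := congrFun h 2
  have h3 : (z.2 : ℤ) = z'.2 := h0
  have h4 : (z.1 : ℤ) = z'.1 := h2
  exact Prod.ext (by exact_mod_cast h4) (by exact_mod_cast h3)

/-- **many configurations of five points** -/
theorem lower_five (S : Finset ℕ) {X : ℝ} (hX : 5184 ≤ X) : 1 / 64 * X ^ (1 / 2 : ℝ) ≤
    (({x : Fin 3 → ℤ | Cx x ∧ (rdc S x : ℝ) ≤ X}.ncard : ℕ) : ℝ) := by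
  obtain ⟨C, -, h⟩ := count_conf (n := 2) le_rfl S 1 one_pos
  have hX1 : 1 ≤ X := by linarith
  have hfin : {x : Fin 3 → ℤ | Cx x ∧ (rdc S x : ℝ) ≤ X}.Finite :=
    (LinkedTriples.of_bound fun Q hQ => h X hX1 Q hQ).1
  have h1 := lower_gen (n := 2) e3 w3 4 4 (by norm_num) (by norm_num) e3_ok e3_inj S
    (X := X) (by norm_num; linarith) hfin
  refine le_trans (le_of_eq ?_) h1
  have e2 : (4 : ℝ) ^ (1 / 2 : ℝ) = 2 := by
    rw [show (4 : ℝ) = 2 ^ (2 : ℝ) by norm_num, ← Real.rpow_mul (by norm_num)]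
    norm_num
  have e3 : (2 / ((4 : ℕ) : ℝ)) = 1 / 2 := by norm_num
  rw [e3, Nat.cast_ofNat, Real.div_rpow (by linarith) (by norm_num), e2]
  ring

end Pool.Agent.H583.GD
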