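import Pool.Agent.H583.GD.H
import Pool.Graph.R_pool_sql_team_seeded_707910d6.T2H21.RS.AllH
import Pool.Graph.R_seed8.TH867.SB.LbA

/-!
Configurations of points of the line: the count in terms of the discriminant, random sets of primes,
lower bounds.
-/

set_option autoImplicit false

namespace Pool.Agent.H583.GD

open Finset MeasureTheory ProbabilityTheory Pool.Agent.H583.AR
open Pool.Agent.Results.MP_2ec8a3_nt

/-- the index set of the braid arrangement -/
abbrev Jx (n : ℕ) : Type := Fin (n + 1) ⊕ {p : Fin (n + 1) × Fin (n + 1) // p.1 ≠ p.2}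

/-- the form of an index -/
def bform (n : ℕ) : Jx n → Fin (n + 1) → ℤ
  | Sum.inl i => Pi.single i 1
  | Sum.inr p => Pi.single p.1.1 1 - Pi.single p.1.2 1

/-- the braid arrangement -/
noncomputable def braid (n : ℕ) : Fin (Fintype.card (Jx n)) → Fin (n + 1) → ℤ :=
  fun j => bform n ((Fintype.equivFin (Jx n)).symm j)

theorem braid_apply (n : ℕ) (t : Jx n) : braid n (Fintype.equivFin (Jx n) t) = bform n t := by
  unfold braid
  rw [Equiv.symm_apply_apply]

theorem braid_contains (n : ℕ) : LinkedTriples.ContainsBraid (braid n) := by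
  refine ⟨fun i => ⟨Fintype.equivFin (Jx n) (Sum.inl i), ?_⟩, fun i i' h =>
    ⟨Fintype.equivFin (Jx n) (Sum.inr ⟨(i, i'), h⟩), ?_⟩⟩
  · rw [braid_apply]
    rfl
  · rw [braid_apply]
    rfl

/-- the product of the `x_i` and the differences -/
def disc {n : ℕ} (x : Fin (n + 1) → ℤ) : ℤ :=
  (∏ i, x i) * ∏ p ∈ univ.filter (fun p : Fin (n + 1) × Fin (n + 1) => p.1 ≠ p.2), (x p.1 - x p.2)

theorem vl_inl {n : ℕ} (x : Fin (n + 1) → ℤ) (i : Fin (n + 1)) :
    vl (braid n) x (Fintype.equivFin (Jx n) (Sum.inl i)) = x i :=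
  vl_single (by rw [braid_apply]; rfl) x

theorem vl_inr {n : ℕ} (x : Fin (n + 1) → ℤ) (p : {p : Fin (n + 1) × Fin (n + 1) // p.1 ≠ p.2}) :
    vl (braid n) x (Fintype.equivFin (Jx n) (Sum.inr p)) = x p.1.1 - x p.1.2 :=
  vl_sub (by rw [braid_apply]; rfl) x

theorem disc_eq {n : ℕ} (x : Fin (n + 1) → ℤ) : ∏ i, vl (braid n) x i = disc x := by
  classical
  have h1 : ∏ i, vl (braid n) x i = ∏ t : Jx n, vl (braid n) x (Fintype.equivFin (Jx n) t) :=
    (Fintype.prod_equiv (Fintype.equivFin (Jx n)) _ _ fun t => rfl).symm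
  rw [h1, Fintype.prod_sum_type]
  unfold disc
  congr 1
  · exact Finset.prod_congr rfl fun i _ => vl_inl x i
  · rw [Finset.prod_subtype (univ.filter fun p : Fin (n + 1) × Fin (n + 1) => p.1 ≠ p.2)
      (p := fun p => p.1 ≠ p.2) (by intro p; simp) (fun p => x p.1 - x p.2)]
    exact Finset.prod_congr rfl fun p _ => vl_inr x p

theorem dvd_disc {n : ℕ} {x : Fin (n + 1) → ℤ} {p : ℕ} (hp : p.Prime) : (p : ℤ) ∣ disc x ↔
    (∃ i, (p : ℤ) ∣ x i) ∨ ∃ i j, i ≠ j ∧ (p : ℤ) ∣ x i - x j := by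
  have hpi : Prime (p : ℤ) := Nat.prime_iff_prime_int.1 hp
  unfold disc
  constructor
  · intro h
    rcases hpi.dvd_or_dvd h with h | h
    · obtain ⟨i, -, hi⟩ := (hpi.dvd_finsetProd_iff _).1 h
      exact Or.inl ⟨i, hi⟩
    · obtain ⟨q, hq, hd⟩ := (hpi.dvd_finsetProd_iff _).1 h
      exact Or.inr ⟨q.1, q.2, (mem_filter.1 hq).2, hd⟩
  · rintro (⟨i, hi⟩ | ⟨i, j, hij, hd⟩)
    · exact Dvd.dvd.mul_right (hi.trans (Finset.dvd_prod_of_mem _ (mem_univ i))) _
    · apply Dvd.dvd.mul_left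
      exact hd.trans (Finset.dvd_prod_of_mem
        (fun p : Fin (n + 1) × Fin (n + 1) => x p.1 - x p.2) (mem_filter.2 ⟨mem_univ (i, j), hij⟩))

theorem vl_ne {n : ℕ} {x : Fin (n + 1) → ℤ} (h : Cx x) (j : Fin (Fintype.card (Jx n))) :
    vl (braid n) x j ≠ 0 := by
  obtain ⟨t, rfl⟩ := (Fintype.equivFin (Jx n)).surjective j
  match t with
  | Sum.inl i => rw [vl_inl]; exact h.2.1 i
  | Sum.inr p => rw [vl_inr]; exact sub_ne_zero.2 fun hh => p.2 (h.2.2 hh)

theorem disc_ne {n : ℕ} {x : Fin (n + 1) → ℤ} (h : Cx x) : disc x ≠ 0 := by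
  rw [← disc_eq]
  exact Finset.prod_ne_zero_iff.2 fun i _ => vl_ne h i

/-- the product of the bad primes outside `S` -/
def rdc {n : ℕ} (S : Finset ℕ) (x : Fin (n + 1) → ℤ) : ℕ :=
  ∏ p ∈ (disc x).natAbs.primeFactors \ S, p

lemma rdc_pos {n : ℕ} (S : Finset ℕ) (x : Fin (n + 1) → ℤ) : 0 < rdc S x :=
  Finset.prod_pos fun _ hp => (Nat.prime_of_mem_primeFactors (mem_sdiff.1 hp).1).pos

/-- **the number of configurations** -/
theorem count_conf {n : ℕ} (hn : 2 ≤ n) (S : Finset ℕ) (ε : ℝ) (hε : 0 < ε) : ∃ C : ℝ, 0 < C ∧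
    ∀ X : ℝ, 1 ≤ X → ∀ Q : Finset (Fin (n + 1) → ℤ), (∀ x ∈ Q, Cx x ∧ (rdc S x : ℝ) ≤ X) →
      (Q.card : ℝ) ≤ C * X ^ (3 / 5 + ε) := by
  obtain ⟨C, hC, h⟩ := braid_all hn (braid_contains n) S ε hε
  refine ⟨C, hC, ?_⟩
  intro X hX Q hQ
  apply h X hX Q
  intro x hx
  obtain ⟨h1, h2⟩ := hQ x hx
  refine ⟨h1.1, vl_ne h1, ?_⟩
  unfold rd
  rw [disc_eq]
  exact h2

section

variable {Ω : Type*} [MeasurableSpace Ω]

open Pool.Agent.T2H21.RS in
/-- Borel–Cantelli for families with few bad primes -/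
theorem bc {α : Type*} [Countable α] (P : Measure Ω) [IsProbabilityMeasure P] {E : ℕ → Set Ω}
    (hind : iIndepSet E P) {γ : ℝ}
    (hP : ∀ p : ℕ, p.Prime → P (E p) = ENNReal.ofReal ((p : ℝ) ^ (-γ)))
    (B : α → Finset ℕ) (hB : ∀ a, ∀ p ∈ B a, p.Prime) {C θ : ℝ} (hθ : 0 ≤ θ) (hθγ : θ < γ)
    (h : ∀ X : ℕ, 1 ≤ X → ∀ s : Finset α, (∀ a ∈ s, ∏ p ∈ B a, p ≤ X) →
      (s.card : ℝ) ≤ C * (X : ℝ) ^ θ) :
    ∀ᵐ ω ∂P, {a : α | ∀ p ∈ B a, ω ∈ E p}.Finite := by
  have hpos : ∀ a, 1 ≤ ∏ p ∈ B a, p := fun a => Finset.prod_pos fun p hp => (hB a p hp).pos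
  have hsum := summable_rpow (fun a => ∏ p ∈ B a, p) hpos hθ hθγ h
  have hle : ∀ a, P (Sel E (B a)) = ENNReal.ofReal (((∏ p ∈ B a, p : ℕ) : ℝ) ^ (-γ)) := by
    intro a
    rw [← sel_prob P hind hP (B a) (hB a), measureReal_def, ENNReal.ofReal_toReal (measure_ne_top P _)]
  have hfin : ∑' a, P (Sel E (B a)) ≠ ⊤ := by
    simp_rw [hle]
    exact hsum.tsum_ofReal_ne_top
  filter_upwards [ae_finite_setOfPred_mem hfin] with ω hω
  refine hω.subset ?_
  intro a ha
  show ω ∈ Sel E (B a)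
  unfold Sel
  rw [Set.mem_iInter₂]
  exact ha

/-- the configurations of five points supported on a random set of primes -/
theorem five_ae (P : Measure Ω) [IsProbabilityMeasure P] {E : ℕ → Set Ω}
    (hind : iIndepSet E P) {γ : ℝ}
    (hP : ∀ p : ℕ, p.Prime → P (E p) = ENNReal.ofReal ((p : ℝ) ^ (-γ))) (hγ : 3 / 5 < γ)
    (S : Finset ℕ) : ∀ᵐ ω ∂P, {x : Fin 3 → ℤ | Cx x ∧
      ∀ p : ℕ, p.Prime → (p : ℤ) ∣ disc x → p ∈ S ∨ ω ∈ E p}.Finite := by
  obtain ⟨C, hC, h⟩ := count_conf (n := 2) le_rfl S ((γ - 3 / 5) / 2) (by linarith)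
  have h1 := bc P hind hP (fun x : {x : Fin 3 → ℤ // Cx x} => (disc x.1).natAbs.primeFactors \ S)
    (fun a p hp => Nat.prime_of_mem_primeFactors (mem_sdiff.1 hp).1)
    (θ := 3 / 5 + (γ - 3 / 5) / 2) (C := C) (by linarith) (by linarith) (by
      intro X hX s hs
      have h2 := h X (by exact_mod_cast hX) (s.map (Function.Embedding.subtype _)) (by
        intro x hx
        rw [Finset.mem_map] at hx
        obtain ⟨u, hu, rfl⟩ := hx
        refine ⟨u.2, ?_⟩
        have := hs u hu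
        exact_mod_cast this)
      rwa [Finset.card_map] at h2)
  filter_upwards [h1] with ω hω
  have : {x : Fin 3 → ℤ | Cx x ∧ ∀ p : ℕ, p.Prime → (p : ℤ) ∣ disc x → p ∈ S ∨ ω ∈ E p} ⊆
      Subtype.val '' {a : {x : Fin 3 → ℤ // Cx x} |
        ∀ p ∈ (disc a.1).natAbs.primeFactors \ S, ω ∈ E p} := by
    rintro x ⟨h2, h3⟩
    refine ⟨⟨x, h2⟩, ?_, rfl⟩
    intro p hp
    rw [mem_sdiff, Nat.mem_primeFactors] at hp
    exact (h3 p hp.1.1 (Int.natCast_dvd.2 hp.1.2.1)).resolve_left hp.2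
  exact (hω.image _).subset this

end

lemma gcd_one {n : ℕ} {x : Fin (n + 1) → ℤ} {i j : Fin (n + 1)} (h : IsCoprime (x i) (x j)) :
    univ.gcd x = 1 := by
  have h1 : univ.gcd x ∣ x i := Finset.gcd_dvd (mem_univ i)
  have h2 : univ.gcd x ∣ x j := Finset.gcd_dvd (mem_univ j)
  have h3 : IsUnit (univ.gcd x) := h.isUnit_of_dvd' h1 h2
  have h4 : normalize (univ.gcd x) = univ.gcd x := Finset.normalize_gcd
  rw [← h4]
  exact normalize_eq_one.2 h3

/-- if there are finitely many configurations of five points, then of five or more -/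
theorem all_dims (G : ℕ → Prop)
    (hfin : {x : Fin 3 → ℤ | Cx x ∧ ∀ p : ℕ, p.Prime → (p : ℤ) ∣ disc x → G p}.Finite) :
    {z : Σ n : ℕ, (Fin (n + 1) → ℤ) | 2 ≤ z.1 ∧ Cx z.2 ∧
      ∀ p : ℕ, p.Prime → (p : ℤ) ∣ disc z.2 → G p}.Finite := by
  classical
  obtain ⟨V, hV⟩ : ∃ V : Finset ℚ, V = hfin.toFinset.biUnion fun x => univ.image (wx (n := 2) x) :=
    ⟨_, rfl⟩
  have key : ∀ (n : ℕ) (x : Fin (n + 1) → ℤ), 2 ≤ n → Cx x →
      (∀ p : ℕ, p.Prime → (p : ℤ) ∣ disc x → G p) → ∀ i, wx x i ∈ V := by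
    intro n x hn hx hG i
    obtain ⟨i', hi'⟩ : ∃ i' : Fin n, i' ≠ i := by
      by_cases h0 : (i : ℕ) = 0
      · exact ⟨⟨1, by omega⟩, fun h => by
          have := congrArg Fin.val h
          simp only at this
          omega⟩
      · exact ⟨⟨0, by omega⟩, fun h => by
          have := congrArg Fin.val h
          simp only at this
          omega⟩
    obtain ⟨t, ht⟩ : ∃ t : Fin 3 → Fin (n + 1), t = ![0, i.succ, i'.succ] := ⟨_, rfl⟩
    have ht0 : t 0 = 0 := by rw [ht]; rfl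
    have ht1 : t 1 = i.succ := by rw [ht]; rfl
    have ht2 : t 2 = i'.succ := by rw [ht]; rfl
    have htinj : Function.Injective t := by
      have e1 : (0 : Fin (n + 1)) ≠ i.succ := (Fin.succ_ne_zero i).symm
      have e2 : (0 : Fin (n + 1)) ≠ i'.succ := (Fin.succ_ne_zero i').symm
      have e3 : i.succ ≠ i'.succ := fun h => hi' (Fin.succ_injective _ h).symm
      intro a b hab
      rw [ht] at hab
      fin_cases a <;> fin_cases b <;> first | rfl | skip
      · exact absurd hab e1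
      · exact absurd hab e2
      · exact absurd hab e1.symm
      · exact absurd hab e3
      · exact absurd hab e2.symm
      · exact absurd hab e3.symm
    obtain ⟨y, hy1, hy2⟩ := Finset.extract_gcd (s := (univ : Finset (Fin 3)))
      (fun a => x (t a)) ⟨0, mem_univ 0⟩
    obtain ⟨g, hg⟩ : ∃ g, g = (univ : Finset (Fin 3)).gcd fun a => x (t a) := ⟨_, rfl⟩
    rw [← hg] at hy1
    have hyt : ∀ a, x (t a) = g * y a := fun a => hy1 a (mem_univ a)
    have hg0 : g ≠ 0 := by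
      intro h0
      have := hyt 0
      rw [h0, zero_mul] at this
      exact hx.2.1 _ this
    have hyne : ∀ a, y a ≠ 0 := by
      intro a h0
      have := hyt a
      rw [h0, mul_zero] at this
      exact hx.2.1 _ this
    have hyinj : Function.Injective y := by
      intro a b hab
      apply htinj
      apply hx.2.2
      rw [hyt a, hyt b, hab]
    have hy : Cx y := ⟨hy2, hyne, hyinj⟩
    have hyG : ∀ p : ℕ, p.Prime → (p : ℤ) ∣ disc y → G p := by
      intro p hp hd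
      apply hG p hp
      rw [dvd_disc hp] at hd ⊢
      rcases hd with ⟨a, ha⟩ | ⟨a, b, hab, hd⟩
      · left
        exact ⟨t a, by rw [hyt a]; exact Dvd.dvd.mul_left ha _⟩
      · right
        refine ⟨t a, t b, fun h => hab (htinj h), ?_⟩
        rw [hyt a, hyt b, ← mul_sub]
        exact Dvd.dvd.mul_left hd _
    rw [hV, mem_biUnion]
    refine ⟨y, ?_, ?_⟩
    · rw [Set.Finite.mem_toFinset]
      exact ⟨hy, hyG⟩
    · rw [mem_image]
      refine ⟨0, mem_univ _, ?_⟩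
      show (y 1 : ℚ) / y 0 = (x i.succ : ℚ) / x 0
      have e0 := hyt 0
      have e1 := hyt 1
      rw [ht0] at e0
      rw [ht1] at e1
      rw [e0, e1]
      push_cast
      have hgq : (g : ℚ) ≠ 0 := by exact_mod_cast hg0
      rw [mul_div_mul_left _ _ hgq]
  -- each dimension
  have hdim : ∀ n : ℕ, {x : Fin (n + 1) → ℤ | Cx x ∧ ∀ i, wx x i ∈ V}.Finite := by
    intro n
    apply Set.Finite.of_finite_fibers wx
    · apply (Fintype.piFinset fun _ : Fin n => V).finite_toSet.subset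
      rintro _ ⟨x, hx, rfl⟩
      rw [mem_coe, Fintype.mem_piFinset]
      exact hx.2
    · rintro _ ⟨x, hx, rfl⟩
      apply (Set.toFinite ({x, -x} : Set (Fin (n + 1) → ℤ))).subset
      rintro y ⟨hy1, hy2⟩
      rw [Set.mem_insert_iff, Set.mem_singleton_iff]
      exact wx_inj hx.1 hy1.1 (Set.mem_singleton_iff.1 hy2).symm
  apply (Set.Finite.biUnion (Set.finite_Iic V.card) fun n _ => (hdim n).image (Sigma.mk n)).subset
  rintro ⟨n, x⟩ ⟨hn, hx, hG⟩
  have h1 := key n x hn hx hG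
  rw [Set.mem_iUnion₂]
  refine ⟨n, ?_, x, ⟨hx, h1⟩, rfl⟩
  show n ≤ V.card
  have h2 : (univ.image (wx x)).card = n := by
    rw [Finset.card_image_of_injective _ (Cf_wx hx).inj, card_univ, Fintype.card_fin]
  rw [← h2]
  apply card_le_card
  intro v hv
  rw [mem_image] at hv
  obtain ⟨i, -, rfl⟩ := hv
  exact h1 i

section

variable {Ω : Type*} [MeasurableSpace Ω]

open Pool.Agent.T2H21.RS in
/-- infinitely many configurations of four points -/
theorem four_ae (P : Measure Ω) [IsProbabilityMeasure P] {E : ℕ → Set Ω}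
    (hE : ∀ p, MeasurableSet (E p)) (hind : iIndepSet E P) {γ : ℝ}
    (hP : ∀ p : ℕ, p.Prime → P (E p) = ENNReal.ofReal ((p : ℝ) ^ (-γ)))
    (hγ1 : 1 / 2 < γ) (hγ2 : γ < 2 / 3) :
    ∀ᵐ ω ∂P, {x : Fin 2 → ℤ | Cx x ∧
      ∀ p : ℕ, p.Prime → (p : ℤ) ∣ disc x → p = 2 ∨ ω ∈ E p}.Infinite := by
  have h1 := infinite_ae P hE hind hγ1 hγ2 hP (ρ := 0) (by linarith)
  filter_upwards [h1] with ω hω
  have hinj : Function.Injective fun t : ℕ × ℕ => (![((t.1 + t.2 : ℕ) : ℤ), (t.1 : ℤ)] : Fin 2 → ℤ) := by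
    intro t t' h
    have e0 := congrFun h 0
    have e1 := congrFun h 1
    simp only [Matrix.cons_val_zero, Matrix.cons_val_one] at e0 e1
    have e2 : t.1 + t.2 = t'.1 + t'.2 := by exact_mod_cast e0
    have e3 : t.1 = t'.1 := by exact_mod_cast e1
    exact Prod.ext e3 (by omega)
  refine (hω.image hinj.injOn).mono ?_
  rintro _ ⟨t, ⟨⟨g1, g2, g3⟩, g4, -⟩, rfl⟩
  refine ⟨⟨?_, ?_, ?_⟩, ?_⟩
  · apply gcd_one (i := 0) (j := 1)
    show IsCoprime ((t.1 + t.2 : ℕ) : ℤ) (t.1 : ℤ)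
    rw [Nat.isCoprime_iff_coprime]
    simpa using g3.symm
  · intro i
    fin_cases i
    · show ((t.1 + t.2 : ℕ) : ℤ) ≠ 0
      exact_mod_cast (by omega : t.1 + t.2 ≠ 0)
    · show (t.1 : ℤ) ≠ 0
      exact_mod_cast g1.ne'
  · intro i j hij
    fin_cases i <;> fin_cases j <;> first | rfl | skip
    · exfalso
      have : ((t.1 + t.2 : ℕ) : ℤ) = (t.1 : ℤ) := hij
      have : t.1 + t.2 = t.1 := by exact_mod_cast this
      omega
    · exfalso
      have : (t.1 : ℤ) = ((t.1 + t.2 : ℕ) : ℤ) := hij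
      have : t.1 = t.1 + t.2 := by exact_mod_cast this
      omega
  · intro p hp hd
    apply g4 p hp
    rw [dvd_disc hp] at hd
    have k1 : (p : ℤ) ∣ ((t.1 + t.2 : ℕ) : ℤ) → p ∣ t.1 * t.2 * (t.1 + t.2) := fun h =>
      Dvd.dvd.mul_left (by exact_mod_cast h) _
    have k2 : (p : ℤ) ∣ (t.1 : ℤ) → p ∣ t.1 * t.2 * (t.1 + t.2) := fun h =>
      Dvd.dvd.mul_right (Dvd.dvd.mul_right (by exact_mod_cast h) _) _
    have k3 : (p : ℤ) ∣ (t.2 : ℤ) → p ∣ t.1 * t.2 * (t.1 + t.2) := fun h =>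
      Dvd.dvd.mul_right (Dvd.dvd.mul_left (by exact_mod_cast h) _) _
    rcases hd with ⟨i, hi⟩ | ⟨i, j, hij, hd⟩
    · fin_cases i
      · exact k1 hi
      · exact k2 hi
    · fin_cases i <;> fin_cases j
      · exact absurd rfl hij
      · apply k3
        have e : ((t.1 + t.2 : ℕ) : ℤ) - t.1 = t.2 := by push_cast; ring
        rw [← e]
        exact hd
      · apply k3
        have e : (t.1 : ℤ) - ((t.1 + t.2 : ℕ) : ℤ) = -t.2 := by push_cast; ring
        rw [← dvd_neg, ← e]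
        exact hd
      · exact absurd rfl hij

end

end Pool.Agent.H583.GD
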